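import Mathlib
import Pool.Agent.H3.Frg2.Defs
import Pool.Agent.H3.Frg3.QDefs

set_option autoImplicit false
set_option linter.unusedSectionVars false

/-!
# Bounded left depth over short formulas: definitions

Combinatorial part: partial matchings of a finite set `V` (finite sets of pairwise disjoint edges),
lists `F` of matchings (terms of a DNF), the canonical process `Stp F`, three-valued functions of
partial matchings (`Val`), coherent families of such functions indexed by formulas (`Coh`).

Graph part: the path gadget. Every `v : Fin (m + 1)` is replaced by the path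
`(v, 0), (v, 1), …, (v, m)`, and for `v < u` the edge `v u` joins `(v, u)` and `(u, v)`. A matching `M`
gives the assignment `fl m M` of the edges of the gadget: the path edge from `(v, i)` to
`(v, i + 1)` has value `true` iff the partner `u` of `v` is `> i`, the edge of the pair `v < u` iff
`v u ∈ M`.
-/

namespace Pool.Agent.H3.Ac

open Finset Pool.Agent.H3.Frg Pool.Agent.H3.Frg2 Pool.Agent.H3.Frg3

section Depth

variable {W : Type}

/-- left depth over the formulas of length at most `s` -/
def ldep (s : ℕ) : Fm W → ℕ
  | Fm.var _ => 0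
  | Fm.neg A => if A.len + 1 ≤ s then 0 else ldep s A + 1
  | Fm.imp A B => if A.len + B.len + 1 ≤ s then 0 else max (ldep s A + 1) (ldep s B)

/-- closed under subformulas -/
def SubCl (S : Set (Fm W)) : Prop :=
  (∀ A, Fm.neg A ∈ S → A ∈ S) ∧ ∀ A B, Fm.imp A B ∈ S → A ∈ S ∧ B ∈ S

end Depth

section Matching

variable {V : Type}

/-- partial matchings: sets of pairwise disjoint edges -/
def IsM (M : Finset (Sym2 V)) : Prop :=
  (∀ e ∈ M, ¬ e.IsDiag) ∧ ∀ e ∈ M, ∀ f ∈ M, ∀ v, v ∈ e → v ∈ f → e = f

open scoped Classical in
/-- covered vertices -/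
noncomputable def cov [Fintype V] (M : Finset (Sym2 V)) : Finset V :=
  univ.filter fun v => ∃ e ∈ M, v ∈ e

/-- compatible matchings -/
def Cmp [DecidableEq V] (t M : Finset (Sym2 V)) : Prop := IsM (t ∪ M)

open scoped Classical in
/-- the first term that is compatible with `M` -/
noncomputable def fst [DecidableEq V] (F : List (Finset (Sym2 V))) (M : Finset (Sym2 V)) :
    Option (Finset (Sym2 V)) := F.find? fun t => decide (Cmp t M)

/-- one step of the canonical process: `π` is extended to a matching that covers the first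
compatible term, by edges that touch this term -/
def Stp [Fintype V] [DecidableEq V] (F : List (Finset (Sym2 V))) (π π' : Finset (Sym2 V)) : Prop :=
  ∃ t, fst F π = some t ∧ ¬ t ⊆ π ∧ IsM π' ∧ π ⊆ π' ∧ cov t ⊆ cov π' ∧
    ∀ e ∈ π', e ∉ π → ∃ v ∈ e, v ∈ cov t

/-- the canonical process from `ρ` can add more than `k` edges -/
def Bad [Fintype V] [DecidableEq V] (F : List (Finset (Sym2 V))) (k : ℕ)
    (ρ : Finset (Sym2 V)) : Prop :=
  ∃ π, Relation.ReflTransGen (Stp F) ρ π ∧ ρ.card + k < π.card

open scoped Classical in
/-- matchings with `m` edges -/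
noncomputable def Mtc (V : Type) [Fintype V] [DecidableEq V] (m : ℕ) :
    Finset (Finset (Sym2 V)) := univ.filter fun M => IsM M ∧ M.card = m

/-- decoding: `μ` is the current matching (base, edges already added by the process, the parts of
the terms that are still to be decoded, `j` edges in all), `θ` the edges added so far, `ρ` the base -/
inductive DecR [Fintype V] [DecidableEq V] (F : List (Finset (Sym2 V))) :
    ℕ → Finset (Sym2 V) → Finset (Sym2 V) → Finset (Sym2 V) → Prop
  | nil (μ θ : Finset (Sym2 V)) : DecR F 0 μ θ (μ \ θ)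
  | cons (j : ℕ) (μ θ ρ t σ δ : Finset (Sym2 V)) : fst F μ = some t → σ ⊆ t → σ ⊆ μ →
      σ.Nonempty → IsM ((μ \ σ) ∪ δ) → Disjoint (μ \ σ) δ → cov σ ⊆ cov δ →
      (∀ e ∈ δ, ∃ v ∈ e, v ∈ cov σ) → DecR F j ((μ \ σ) ∪ δ) (θ ∪ δ) ρ →
      DecR F (j + σ.card) μ θ ρ

/-- A three-valued function of partial matchings: monotone, every value has a witness with at most
`w` edges, and every matching with at most `|V| - r` covered vertices extends by at most `w` edges
to a matching where the value is defined. -/
structure Val [Fintype V] (w r : ℕ) (f : Finset (Sym2 V) → Option Bool) : Prop where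
  /-- monotone -/
  mono : ∀ M M', IsM M' → M ⊆ M' → ∀ b, f M = some b → f M' = some b
  /-- small witnesses -/
  wit : ∀ M, IsM M → ∀ b, f M = some b → ∃ t, t ⊆ M ∧ t.card ≤ w ∧ f t = some b
  /-- short extensions where the value is defined -/
  tot : ∀ M, IsM M → 2 * M.card + r ≤ Fintype.card V →
    ∃ M', IsM M' ∧ M ⊆ M' ∧ M'.card ≤ M.card + w ∧ f M' ≠ none

/-- the values respect the connectives -/
structure Coh {W : Type} (val : Fm W → Finset (Sym2 V) → Option Bool) (S : Set (Fm W)) : Prop where
  /-- negation -/
  neg : ∀ A, Fm.neg A ∈ S → ∀ M, IsM M → ∀ a b, val A M = some a →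
    val (Fm.neg A) M = some b → b = !a
  /-- implication -/
  imp : ∀ A B, Fm.imp A B ∈ S → ∀ M, IsM M → ∀ a b c, val A M = some a → val B M = some b →
    val (Fm.imp A B) M = some c → c = (!a || b)

end Matching

section Lift

variable {V : Type} [Fintype V] [DecidableEq V]

/-- the uncovered vertices -/
abbrev Unc (ρ : Finset (Sym2 V)) : Type := {v : V // v ∉ cov ρ}

/-- a matching of the uncovered vertices together with `ρ` -/
def lft (ρ : Finset (Sym2 V)) (M : Finset (Sym2 (Unc ρ))) : Finset (Sym2 V) :=
  ρ ∪ M.image (Sym2.map Subtype.val)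

open scoped Classical in
/-- the part of a matching inside the uncovered vertices -/
noncomputable def rst (ρ N : Finset (Sym2 V)) : Finset (Sym2 (Unc ρ)) :=
  univ.filter fun e => Sym2.map Subtype.val e ∈ N

end Lift

section Gadget

/-- vertices of the gadget graph -/
abbrev GW (m : ℕ) : Type := Fin (m + 1) × Fin (m + 1)

/-- edges of the gadget graph: path edges and edges of pairs -/
abbrev GE (m : ℕ) : Type := (Fin (m + 1) × Fin m) ⊕ {p : Fin (m + 1) × Fin (m + 1) // p.1 < p.2}

/-- source -/
def gsrc (m : ℕ) : GE m → GW m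
  | Sum.inl p => (p.1, p.2.castSucc)
  | Sum.inr p => (p.1.1, p.1.2)

/-- target -/
def gtgt (m : ℕ) : GE m → GW m
  | Sum.inl p => (p.1, p.2.succ)
  | Sum.inr p => (p.1.2, p.1.1)

open scoped Classical in
/-- the assignment of the gadget edges given by a matching -/
noncomputable def fl (m : ℕ) (M : Finset (Sym2 (Fin (m + 1)))) : GE m → Bool
  | Sum.inl p => decide (∃ u, s(p.1, u) ∈ M ∧ (p.2 : ℕ) < (u : ℕ))
  | Sum.inr p => decide (s(p.1.1, p.1.2) ∈ M)

variable {R : Type}

/-- the assignment of all edges -/
noncomputable def xM (m : ℕ) (a : GE m ⊕ R → Bool) (M : Finset (Sym2 (Fin (m + 1)))) :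
    GE m ⊕ R → Bool
  | Sum.inl e => xor (a (Sum.inl e)) (fl m M e)
  | Sum.inr r => a (Sum.inr r)

/-- the vertex of the complete graph that determines an edge variable -/
def ndo (m : ℕ) : GE m ⊕ R → Option (Fin (m + 1))
  | Sum.inl (Sum.inl p) => some p.1
  | Sum.inl (Sum.inr p) => some p.1.1
  | Sum.inr _ => none

/-- the vertices of the complete graph that determine the variables in `S` -/
def nds (m : ℕ) (S : Finset (GE m ⊕ R)) : Finset (Fin (m + 1)) :=
  univ.filter fun v => ∃ e ∈ S, ndo m e = some v

open scoped Classical in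
/-- the three-valued function of a Boolean function with support `S` -/
noncomputable def bval (m : ℕ) (a : GE m ⊕ R → Bool) (S : Finset (GE m ⊕ R))
    (g : (GE m ⊕ R → Bool) → Bool) (M : Finset (Sym2 (Fin (m + 1)))) : Option Bool :=
  if nds m S ⊆ cov M then some (g (xM m a M)) else none

end Gadget

end Pool.Agent.H3.Ac
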