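import Mathlib
import Pool.Agent.H3.Ac.Defs

set_option autoImplicit false
set_option linter.unusedSectionVars false

/-!
# Module MAT: partial matchings

`IsM M`: no edge is a loop, and two edges of `M` with a common vertex are equal. `cov M`: vertices on
edges of `M`.

* `card_cov`: every edge has exactly two vertices and the edges are disjoint. For instance induction
  on `M` (`cov (insert e M)` is the disjoint union of `cov M` and the two vertices of `e`), or
  `cov M = M.biUnion Sym2.toFinset`, `Finset.card_biUnion`, `Sym2.card_toFinset_of_not_isDiag`.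
* `isM_union`: an edge of `M` and an edge of `N` have no common vertex.
* `cover`: induction on `N`. Step `insert v N`: take `M1` for `N`. If `v ∈ cov M1` take `M1`. Otherwise
  `|cov M1| = 2 |M1| ≤ 2 |M| + 2 |N| ≤ |V| - 2`, so there is an uncovered `u ≠ v`; take
  `insert s(v, u) M1` (a matching by `isM_union` with `{s(v, u)}`).
-/

namespace Pool.Agent.H3.Ac

open Finset Pool.Agent.H3.Frg Pool.Agent.H3.Frg2 Pool.Agent.H3.Frg3

section

variable {V : Type}

theorem isM_sub {M M' : Finset (Sym2 V)} (h : IsM M') (hs : M ⊆ M') : IsM M :=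
  ⟨fun e he => h.1 e (hs he), fun e he f hf v hv hv' => h.2 e (hs he) f (hs hf) v hv hv'⟩

theorem isM_empty : IsM (∅ : Finset (Sym2 V)) :=
  ⟨fun _ he => absurd he (notMem_empty _), fun _ he => absurd he (notMem_empty _)⟩

variable [Fintype V] [DecidableEq V]

theorem mem_cov {M : Finset (Sym2 V)} {v : V} : v ∈ cov M ↔ ∃ e ∈ M, v ∈ e := by
  simp only [cov, mem_filter, mem_univ, true_and]

theorem cov_mono {M M' : Finset (Sym2 V)} (h : M ⊆ M') : cov M ⊆ cov M' := by
  intro v hv
  obtain ⟨e, he, hve⟩ := mem_cov.1 hv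
  exact mem_cov.2 ⟨e, h he, hve⟩

theorem cov_union (M N : Finset (Sym2 V)) : cov (M ∪ N) = cov M ∪ cov N := by
  ext v
  rw [mem_union, mem_cov, mem_cov, mem_cov]
  constructor
  · rintro ⟨e, he, hv⟩
    rcases mem_union.1 he with h | h
    · exact Or.inl ⟨e, h, hv⟩
    · exact Or.inr ⟨e, h, hv⟩
  · rintro (⟨e, he, hv⟩ | ⟨e, he, hv⟩)
    · exact ⟨e, mem_union_left _ he, hv⟩
    · exact ⟨e, mem_union_right _ he, hv⟩

theorem card_cov {M : Finset (Sym2 V)} (h : IsM M) : (cov M).card = 2 * M.card := by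
  have h1 : cov M = M.biUnion Sym2.toFinset := by
    ext v
    rw [mem_cov, mem_biUnion]
    simp only [Sym2.mem_toFinset]
  rw [h1, card_biUnion]
  · rw [sum_congr rfl fun e he => Sym2.card_toFinset_of_not_isDiag e (h.1 e he), sum_const,
      smul_eq_mul, mul_comm]
  · intro e he f hf hef
    refine disjoint_left.2 fun v hv hv' => ?_
    rw [Sym2.mem_toFinset] at hv hv'
    exact hef (h.2 e he f hf v hv hv')

theorem isM_union {M N : Finset (Sym2 V)} (hM : IsM M) (hN : IsM N)
    (h : Disjoint (cov M) (cov N)) : IsM (M ∪ N) := by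
  refine ⟨fun e he => ?_, fun e he f hf v hv hv' => ?_⟩
  · rcases mem_union.1 he with h1 | h1
    · exact hM.1 e h1
    · exact hN.1 e h1
  · rcases mem_union.1 he with h1 | h1 <;> rcases mem_union.1 hf with h2 | h2
    · exact hM.2 e h1 f h2 v hv hv'
    · exact absurd (mem_cov.2 ⟨f, h2, hv'⟩) (disjoint_left.1 h (mem_cov.2 ⟨e, h1, hv⟩))
    · exact absurd (mem_cov.2 ⟨e, h1, hv⟩) (disjoint_left.1 h (mem_cov.2 ⟨f, h2, hv'⟩))
    · exact hN.2 e h1 f h2 v hv hv'

theorem isM_singleton {u v : V} (h : u ≠ v) : IsM ({s(u, v)} : Finset (Sym2 V)) := by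
  refine ⟨fun e he => ?_, fun e he f hf w _ _ => ?_⟩
  · rw [mem_singleton.1 he, Sym2.mk_isDiag_iff]
    exact h
  · rw [mem_singleton.1 he, mem_singleton.1 hf]

/-- adding the edge of two uncovered vertices -/
theorem isM_insert {M : Finset (Sym2 V)} (hM : IsM M) {u v : V} (h : u ≠ v) (hu : u ∉ cov M)
    (hv : v ∉ cov M) : IsM (insert s(u, v) M) ∧ s(u, v) ∉ M ∧
      (insert s(u, v) M).card = M.card + 1 := by
  have h1 : s(u, v) ∉ M := fun h2 => hu (mem_cov.2 ⟨_, h2, Sym2.mem_mk_left u v⟩)
  refine ⟨?_, h1, card_insert_of_notMem h1⟩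
  have h2 : insert s(u, v) M = {s(u, v)} ∪ M := by
    rw [insert_eq]
  rw [h2]
  refine isM_union (isM_singleton h) hM ?_
  rw [disjoint_left]
  intro w hw hw'
  obtain ⟨e, he, hwe⟩ := mem_cov.1 hw
  rw [mem_singleton.1 he, Sym2.mem_iff] at hwe
  rcases hwe with rfl | rfl
  · exact hu hw'
  · exact hv hw'

/-- matchings can be extended to cover a given set -/
theorem cover (N : Finset V) {M : Finset (Sym2 V)} (hM : IsM M)
    (hroom : 2 * M.card + 2 * N.card ≤ Fintype.card V) :
    ∃ M', IsM M' ∧ M ⊆ M' ∧ N ⊆ cov M' ∧ M'.card ≤ M.card + N.card ∧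
      ∀ e ∈ M', e ∉ M → ∃ v ∈ e, v ∈ N := by
  induction N using Finset.induction_on with
  | empty =>
    exact ⟨M, hM, Subset.refl _, empty_subset _, by simp, fun e he he' => absurd he he'⟩
  | insert v N hv ih =>
    rw [card_insert_of_notMem hv] at hroom
    obtain ⟨M1, h1, h2, h3, h4, h5⟩ := ih (by omega)
    by_cases hc : v ∈ cov M1
    · refine ⟨M1, h1, h2, insert_subset hc h3, ?_, fun e he he' => ?_⟩
      · rw [card_insert_of_notMem hv]
        omega
      · obtain ⟨w, hw, hw'⟩ := h5 e he he'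
        exact ⟨w, hw, mem_insert_of_mem hw'⟩
    · have h6 := card_cov h1
      obtain ⟨u, hu⟩ : ∃ u, u ∉ insert v (cov M1) := by
        by_contra hcon
        push Not at hcon
        have h7 : insert v (cov M1) = univ := eq_univ_of_forall hcon
        have h8 := congrArg Finset.card h7
        rw [card_univ, card_insert_of_notMem hc] at h8
        omega
      rw [mem_insert, not_or] at hu
      obtain ⟨h7, h8, h9⟩ := isM_insert h1 (Ne.symm hu.1) hc hu.2
      refine ⟨insert s(v, u) M1, h7, h2.trans (subset_insert _ _), ?_, ?_, ?_⟩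
      · refine insert_subset ?_ (h3.trans (cov_mono (subset_insert _ _)))
        exact mem_cov.2 ⟨s(v, u), mem_insert_self _ _, Sym2.mem_mk_left v u⟩
      · rw [h9, card_insert_of_notMem hv]
        omega
      · intro e he he'
        rcases mem_insert.1 he with rfl | he
        · exact ⟨v, Sym2.mem_mk_left v u, mem_insert_self _ _⟩
        · obtain ⟨w, hw, hw'⟩ := h5 e he he'
          exact ⟨w, hw, mem_insert_of_mem hw'⟩

end

end Pool.Agent.H3.Ac
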