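import Mathlib
import Pool.Agent.H3.Ac.Mat

set_option autoImplicit false
set_option linter.unusedSectionVars false

/-!
# Module SND: soundness

`val A` is a `Val w r` for all `A ∈ S`, coherent, `S` closed under subformulas and containing all lines.
Call `A` never false if `val A M ≠ some false` for every matching `M`, never true likewise.

* `decide_list`: for a list `l` of formulas of `S` and a matching `M` with `2 (|M| + w |l|) + r ≤ |V|` there
  is a matching `M' ⊇ M`, `|M'| ≤ |M| + w |l|`, where all formulas of `l` have a value (`tot`, `mono`).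
* axiom instance `ψ.bind σ`, `ψ ∈ Sch`: suppose `val (ψ.bind σ) M = some false`; by `wit` `|M| ≤ w`. Decide
  all `χ.bind σ`, `χ ∈ ψ.subs` (at most `ψ.len ≤ ℓ` many, all in `S`) at `M'`. Let `x i` be the value of
  `val (σ i) M'` (false if none). By induction on `χ`, `val (χ.bind σ) M' = some (χ.eval x)` for the
  subformulas `χ` of `ψ` (coherence). So `ψ.eval x = false`, contradiction.
* modus ponens: `A`, `A → B` never false, then so is `B`: if `val B M = some false`, `|M| ≤ w`, decide `A` and
  `A → B`: values `true`, `true`, but `true = (!true || false)` is wrong.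
* hence all lines are never false (strong induction on the index).
* `foldr`: if all `A ∈ As` are never false, then `As.foldr Fm.imp (bot v0)` is never true (if it is in `S`).
  `bot v0 = ¬(v0 → v0)`: if true at `M`, decide `v0` and `v0 → v0`. Step `A → C`: if true at `M`,
  `|M| ≤ w`, decide `A` (true) and `C` (false): `true = (!true || false)` is wrong.
* the last line has a value at some extension of `∅` (`tot`): contradiction.
-/

namespace Pool.Agent.H3.Ac

open Finset Pool.Agent.H3.Frg Pool.Agent.H3.Frg2 Pool.Agent.H3.Frg3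

variable {W V : Type} [Fintype V] [DecidableEq V]

section SndAux

variable {val : Fm W → Finset (Sym2 V) → Option Bool} {S : Set (Fm W)} {w r : ℕ}

theorem snd_decide (hval : ∀ A ∈ S, Val w r (val A)) (l : List (Fm W)) :
    (∀ A ∈ l, A ∈ S) → ∀ M : Finset (Sym2 V), IsM M →
    2 * (M.card + w * l.length) + r ≤ Fintype.card V →
    ∃ M', IsM M' ∧ M ⊆ M' ∧ M'.card ≤ M.card + w * l.length ∧ ∀ A ∈ l, val A M' ≠ none := by
  induction l with
  | nil =>
    intro _ M hM _
    exact ⟨M, hM, Subset.refl _, by simp, by simp⟩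
  | cons A l ih =>
    intro hl M hM hroom
    rw [List.length_cons, Nat.mul_succ] at hroom
    obtain ⟨M1, h1, h2, h3, h4⟩ := (hval A (hl A (List.mem_cons_self ..))).tot M hM (by omega)
    obtain ⟨M', h5, h6, h7, h8⟩ := ih (fun B hB => hl B (List.mem_cons_of_mem _ hB)) M1 h1
      (by omega)
    refine ⟨M', h5, h2.trans h6, ?_, ?_⟩
    · rw [List.length_cons, Nat.mul_succ]
      omega
    · intro B hB
      rcases List.mem_cons.1 hB with rfl | hB
      · obtain ⟨b, hb⟩ := Option.ne_none_iff_exists'.1 h4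
        rw [(hval B (hl B (List.mem_cons_self ..))).mono M1 M' h5 h6 b hb]
        exact Option.some_ne_none b
      · exact h8 B hB

/-- pass to a small witness and decide a list of formulas -/
theorem snd_wit (hval : ∀ A ∈ S, Val w r (val A)) {B : Fm W} (hB : B ∈ S)
    {M : Finset (Sym2 V)} (hM : IsM M) {b : Bool} (hb : val B M = some b) (l : List (Fm W))
    (hl : ∀ A ∈ l, A ∈ S) (hroom : 2 * (w + w * l.length) + r ≤ Fintype.card V) :
    ∃ M', IsM M' ∧ val B M' = some b ∧ ∀ A ∈ l, val A M' ≠ none := by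
  obtain ⟨t, h1, h2, h3⟩ := (hval B hB).wit M hM b hb
  have ht : IsM t := isM_sub hM h1
  obtain ⟨M', h4, h5, _, h6⟩ := snd_decide hval l hl t ht (by
    refine le_trans ?_ hroom
    omega)
  exact ⟨M', h4, (hval B hB).mono t M' h4 h5 b h3, h6⟩

theorem snd_len (ψ : Fm ℕ) : ψ.subs.length = ψ.len := by
  induction ψ with
  | var i => rfl
  | neg A ih => simp [Fm.subs, Fm.len, ih]
  | imp A B ihA ihB => simp [Fm.subs, Fm.len, ihA, ihB]

theorem snd_subs (hS : SubCl S) (σ : ℕ → Fm W) (ψ : Fm ℕ) (h : ψ.bind σ ∈ S) :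
    ∀ χ ∈ ψ.subs, χ.bind σ ∈ S := by
  induction ψ with
  | var i =>
    intro χ hχ
    simp only [Fm.subs, List.mem_singleton] at hχ
    rw [hχ]
    exact h
  | neg A ih =>
    intro χ hχ
    simp only [Fm.subs, List.mem_cons] at hχ
    rcases hχ with rfl | hχ
    · exact h
    · exact ih (hS.1 _ h) χ hχ
  | imp A B ihA ihB =>
    intro χ hχ
    simp only [Fm.subs, List.mem_cons, List.mem_append] at hχ
    rcases hχ with rfl | hχ | hχ
    · exact h
    · exact ihA (hS.2 _ _ h).1 χ hχ
    · exact ihB (hS.2 _ _ h).2 χ hχ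

theorem snd_eval (hS : SubCl S) (hcoh : Coh val S) (σ : ℕ → Fm W) {M : Finset (Sym2 V)}
    (hM : IsM M) (ψ : Fm ℕ) (h : ψ.bind σ ∈ S) (hd : ∀ χ ∈ ψ.subs, val (χ.bind σ) M ≠ none) :
    val (ψ.bind σ) M = some (ψ.eval fun i => (val (σ i) M).getD false) := by
  induction ψ with
  | var i =>
    have h1 : val (σ i) M ≠ none := hd (Fm.var i) (by simp [Fm.subs])
    obtain ⟨b, hb⟩ := Option.ne_none_iff_exists'.1 h1
    show val (σ i) M = some ((val (σ i) M).getD false)
    rw [hb]
    rfl
  | neg A ih =>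
    have h1 : Fm.neg (A.bind σ) ∈ S := h
    have h2 := ih (hS.1 _ h1) (fun χ hχ => hd χ (by simp [Fm.subs, hχ]))
    have h3 : val (Fm.neg (A.bind σ)) M ≠ none := hd (Fm.neg A) (by simp [Fm.subs])
    obtain ⟨b, hb⟩ := Option.ne_none_iff_exists'.1 h3
    show val (Fm.neg (A.bind σ)) M = _
    rw [hb, hcoh.neg _ h1 M hM _ _ h2 hb]
    rfl
  | imp A B ihA ihB =>
    have h1 : Fm.imp (A.bind σ) (B.bind σ) ∈ S := h
    have h2 := ihA (hS.2 _ _ h1).1 (fun χ hχ => hd χ (by simp [Fm.subs, hχ]))
    have h4 := ihB (hS.2 _ _ h1).2 (fun χ hχ => hd χ (by simp [Fm.subs, hχ]))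
    have h3 : val (Fm.imp (A.bind σ) (B.bind σ)) M ≠ none := hd (Fm.imp A B) (by simp [Fm.subs])
    obtain ⟨b, hb⟩ := Option.ne_none_iff_exists'.1 h3
    show val (Fm.imp (A.bind σ) (B.bind σ)) M = _
    rw [hb, hcoh.imp _ _ h1 M hM _ _ _ h2 h4 hb]
    rfl

end SndAux

theorem no_proof_ac (val : Fm W → Finset (Sym2 V) → Option Bool) (S : Set (Fm W))
    (hS : SubCl S) (w r ℓ : ℕ) (hval : ∀ A ∈ S, Val w r (val A)) (hcoh : Coh val S)
    (Sch : Set (Fm ℕ)) (htaut : ∀ ψ ∈ Sch, ∀ x : ℕ → Bool, ψ.eval x = true)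
    (hlen : ∀ ψ ∈ Sch, ψ.len ≤ ℓ) {L : ℕ} (pf : Fin L → Fm W) (hpf : IsProof Sch pf)
    (hpfS : ∀ i, pf i ∈ S) (v0 : W) (As : List (Fm W))
    (hAs : ∀ A ∈ As, ∀ M, IsM M → val A M ≠ some false)
    (hfin : ∃ i, pf i = As.foldr Fm.imp (bot v0))
    (hn : 2 * w * (ℓ + 4) + r ≤ Fintype.card V) : False := by
  have hroom : ∀ k, k ≤ ℓ + 3 → 2 * (w + w * k) + r ≤ Fintype.card V := by
    intro k hk
    refine le_trans ?_ hn
    have h1 : w * k ≤ w * (ℓ + 3) := Nat.mul_le_mul_left w hk
    have h2 : 2 * w * (ℓ + 4) = 2 * (w + w * (ℓ + 3)) := by ring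
    omega
  have hset : ∀ {M : Finset (Sym2 V)} {A : Fm W}, val A M ≠ none → val A M ≠ some false →
      val A M = some true := by
    intro M A h1 h2
    obtain ⟨b, hb⟩ := Option.ne_none_iff_exists'.1 h1
    cases b
    · exact absurd hb h2
    · exact hb
  have hset' : ∀ {M : Finset (Sym2 V)} {A : Fm W}, val A M ≠ none → val A M ≠ some true →
      val A M = some false := by
    intro M A h1 h2
    obtain ⟨b, hb⟩ := Option.ne_none_iff_exists'.1 h1
    cases b
    · exact hb
    · exact absurd hb h2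
  -- all lines are never false
  have key : ∀ m : ℕ, ∀ i : Fin L, (i : ℕ) = m → ∀ M, IsM M → val (pf i) M ≠ some false := by
    intro m
    induction m using Nat.strong_induction_on with
    | _ m ih =>
      intro i hi M hM hb
      rcases hpf i with ⟨ψ, hψ, σ, hσ⟩ | ⟨j, l, hj, hl, hjl⟩
      · have hiS := hpfS i
        rw [hσ] at hb hiS
        have h1 := snd_subs hS σ ψ hiS
        obtain ⟨M', h2, h3, h4⟩ := snd_wit hval hiS hM hb (ψ.subs.map (Fm.bind σ))
          (by
            intro A hA
            obtain ⟨χ, hχ, rfl⟩ := List.mem_map.1 hA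
            exact h1 χ hχ)
          (by
            rw [List.length_map, snd_len]
            exact hroom _ (by have := hlen ψ hψ; omega))
        have h5 := snd_eval hS hcoh σ h2 ψ hiS
          (fun χ hχ => h4 _ (List.mem_map.2 ⟨χ, hχ, rfl⟩))
        rw [h3, htaut ψ hψ] at h5
        exact absurd h5 (by simp)
      · have h1 := ih j (by omega) j rfl
        have h2 := ih l (by omega) l rfl
        have hlS := hpfS l
        rw [hjl] at h2 hlS
        have hS2 := hS.2 _ _ hlS
        obtain ⟨M', h3, h4, h5⟩ := snd_wit hval hS2.2 hM hb [pf j, Fm.imp (pf j) (pf i)]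
          (by
            intro A hA
            simp only [List.mem_cons, List.not_mem_nil, or_false] at hA
            rcases hA with rfl | rfl
            · exact hS2.1
            · exact hlS)
          (hroom 2 (by omega))
        have h6 := hset (h5 (pf j) (by simp)) (h1 M' h3)
        have h7 := hset (h5 (Fm.imp (pf j) (pf i)) (by simp)) (h2 M' h3)
        have h8 := hcoh.imp _ _ hlS M' h3 _ _ _ h6 h4 h7
        exact absurd h8 (by simp)
  -- the last line is never true
  have hfold : ∀ l : List (Fm W), (∀ A ∈ l, ∀ M, IsM M → val A M ≠ some false) →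
      l.foldr Fm.imp (bot v0) ∈ S → ∀ M, IsM M →
      val (l.foldr Fm.imp (bot v0)) M ≠ some true := by
    intro l
    induction l with
    | nil =>
      intro _ hmem M hM hb
      have hm1 : Fm.neg (Fm.imp (Fm.var v0) (Fm.var v0)) ∈ S := hmem
      have hm2 := hS.1 _ hm1
      have hm3 := (hS.2 _ _ hm2).1
      obtain ⟨M', h3, h4, h5⟩ := snd_wit hval hm1 hM hb
        [Fm.var v0, Fm.imp (Fm.var v0) (Fm.var v0)]
        (by
          intro A hA
          simp only [List.mem_cons, List.not_mem_nil, or_false] at hA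
          rcases hA with rfl | rfl
          · exact hm3
          · exact hm2)
        (hroom 2 (by omega))
      obtain ⟨a, ha⟩ := Option.ne_none_iff_exists'.1 (h5 (Fm.var v0) (by simp))
      obtain ⟨c, hc⟩ := Option.ne_none_iff_exists'.1
        (h5 (Fm.imp (Fm.var v0) (Fm.var v0)) (by simp))
      have h6 := hcoh.imp _ _ hm2 M' h3 _ _ _ ha ha hc
      have h7 := hcoh.neg _ hm1 M' h3 _ _ hc h4
      rw [h6] at h7
      cases a <;> simp at h7
    | cons A l ih =>
      intro hl hmem M hM hb
      have hm1 : Fm.imp A (l.foldr Fm.imp (bot v0)) ∈ S := hmem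
      have hm2 := hS.2 _ _ hm1
      obtain ⟨M', h3, h4, h5⟩ := snd_wit hval hm1 hM hb
        [A, l.foldr Fm.imp (bot v0)]
        (by
          intro B hB
          simp only [List.mem_cons, List.not_mem_nil, or_false] at hB
          rcases hB with rfl | rfl
          · exact hm2.1
          · exact hm2.2)
        (hroom 2 (by omega))
      have h6 := hset (h5 A (by simp)) (hl A (List.mem_cons_self ..) M' h3)
      have h7 := hset' (h5 (l.foldr Fm.imp (bot v0)) (by simp))
        (ih (fun B hB => hl B (List.mem_cons_of_mem _ hB)) hm2.2 M' h3)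
      have h8 := hcoh.imp _ _ hm1 M' h3 _ _ _ h6 h7 h4
      exact absurd h8 (by simp)
  obtain ⟨i, hi⟩ := hfin
  have hiS := hpfS i
  have h1 := key i i rfl
  rw [hi] at h1 hiS
  have h2 := hfold As hAs hiS
  obtain ⟨M', h3, _, _, h4⟩ := (hval _ hiS).tot ∅ isM_empty (by
    rw [Finset.card_empty]
    have := hroom 0 (by omega)
    omega)
  exact h1 M' h3 (hset' h4 (h2 M' h3))

end Pool.Agent.H3.Ac
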