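import Mathlib
import Pool.Agent.H3.Ac.Snd

set_option autoImplicit false
set_option linter.unusedSectionVars false

/-!
# Module SND2: soundness with a few arbitrary lines

As in `Snd`, but the lines with index in `E`, `|E| ≤ K`, are arbitrary formulas (any size, any depth).

* Interface: for an exceptional line that is an instance `ψ.bind σ` of a scheme, the formulas
  `χ.bind σ ∈ S`, `χ ∈ ψ.subs`; for an exceptional line `B → C` the formulas among `B`, `C` that are in
  `S`. These are at most `K (ℓ + 2)` formulas of `S`; `M0` decides all of them, `|M0| ≤ w K (ℓ + 2)`.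
* `vv A`: for `A ∈ S` the value of `val A M0` (false if there is none), for `A ∉ S` by the connectives.
* All lines outside `S` have `vv = true`, all lines in `S` are never false at any `M ⊇ M0`.
-/

namespace Pool.Agent.H3.Ac

open Finset Pool.Agent.H3.Frg Pool.Agent.H3.Frg2 Pool.Agent.H3.Frg3

variable {W V : Type} [Fintype V] [DecidableEq V]

section Snd2Aux

open scoped Classical in
/-- the value of an arbitrary formula at `M0`: formulas of `S` by `val`, the others by the
connectives -/
noncomputable def vv (val : Fm W → Finset (Sym2 V) → Option Bool) (S : Set (Fm W))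
    (M0 : Finset (Sym2 V)) : Fm W → Bool
  | Fm.var x => if Fm.var x ∈ S then (val (Fm.var x) M0).getD false else false
  | Fm.neg A => if Fm.neg A ∈ S then (val (Fm.neg A) M0).getD false else !(vv val S M0 A)
  | Fm.imp A B => if Fm.imp A B ∈ S then (val (Fm.imp A B) M0).getD false
      else (!(vv val S M0 A) || vv val S M0 B)

variable {val : Fm W → Finset (Sym2 V) → Option Bool} {S : Set (Fm W)} {w r : ℕ}

theorem vv_mem {M0 : Finset (Sym2 V)} {A : Fm W} (h : A ∈ S) :
    vv val S M0 A = (val A M0).getD false := by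
  cases A <;> simp [vv, h]

theorem vv_some {M0 : Finset (Sym2 V)} {A : Fm W} (h : A ∈ S) {b : Bool}
    (hb : val A M0 = some b) : vv val S M0 A = b := by
  rw [vv_mem h, hb]
  rfl

theorem vv_neg {M0 : Finset (Sym2 V)} {A : Fm W} (h : Fm.neg A ∉ S) :
    vv val S M0 (Fm.neg A) = !(vv val S M0 A) := by
  simp [vv, h]

theorem vv_imp {M0 : Finset (Sym2 V)} {A B : Fm W} (h : Fm.imp A B ∉ S) :
    vv val S M0 (Fm.imp A B) = (!(vv val S M0 A) || vv val S M0 B) := by
  simp [vv, h]

theorem vv_bind (hS : SubCl S) (hcoh : Coh val S) (σ : ℕ → Fm W) {M0 : Finset (Sym2 V)}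
    (hM0 : IsM M0) (ψ : Fm ℕ)
    (hd : ∀ χ ∈ ψ.subs, χ.bind σ ∈ S → val (χ.bind σ) M0 ≠ none) :
    vv val S M0 (ψ.bind σ) = ψ.eval fun i => vv val S M0 (σ i) := by
  induction ψ with
  | var i => rfl
  | neg A ih =>
    have h2 := ih (fun χ hχ => hd χ (by simp [Fm.subs, hχ]))
    by_cases h : Fm.neg (A.bind σ) ∈ S
    · have hA : A.bind σ ∈ S := hS.1 _ h
      have h3 : val (Fm.neg (A.bind σ)) M0 ≠ none := hd (Fm.neg A) (by simp [Fm.subs]) h
      have h4 : val (A.bind σ) M0 ≠ none := by
        refine hd A ?_ hA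
        cases A <;> simp [Fm.subs]
      obtain ⟨b, hb⟩ := Option.ne_none_iff_exists'.1 h3
      obtain ⟨a, ha⟩ := Option.ne_none_iff_exists'.1 h4
      show vv val S M0 (Fm.neg (A.bind σ)) = !(A.eval fun i => vv val S M0 (σ i))
      rw [vv_some h hb, ← h2, vv_some hA ha]
      exact hcoh.neg _ h M0 hM0 _ _ ha hb
    · show vv val S M0 (Fm.neg (A.bind σ)) = !(A.eval fun i => vv val S M0 (σ i))
      rw [vv_neg h, h2]
  | imp A B ihA ihB =>
    have h2 := ihA (fun χ hχ => hd χ (by simp [Fm.subs, hχ]))
    have h5 := ihB (fun χ hχ => hd χ (by simp [Fm.subs, hχ]))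
    by_cases h : Fm.imp (A.bind σ) (B.bind σ) ∈ S
    · have hA : A.bind σ ∈ S := (hS.2 _ _ h).1
      have hB : B.bind σ ∈ S := (hS.2 _ _ h).2
      have h3 : val (Fm.imp (A.bind σ) (B.bind σ)) M0 ≠ none :=
        hd (Fm.imp A B) (by simp [Fm.subs]) h
      have h4 : val (A.bind σ) M0 ≠ none := by
        refine hd A ?_ hA
        cases A <;> simp [Fm.subs]
      have h6 : val (B.bind σ) M0 ≠ none := by
        refine hd B ?_ hB
        cases B <;> simp [Fm.subs]
      obtain ⟨c, hc⟩ := Option.ne_none_iff_exists'.1 h3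
      obtain ⟨a, ha⟩ := Option.ne_none_iff_exists'.1 h4
      obtain ⟨b, hb⟩ := Option.ne_none_iff_exists'.1 h6
      show vv val S M0 (Fm.imp (A.bind σ) (B.bind σ)) =
        (!(A.eval fun i => vv val S M0 (σ i)) || (B.eval fun i => vv val S M0 (σ i)))
      rw [vv_some h hc, ← h2, ← h5, vv_some hA ha, vv_some hB hb]
      exact hcoh.imp _ _ h M0 hM0 _ _ _ ha hb hc
    · show vv val S M0 (Fm.imp (A.bind σ) (B.bind σ)) =
        (!(A.eval fun i => vv val S M0 (σ i)) || (B.eval fun i => vv val S M0 (σ i)))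
      rw [vv_imp h, h2, h5]

/-- decide several lists of formulas at once -/
theorem snd_decide_lists {ι : Type} [DecidableEq ι] (hval : ∀ A ∈ S, Val w r (val A)) (k : ℕ)
    (l : ι → List (Fm W)) (hl : ∀ i, ∀ A ∈ l i, A ∈ S) (hk : ∀ i, (l i).length ≤ k)
    (E : Finset ι) : 2 * (w * (E.card * k)) + r ≤ Fintype.card V →
    ∃ M0 : Finset (Sym2 V), IsM M0 ∧ M0.card ≤ w * (E.card * k) ∧
      ∀ i ∈ E, ∀ A ∈ l i, val A M0 ≠ none := by
  induction E using Finset.induction_on with
  | empty =>
    intro _
    exact ⟨∅, isM_empty, by simp, by simp⟩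
  | insert i E hi ih =>
    intro hroom
    rw [card_insert_of_notMem hi] at hroom ⊢
    have e1 : w * ((E.card + 1) * k) = w * (E.card * k) + w * k := by ring
    rw [e1] at hroom ⊢
    obtain ⟨M1, h1, h2, h3⟩ := ih (by omega)
    have h0 : w * (l i).length ≤ w * k := Nat.mul_le_mul_left w (hk i)
    obtain ⟨M', h4, h5, h6, h7⟩ := snd_decide hval (l i) (hl i) M1 h1 (by omega)
    refine ⟨M', h4, by omega, ?_⟩
    intro j hj A hA
    rcases mem_insert.1 hj with rfl | hj
    · exact h7 A hA
    · obtain ⟨b, hb⟩ := Option.ne_none_iff_exists'.1 (h3 j hj A hA)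
      rw [(hval A (hl j A hA)).mono M1 M' h4 h5 b hb]
      exact Option.some_ne_none b

end Snd2Aux

theorem no_proof_ac2 (val : Fm W → Finset (Sym2 V) → Option Bool) (S : Set (Fm W))
    (hS : SubCl S) (w r ℓ K : ℕ) (hval : ∀ A ∈ S, Val w r (val A)) (hcoh : Coh val S)
    (Sch : Set (Fm ℕ)) (htaut : ∀ ψ ∈ Sch, ∀ x : ℕ → Bool, ψ.eval x = true)
    (hlen : ∀ ψ ∈ Sch, ψ.len ≤ ℓ) {L : ℕ} (pf : Fin L → Fm W) (hpf : IsProof Sch pf)
    (E : Finset (Fin L)) (hE : E.card ≤ K) (hpfS : ∀ i, i ∉ E → pf i ∈ S)
    (v0 : W) (As : List (Fm W))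
    (hAs : ∀ A ∈ As, ∀ M, IsM M → val A M ≠ some false)
    (hfin : ∃ i, pf i = As.foldr Fm.imp (bot v0)) (hfinS : As.foldr Fm.imp (bot v0) ∈ S)
    (hn : 2 * w * (K * (ℓ + 2) + ℓ + 4) + r ≤ Fintype.card V) : False := by
  classical
  -- room
  obtain ⟨N0, hN0⟩ : ∃ N0, N0 = w * (E.card * (ℓ + 2)) := ⟨_, rfl⟩
  have hN : 2 * (N0 + w * (ℓ + 4)) + r ≤ Fintype.card V := by
    refine le_trans ?_ hn
    have h1 : w * (E.card * (ℓ + 2)) ≤ w * (K * (ℓ + 2)) :=
      Nat.mul_le_mul_left w (Nat.mul_le_mul_right _ hE)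
    have h2 : 2 * w * (K * (ℓ + 2) + ℓ + 4) = 2 * (w * (K * (ℓ + 2)) + w * (ℓ + 4)) := by ring
    omega
  have hroom : ∀ k, k ≤ ℓ + 3 → 2 * (N0 + (w + w * k)) + r ≤ Fintype.card V := by
    intro k hk
    refine le_trans ?_ hN
    have h1 : w * k ≤ w * (ℓ + 3) := Nat.mul_le_mul_left w hk
    have h2 : w * (ℓ + 4) = w + w * (ℓ + 3) := by ring
    omega
  have hroom' : ∀ k, k ≤ ℓ + 3 → 2 * (w + w * k) + r ≤ Fintype.card V := by
    intro k hk
    have := hroom k hk
    omega
  have hset : ∀ {M : Finset (Sym2 V)} {A : Fm W}, val A M ≠ none → val A M ≠ some false →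
      val A M = some true := by
    intro M A h1 h2
    obtain ⟨b, hb⟩ := Option.ne_none_iff_exists'.1 h1
    cases b
    · exact absurd hb h2
    · exact hb
  have hset' : ∀ {M : Finset (Sym2 V)} {A : Fm W}, val A M ≠ none → val A M ≠ some true →
      val A M = some false := by
    intro M A h1 h2
    obtain ⟨b, hb⟩ := Option.ne_none_iff_exists'.1 h1
    cases b
    · exact hb
    · exact absurd hb h2
  -- interface
  have hif : ∀ i : Fin L, ∃ l : List (Fm W), l.length ≤ ℓ + 2 ∧ (∀ A ∈ l, A ∈ S) ∧
      ((∃ ψ ∈ Sch, ∃ σ : ℕ → Fm W, pf i = ψ.bind σ) →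
        ∃ ψ ∈ Sch, ∃ σ : ℕ → Fm W, pf i = ψ.bind σ ∧
          ∀ χ ∈ ψ.subs, χ.bind σ ∈ S → χ.bind σ ∈ l) ∧
      ∀ B C, pf i = Fm.imp B C → (B ∈ S → B ∈ l) ∧ (C ∈ S → C ∈ l) := by
    intro i
    have h2 : ∃ l2 : List (Fm W), l2.length ≤ 2 ∧ (∀ A ∈ l2, A ∈ S) ∧
        ∀ B C, pf i = Fm.imp B C → (B ∈ S → B ∈ l2) ∧ (C ∈ S → C ∈ l2) := by
      cases h : pf i with
      | var x => exact ⟨[], by simp, by simp, by intro B C h'; exact absurd h' (by simp)⟩
      | neg A => exact ⟨[], by simp, by simp, by intro B C h'; exact absurd h' (by simp)⟩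
      | imp B C =>
        refine ⟨[B, C].filter (fun A => decide (A ∈ S)), ?_, ?_, ?_⟩
        · exact List.length_filter_le _ _
        · intro A hA
          simpa using (List.mem_filter.1 hA).2
        · intro B' C' h'
          injection h' with h1 h2
          subst h1
          subst h2
          exact ⟨fun hB => List.mem_filter.2 ⟨by simp, by simpa using hB⟩,
            fun hC => List.mem_filter.2 ⟨by simp, by simpa using hC⟩⟩
    obtain ⟨l2, h21, h22, h23⟩ := h2
    by_cases hs : ∃ ψ ∈ Sch, ∃ σ : ℕ → Fm W, pf i = ψ.bind σ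
    · obtain ⟨ψ, hψ, σ, hσ⟩ := hs
      refine ⟨(ψ.subs.map (Fm.bind σ)).filter (fun A => decide (A ∈ S)) ++ l2, ?_, ?_, ?_, ?_⟩
      · rw [List.length_append]
        have h3 := List.length_filter_le (fun A => decide (A ∈ S)) (ψ.subs.map (Fm.bind σ))
        rw [List.length_map, snd_len] at h3
        have := hlen ψ hψ
        omega
      · intro A hA
        rcases List.mem_append.1 hA with hA | hA
        · simpa using (List.mem_filter.1 hA).2
        · exact h22 A hA
      · intro _
        refine ⟨ψ, hψ, σ, hσ, fun χ hχ hχS => ?_⟩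
        exact List.mem_append_left _ (List.mem_filter.2
          ⟨List.mem_map.2 ⟨χ, hχ, rfl⟩, by simpa using hχS⟩)
      · intro B C hBC
        exact ⟨fun hB => List.mem_append_right _ ((h23 B C hBC).1 hB),
          fun hC => List.mem_append_right _ ((h23 B C hBC).2 hC)⟩
    · exact ⟨l2, by omega, h22, fun h => absurd h hs, h23⟩
  choose lf hlf1 hlf2 hlf3 hlf4 using hif
  obtain ⟨M0, hM0, hM0c, hM0d⟩ := snd_decide_lists (V := V) hval (ℓ + 2) lf hlf2 hlf1 E (by omega)
  rw [← hN0] at hM0c
  -- the lines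
  have key : ∀ m : ℕ, ∀ i : Fin L, (i : ℕ) = m →
      (pf i ∈ S → ∀ M, IsM M → M0 ⊆ M → val (pf i) M ≠ some false) ∧
      (pf i ∉ S → vv val S M0 (pf i) = true) := by
    intro m
    induction m using Nat.strong_induction_on with
    | _ m ih =>
      intro i hi
      constructor
      · intro hiS M hM hMM hb
        rcases hpf i with ⟨ψ, hψ, σ, hσ⟩ | ⟨j, l, hj, hl, hjl⟩
        · rw [hσ] at hb hiS
          have h1 := snd_subs hS σ ψ hiS
          obtain ⟨M', h2, h3, h4⟩ := snd_wit hval hiS hM hb (ψ.subs.map (Fm.bind σ))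
            (by
              intro A hA
              obtain ⟨χ, hχ, rfl⟩ := List.mem_map.1 hA
              exact h1 χ hχ)
            (by
              rw [List.length_map, snd_len]
              exact hroom' _ (by have := hlen ψ hψ; omega))
          have h5 := snd_eval hS hcoh σ h2 ψ hiS
            (fun χ hχ => h4 _ (List.mem_map.2 ⟨χ, hχ, rfl⟩))
          rw [h3, htaut ψ hψ] at h5
          exact absurd h5 (by simp)
        · have ihj := ih j (by omega) j rfl
          have ihl := ih l (by omega) l rfl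
          rw [hjl] at ihl
          by_cases hlS : Fm.imp (pf j) (pf i) ∈ S
          · have hS2 := hS.2 _ _ hlS
            -- the small matching above `M0` where the line is false
            obtain ⟨t, ht1, ht2, ht3⟩ := (hval _ hiS).wit M hM false hb
            have hM1 : IsM (M0 ∪ t) := isM_sub hM (union_subset hMM ht1)
            have hM1c : (M0 ∪ t).card ≤ N0 + w := (card_union_le _ _).trans (by omega)
            have hM1v : val (pf i) (M0 ∪ t) = some false :=
              (hval _ hiS).mono t _ hM1 subset_union_right false ht3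
            obtain ⟨M', h3, h4, _, h5⟩ := snd_decide hval [pf j, Fm.imp (pf j) (pf i)]
              (by
                intro A hA
                simp only [List.mem_cons, List.not_mem_nil, or_false] at hA
                rcases hA with rfl | rfl
                · exact hS2.1
                · exact hlS) (M0 ∪ t) hM1 (by
                have h9 := hroom 2 (by omega)
                have h10 : ([pf j, Fm.imp (pf j) (pf i)] : List (Fm W)).length = 2 := rfl
                rw [h10]
                omega)
            have hM0M' : M0 ⊆ M' := subset_union_left.trans h4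
            have h6 := hset (h5 (pf j) (by simp)) (ihj.1 hS2.1 M' h3 hM0M')
            have h7 := hset (h5 (Fm.imp (pf j) (pf i)) (by simp)) (ihl.1 hlS M' h3 hM0M')
            have h8 := hcoh.imp _ _ hlS M' h3 _ _ _ h6
              ((hval _ hiS).mono _ M' h3 h4 false hM1v) h7
            exact absurd h8 (by simp)
          · -- the major premise is exceptional
            have hlE : l ∈ E := by
              by_contra hlE
              exact hlS (hjl ▸ hpfS l hlE)
            have h1 := ihl.2 hlS
            rw [vv_imp hlS] at h1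
            have h2 : vv val S M0 (pf j) = true := by
              by_cases hjS : pf j ∈ S
              · have h3 := hM0d l hlE (pf j) ((hlf4 l _ _ hjl).1 hjS)
                exact vv_some hjS (hset h3 (ihj.1 hjS M0 hM0 (Subset.refl _)))
              · exact ihj.2 hjS
            rw [h2] at h1
            have h4 : vv val S M0 (pf i) = true := by simpa using h1
            have h5 := hM0d l hlE (pf i) ((hlf4 l _ _ hjl).2 hiS)
            obtain ⟨b, hb'⟩ := Option.ne_none_iff_exists'.1 h5
            rw [vv_some hiS hb'] at h4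
            rw [h4] at hb'
            have h6 := (hval _ hiS).mono M0 M hM hMM true hb'
            rw [hb] at h6
            exact absurd h6 (by simp)
      · intro hiS
        have hiE : i ∈ E := by
          by_contra hiE
          exact hiS (hpfS i hiE)
        rcases hpf i with ⟨ψ, hψ, σ, hσ⟩ | ⟨j, l, hj, hl, hjl⟩
        · obtain ⟨ψ', hψ', σ', hσ', h1⟩ := hlf3 i ⟨ψ, hψ, σ, hσ⟩
          rw [hσ', vv_bind hS hcoh σ' hM0 ψ' (fun χ hχ hχS => hM0d i hiE _ (h1 χ hχ hχS))]
          exact htaut ψ' hψ' _
        · have ihj := ih j (by omega) j rfl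
          have ihl := ih l (by omega) l rfl
          rw [hjl] at ihl
          have hlS : Fm.imp (pf j) (pf i) ∉ S := fun h => hiS (hS.2 _ _ h).2
          have hlE : l ∈ E := by
            by_contra hlE
            exact hlS (hjl ▸ hpfS l hlE)
          have h1 := ihl.2 hlS
          rw [vv_imp hlS] at h1
          have h2 : vv val S M0 (pf j) = true := by
            by_cases hjS : pf j ∈ S
            · have h3 := hM0d l hlE (pf j) ((hlf4 l _ _ hjl).1 hjS)
              exact vv_some hjS (hset h3 (ihj.1 hjS M0 hM0 (Subset.refl _)))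
            · exact ihj.2 hjS
          rw [h2] at h1
          simpa using h1
  -- the last line is never true
  have hfold : ∀ l : List (Fm W), (∀ A ∈ l, ∀ M, IsM M → val A M ≠ some false) →
      l.foldr Fm.imp (bot v0) ∈ S → ∀ M, IsM M →
      val (l.foldr Fm.imp (bot v0)) M ≠ some true := by
    intro l
    induction l with
    | nil =>
      intro _ hmem M hM hb
      have hm1 : Fm.neg (Fm.imp (Fm.var v0) (Fm.var v0)) ∈ S := hmem
      have hm2 := hS.1 _ hm1
      have hm3 := (hS.2 _ _ hm2).1
      obtain ⟨M', h3, h4, h5⟩ := snd_wit hval hm1 hM hb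
        [Fm.var v0, Fm.imp (Fm.var v0) (Fm.var v0)]
        (by
          intro A hA
          simp only [List.mem_cons, List.not_mem_nil, or_false] at hA
          rcases hA with rfl | rfl
          · exact hm3
          · exact hm2)
        (hroom' 2 (by omega))
      obtain ⟨a, ha⟩ := Option.ne_none_iff_exists'.1 (h5 (Fm.var v0) (by simp))
      obtain ⟨c, hc⟩ := Option.ne_none_iff_exists'.1
        (h5 (Fm.imp (Fm.var v0) (Fm.var v0)) (by simp))
      have h6 := hcoh.imp _ _ hm2 M' h3 _ _ _ ha ha hc
      have h7 := hcoh.neg _ hm1 M' h3 _ _ hc h4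
      rw [h6] at h7
      cases a <;> simp at h7
    | cons A l ih =>
      intro hl hmem M hM hb
      have hm1 : Fm.imp A (l.foldr Fm.imp (bot v0)) ∈ S := hmem
      have hm2 := hS.2 _ _ hm1
      obtain ⟨M', h3, h4, h5⟩ := snd_wit hval hm1 hM hb
        [A, l.foldr Fm.imp (bot v0)]
        (by
          intro B hB
          simp only [List.mem_cons, List.not_mem_nil, or_false] at hB
          rcases hB with rfl | rfl
          · exact hm2.1
          · exact hm2.2)
        (hroom' 2 (by omega))
      have h6 := hset (h5 A (by simp)) (hl A (List.mem_cons_self ..) M' h3)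
      have h7 := hset' (h5 (l.foldr Fm.imp (bot v0)) (by simp))
        (ih (fun B hB => hl B (List.mem_cons_of_mem _ hB)) hm2.2 M' h3)
      have h8 := hcoh.imp _ _ hm1 M' h3 _ _ _ h6 h7 h4
      exact absurd h8 (by simp)
  obtain ⟨i, hi⟩ := hfin
  have h1 := (key i i rfl).1
  rw [hi] at h1
  have h2 := hfold As hAs hfinS
  obtain ⟨M', h3, h30, _, h4⟩ := (hval _ hfinS).tot M0 hM0 (by
    have := hroom 0 (by omega)
    omega)
  exact h1 hfinS M' h3 h30 (hset' h4 (h2 M' h3))

end Pool.Agent.H3.Ac
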