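import Mathlib
import Pool.Agent.H3.Ac.Defs
import Pool.Agent.H3.Frg4.Simul

set_option autoImplicit false
set_option linter.unusedSectionVars false

/-!
# The simulation of derivations by proofs of the iterated implication, with left depth
-/

namespace Pool.Agent.H3.Ac

open Finset Pool.Agent.H3.Frg Pool.Agent.H3.Frg2 Pool.Agent.H3.Frg4

variable {V : Type}

theorem ldep_short {b : ℕ} {A : Fm V} (h : A.len ≤ b) : ldep b A = 0 := by
  cases A with
  | var v => rfl
  | neg A => simp only [Fm.len] at h; simp [ldep, h]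
  | imp A B => simp only [Fm.len] at h; simp [ldep, h]

theorem ldep_imp {b : ℕ} (A B : Fm V) :
    ldep b (Fm.imp A B) ≤ max (ldep b A + 1) (ldep b B) := by
  simp only [ldep]
  split_ifs <;> omega

theorem ldep_imp_sub {b : ℕ} (A B : Fm V) :
    ldep b A ≤ ldep b (Fm.imp A B) ∧ ldep b B ≤ ldep b (Fm.imp A B) := by
  simp only [ldep]
  split_ifs with h
  · rw [ldep_short (by omega), ldep_short (by omega)]
    exact ⟨le_rfl, le_rfl⟩
  · omega

theorem ldep_neg {b : ℕ} (A : Fm V) : ldep b (Fm.neg A) ≤ ldep b A + 1 := by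
  simp only [ldep]
  split_ifs <;> omega

theorem ldep_neg_sub {b : ℕ} (A : Fm V) : ldep b A ≤ ldep b (Fm.neg A) := by
  simp only [ldep]
  split_ifs with h
  · rw [ldep_short (by omega)]
  · omega

theorem ldep_chain {b e : ℕ} (As : List (Fm V)) (hAs : ∀ A ∈ As, A.len ≤ b) {B : Fm V}
    (he : 1 ≤ e) (hB : ldep b B ≤ e) : ldep b (chain As B) ≤ e := by
  induction As with
  | nil => exact hB
  | cons A As ih =>
    have h1 := ih fun A' hA' => hAs A' (List.mem_cons_of_mem _ hA')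
    have h2 : ldep b (Fm.imp A (chain As B)) ≤ _ := ldep_imp _ _
    have h3 := ldep_short (hAs A List.mem_cons_self)
    have h4 : chain (A :: As) B = Fm.imp A (chain As B) := rfl
    rw [h4]
    omega

/-- `ExA Sch s b D c l B`: the proof `l` extends to a proof with the property `P` by at most `c`
further lines of length at most `s` and left depth at most `D` over the formulas of length at
most `b` -/
def ExA (Sch : Set (Fm ℕ)) (s b D c : ℕ) (l : List (Fm V)) (P : List (Fm V) → Prop) : Prop :=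
  ∃ l', PL Sch l' ∧ l ⊆ l' ∧ l'.length ≤ l.length + c ∧
    (∀ A ∈ l', A ∈ l ∨ (A.len ≤ s ∧ ldep b A ≤ D)) ∧ P l'

section Steps

variable {Sch : Set (Fm ℕ)} {s b D e : ℕ}

theorem exa_trans {c c' : ℕ} {l : List (Fm V)} {P Q : List (Fm V) → Prop}
    (h1 : ExA Sch s b D c l P)
    (h2 : ∀ l', PL Sch l' → l ⊆ l' → P l' → ExA Sch s b D c' l' Q) :
    ExA Sch s b D (c + c') l Q := by
  obtain ⟨l', a1, a2, a3, a4, a5⟩ := h1
  obtain ⟨l'', b1, b2, b3, b4, b5⟩ := h2 l' a1 a2 a5
  refine ⟨l'', b1, fun x hx => b2 (a2 hx), by omega, fun A hA => ?_, b5⟩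
  rcases b4 A hA with h | h
  · exact a4 A h
  · exact Or.inr h

theorem exa_mono {c c' : ℕ} {l : List (Fm V)} {P Q : List (Fm V) → Prop}
    (h1 : ExA Sch s b D c l P) (hc : c ≤ c') (hPQ : ∀ l', l ⊆ l' → P l' → Q l') :
    ExA Sch s b D c' l Q := by
  obtain ⟨l', a1, a2, a3, a4, a5⟩ := h1
  exact ⟨l', a1, a2, by omega, a4, hPQ l' a2 a5⟩

theorem exa_ax {l : List (Fm V)} (hl : PL Sch l) {A : Fm V} (hA : ∃ ψ ∈ Sch, ∃ σ : ℕ → Fm V,
    ψ.bind σ = A) (hs : A.len ≤ s) (hd : ldep b A ≤ D) :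
    ExA Sch s b D 1 l fun l' => A ∈ l' := by
  obtain ⟨ψ, hψ, σ, h⟩ := hA
  refine ⟨A :: l, h ▸ PL.ax l ψ σ hl hψ, fun x hx => List.mem_cons_of_mem _ hx, by simp,
    fun B hB => ?_, List.mem_cons_self⟩
  rcases List.mem_cons.mp hB with rfl | hB
  · exact Or.inr ⟨hs, hd⟩
  · exact Or.inl hB

theorem exa_mp {l : List (Fm V)} (hl : PL Sch l) {A B : Fm V} (hA : A ∈ l)
    (hAB : Fm.imp A B ∈ l) (hs : B.len ≤ s) (hd : ldep b B ≤ D) :
    ExA Sch s b D 1 l fun l' => B ∈ l' := by
  refine ⟨B :: l, PL.mp l A B hl hA hAB, fun x hx => List.mem_cons_of_mem _ hx, by simp,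
    fun B' hB => ?_, List.mem_cons_self⟩
  rcases List.mem_cons.mp hB with rfl | hB
  · exact Or.inr ⟨hs, hd⟩
  · exact Or.inl hB

/-- an instance followed by modus ponens -/
theorem exa_ax_mp {l : List (Fm V)} (hl : PL Sch l) {A B : Fm V} (hA : A ∈ l)
    (hψ : ∃ ψ ∈ Sch, ∃ σ : ℕ → Fm V, ψ.bind σ = Fm.imp A B) (hs : (Fm.imp A B).len ≤ s)
    (hd : ldep b (Fm.imp A B) ≤ D) :
    ExA Sch s b D 2 l fun l' => B ∈ l' := by
  refine exa_trans (c := 1) (c' := 1) (exa_ax hl hψ hs hd) fun l' h1 h2 h3 => ?_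
  refine exa_mp h1 (h2 hA) h3 ?_ ((ldep_imp_sub A B).2.trans hd)
  simp only [Fm.len] at hs
  omega

variable (hS : Sim Sch) (he : 1 ≤ e) (hD : e + 2 ≤ D)
include hS he hD

theorem exa_weak {B : Fm V} (As : List (Fm V)) (hAs : ∀ A ∈ As, A.len ≤ b) {l : List (Fm V)}
    (hl : PL Sch l) (hB : B ∈ l) (hs : 3 * (clen As + B.len) + 3 ≤ s) (hBe : ldep b B ≤ e) :
    ExA Sch s b D (2 * As.length) l fun l' => chain As B ∈ l' := by
  induction As with
  | nil => exact ⟨l, hl, fun x hx => hx, by simp, fun A hA => Or.inl hA, hB⟩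
  | cons A As ih =>
    have e' : 2 * (A :: As).length = 2 * As.length + 2 := by simp; ring
    have e1 : clen (A :: As) = A.len + 1 + clen As := by simp [clen]
    have hAs' : ∀ A ∈ As, A.len ≤ b := fun A' hA' => hAs A' (List.mem_cons_of_mem _ hA')
    rw [e']
    rw [e1] at hs
    refine exa_trans (ih hAs' (by omega)) fun l' h1 h2 h3 => ?_
    obtain ⟨ψ, hψ, h⟩ := hS.t2
    refine exa_ax_mp h1 h3 ⟨ψ, hψ, h (chain As B) A⟩ ?_ ?_
    · simp only [Fm.len, len_chain]
      omega
    · have k1 := ldep_chain As hAs' he hBe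
      have k2 := ldep_imp (b := b) (chain As B) (Fm.imp A (chain As B))
      have k3 := ldep_chain (A :: As) hAs he hBe
      have k4 : chain (A :: As) B = Fm.imp A (chain As B) := rfl
      rw [k4] at k3
      show ldep b (Fm.imp (chain As B) (Fm.imp A (chain As B))) ≤ D
      omega

theorem exa_inner {A : Fm V} (hA : A.len ≤ b) (As : List (Fm V)) (hAs : ∀ A ∈ As, A.len ≤ b)
    {l : List (Fm V)} (hl : PL Sch l) (hs : 4 * (clen As + A.len) + 8 ≤ s) :
    ExA Sch s b D (2 * As.length + 1) l fun l' => Fm.imp A (chain As A) ∈ l' := by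
  have hA0 := ldep_short hA
  induction As with
  | nil =>
    obtain ⟨ψ, hψ, h⟩ := hS.t1
    refine exa_mono (exa_ax hl ⟨ψ, hψ, h A⟩ ?_ ?_) (by simp) fun l' _ h => h
    · simp only [Fm.len]; omega
    · have := ldep_imp (b := b) A A
      omega
  | cons C As ih =>
    have e' : 2 * (C :: As).length + 1 = (2 * As.length + 1) + 2 := by simp; ring
    have e1 : clen (C :: As) = C.len + 1 + clen As := by simp [clen]
    have hAs' : ∀ A ∈ As, A.len ≤ b := fun A' hA' => hAs A' (List.mem_cons_of_mem _ hA')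
    rw [e']
    rw [e1] at hs
    refine exa_trans (ih hAs' (by omega)) fun l' h1 h2 h3 => ?_
    obtain ⟨ψ, hψ, h⟩ := hS.t3
    refine exa_ax_mp h1 h3 ⟨ψ, hψ, h A (chain As A) C⟩ ?_ ?_
    · simp only [Fm.len, len_chain]
      omega
    · have k1 := ldep_chain (e := 1) As hAs' le_rfl (by omega : ldep b A ≤ 1)
      have k3 := ldep_chain (e := 1) (C :: As) hAs le_rfl (by omega : ldep b A ≤ 1)
      have k4 : chain (C :: As) A = Fm.imp C (chain As A) := rfl
      rw [k4] at k3
      have k5 := ldep_imp (b := b) A (chain As A)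
      have k6 := ldep_imp (b := b) A (Fm.imp C (chain As A))
      have k2 := ldep_imp (b := b) (Fm.imp A (chain As A)) (Fm.imp A (Fm.imp C (chain As A)))
      show ldep b (Fm.imp (Fm.imp A (chain As A)) (Fm.imp A (Fm.imp C (chain As A)))) ≤ D
      omega

theorem exa_hyp {A : Fm V} (As : List (Fm V)) (hA : A ∈ As) (hAs : ∀ A ∈ As, A.len ≤ b)
    {l : List (Fm V)} (hl : PL Sch l) (hs : 4 * (clen As + A.len) + 8 ≤ s) :
    ExA Sch s b D (2 * As.length + 1) l fun l' => chain As A ∈ l' := by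
  have hA0 := ldep_short (hAs A hA)
  induction As with
  | nil => simp at hA
  | cons C As ih =>
    have e1 : clen (C :: As) = C.len + 1 + clen As := by simp [clen]
    have hAs' : ∀ A ∈ As, A.len ≤ b := fun A' hA' => hAs A' (List.mem_cons_of_mem _ hA')
    rw [e1] at hs
    rcases List.mem_cons.mp hA with rfl | hA'
    · exact exa_mono (exa_inner hS he hD (hAs A hA) As hAs' hl (by omega)) (by simp)
        fun l' _ h => h
    · have e' : 2 * (C :: As).length + 1 = (2 * As.length + 1) + 2 := by simp; ring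
      rw [e']
      refine exa_trans (ih hA' hAs' (by omega)) fun l' h1 h2 h3 => ?_
      obtain ⟨ψ, hψ, h⟩ := hS.t2
      refine exa_ax_mp h1 h3 ⟨ψ, hψ, h (chain As A) C⟩ ?_ ?_
      · simp only [Fm.len, len_chain]
        omega
      · have k1 := ldep_chain (e := 1) As hAs' le_rfl (by omega : ldep b A ≤ 1)
        have k3 := ldep_chain (e := 1) (C :: As) hAs le_rfl (by omega : ldep b A ≤ 1)
        have k4 : chain (C :: As) A = Fm.imp C (chain As A) := rfl
        rw [k4] at k3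
        have k2 := ldep_imp (b := b) (chain As A) (Fm.imp C (chain As A))
        show ldep b (Fm.imp (chain As A) (Fm.imp C (chain As A))) ≤ D
        omega

theorem exa_dist {B C : Fm V} (As : List (Fm V)) (hAs : ∀ A ∈ As, A.len ≤ b)
    {l : List (Fm V)} (hl : PL Sch l)
    (hs : 6 * (clen As + B.len + C.len) + 16 ≤ s) (hBC : ldep b (Fm.imp B C) ≤ e) :
    ExA Sch s b D (2 * As.length + 1) l fun l' =>
      Fm.imp (chain As (Fm.imp B C)) (Fm.imp (chain As B) (chain As C)) ∈ l' := by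
  have hBe := (ldep_imp_sub B C).1.trans hBC
  have hCe := (ldep_imp_sub B C).2.trans hBC
  induction As with
  | nil =>
    obtain ⟨ψ, hψ, h⟩ := hS.t1
    refine exa_mono (exa_ax hl ⟨ψ, hψ, h (Fm.imp B C)⟩ ?_ ?_) (by simp) fun l' _ h => h
    · simp only [Fm.len]; omega
    · have := ldep_imp (b := b) (Fm.imp B C) (Fm.imp B C)
      omega
  | cons A As ih =>
    have e' : 2 * (A :: As).length + 1 = (2 * As.length + 1) + 2 := by simp; ring
    have e1 : clen (A :: As) = A.len + 1 + clen As := by simp [clen]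
    have hAs' : ∀ A ∈ As, A.len ≤ b := fun A' hA' => hAs A' (List.mem_cons_of_mem _ hA')
    rw [e']
    rw [e1] at hs
    refine exa_trans (ih hAs' (by omega)) fun l' h1 h2 h3 => ?_
    obtain ⟨ψ, hψ, h⟩ := hS.t4
    have key : ∀ As' : List (Fm V), (∀ A ∈ As', A.len ≤ b) →
        ldep b (Fm.imp (chain As' (Fm.imp B C)) (Fm.imp (chain As' B) (chain As' C)))
          ≤ e + 1 := by
      intro As' hAs''
      have k1 := ldep_chain As' hAs'' he hBC
      have k2 := ldep_chain As' hAs'' he hBe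
      have k3 := ldep_chain As' hAs'' he hCe
      have k4 := ldep_imp (b := b) (chain As' B) (chain As' C)
      have k5 := ldep_imp (b := b) (chain As' (Fm.imp B C))
        (Fm.imp (chain As' B) (chain As' C))
      omega
    refine exa_ax_mp h1 h3 ⟨ψ, hψ, h A (chain As (Fm.imp B C)) (chain As B) (chain As C)⟩ ?_ ?_
    · simp only [Fm.len, len_chain]
      omega
    · have k1 := key As hAs'
      have k2 := key (A :: As) hAs
      have k3 := ldep_imp (b := b)
        (Fm.imp (chain As (Fm.imp B C)) (Fm.imp (chain As B) (chain As C)))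
        (Fm.imp (chain (A :: As) (Fm.imp B C)) (Fm.imp (chain (A :: As) B)
          (chain (A :: As) C)))
      refine k3.trans ?_
      omega

/-- modus ponens below a common list of antecedents -/
theorem exa_cmp {B C : Fm V} (As : List (Fm V)) (hAs : ∀ A ∈ As, A.len ≤ b) {l : List (Fm V)}
    (hl : PL Sch l) (h1 : chain As B ∈ l) (h2 : chain As (Fm.imp B C) ∈ l)
    (hs : 6 * (clen As + B.len + C.len) + 16 ≤ s) (hBC : ldep b (Fm.imp B C) ≤ e) :
    ExA Sch s b D (2 * As.length + 3) l fun l' => chain As C ∈ l' := by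
  have hBe := (ldep_imp_sub B C).1.trans hBC
  have hCe := (ldep_imp_sub B C).2.trans hBC
  have k2 := ldep_chain As hAs he hBe
  have k3 := ldep_chain As hAs he hCe
  have k4 := ldep_imp (b := b) (chain As B) (chain As C)
  have e' : 2 * As.length + 3 = (2 * As.length + 1) + (1 + 1) := by ring
  rw [e']
  refine exa_trans (exa_dist hS he hD As hAs hl hs hBC) fun l' a1 a2 a3 => ?_
  refine exa_trans (exa_mp a1 (a2 h2) a3 ?_ (by omega)) fun l'' b1 b2 b3 => ?_
  · simp only [Fm.len, len_chain]; omega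
  · refine exa_mp b1 (b2 (a2 h1)) b3 ?_ (by omega)
    simp only [len_chain]; omega

/-- an axiom scheme below a list of antecedents, applied to one premise -/
theorem exa_cax {B C : Fm V} (As : List (Fm V)) (hAs : ∀ A ∈ As, A.len ≤ b) {l : List (Fm V)}
    (hl : PL Sch l) (h1 : chain As B ∈ l)
    (h2 : ∃ ψ ∈ Sch, ∃ σ : ℕ → Fm V, ψ.bind σ = Fm.imp B C)
    (hs : 6 * (clen As + B.len + C.len) + 16 ≤ s) (hBC : ldep b (Fm.imp B C) ≤ e) :
    ExA Sch s b D (4 * As.length + 4) l fun l' => chain As C ∈ l' := by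
  have e' : 4 * As.length + 4 = 1 + (2 * As.length + (2 * As.length + 3)) := by ring
  rw [e']
  refine exa_trans (exa_ax hl h2 (by simp only [Fm.len]; omega) (by omega))
    fun l1 a1 a2 a3 => ?_
  refine exa_trans (exa_weak hS he hD As hAs a1 a3 (by simp only [Fm.len]; omega) hBC)
    fun l2 b1 b2 b3 => ?_
  exact exa_cmp hS he hD As hAs b1 (b2 (a2 h1)) b3 hs hBC

end Steps

section Main

variable {Sch : Set (Fm ℕ)} {s b D e : ℕ}

/-- the simulation of a derivation from formulas each of which follows from one antecedent -/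
theorem exa_der (hS : Sim Sch) (he : 1 ≤ e) (hD : e + 2 ≤ D) (As : List (Fm V))
    (hAs : ∀ A ∈ As, A.len ≤ b) (Γ : Set (Fm V)) {s0 : ℕ}
    (hΓ : ∀ C ∈ Γ, ∃ A ∈ As, ∃ ψ ∈ Sch, ∃ σ : ℕ → Fm V, ψ.bind σ = Fm.imp A C)
    {L : ℕ} (pf : Fin L → Fm V) (hpf : IsDer Sch Γ pf) (hlen : ∀ i, (pf i).len ≤ s0)
    (hdep : ∀ i, ldep b (pf i) ≤ e) (hs : 12 * (clen As + s0) + 30 ≤ s) :
    ∀ m, m ≤ L → ExA Sch s b D (m * (6 * As.length + 6)) ([] : List (Fm V)) fun l' =>
      ∀ i : Fin L, (i : ℕ) < m → chain As (pf i) ∈ l' := by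
  intro m
  induction m with
  | zero => intro _; exact ⟨[], PL.nil, by simp, by simp, by simp, fun i hi => by omega⟩
  | succ m ih =>
    intro hm
    have e' : (m + 1) * (6 * As.length + 6) = m * (6 * As.length + 6) + (6 * As.length + 6) := by
      ring
    rw [e']
    refine exa_trans (ih (by omega)) fun l a1 a2 a3 => ?_
    have hnew : ExA Sch s b D (6 * As.length + 6) l fun l' =>
        chain As (pf ⟨m, by omega⟩) ∈ l' := by
      have hl0 := hlen ⟨m, by omega⟩
      have hd0 := hdep ⟨m, by omega⟩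
      rcases hpf ⟨m, by omega⟩ with h | ⟨ψ, hψ, σ, h⟩ | ⟨j, k, hj, hk, h⟩
      · obtain ⟨A, hA, h1⟩ := hΓ _ h
        have hAl : A.len + 1 ≤ clen As := by
          unfold clen
          exact List.le_sum_of_mem (List.mem_map.mpr ⟨A, hA, rfl⟩)
        have e2 : 6 * As.length + 6 = (2 * As.length + 1) + (4 * As.length + 5) := by ring
        rw [e2]
        refine exa_trans (exa_hyp hS he hD As hA hAs a1 (by omega)) fun l1 b1 b2 b3 => ?_
        refine exa_mono (exa_cax hS he hD As hAs b1 b3 h1 (by omega) ?_) (by omega)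
          fun _ _ h => h
        have k1 := ldep_imp (b := b) A (pf ⟨m, by omega⟩)
        have k2 := ldep_short (hAs A hA)
        omega
      · have e2 : 6 * As.length + 6 = 1 + (6 * As.length + 5) := by ring
        rw [e2]
        refine exa_trans (exa_ax a1 ⟨ψ, hψ, σ, h.symm⟩ (by omega) (by omega))
          fun l1 b1 b2 b3 => ?_
        exact exa_mono (exa_weak hS he hD As hAs b1 b3 (by omega) hd0) (by omega)
          fun _ _ h => h
      · have h1 := a3 j hj
        have h2 := a3 k hk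
        have hk1 := hdep k
        rw [h] at h2 hk1
        have hk0 := hlen k
        rw [h] at hk0
        simp only [Fm.len] at hk0
        exact exa_mono (exa_cmp hS he hD As hAs a1 h1 h2 (by omega) hk1) (by omega)
          fun _ _ h => h
    refine exa_mono hnew le_rfl fun l' hll h i hi => ?_
    rcases Nat.lt_succ_iff_lt_or_eq.mp hi with h1 | h1
    · exact hll (a3 i h1)
    · have : i = ⟨m, by omega⟩ := Fin.ext h1
      rw [this]; exact h

/-- the balanced conjunction is derivable -/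
theorem exa_bigAnd (hS : Sim Sch) (he : 1 ≤ e) (hD : e + 2 ≤ D) (As : List (Fm V))
    (hAs : ∀ A ∈ As, A.len ≤ b) {c : ℕ} :
    ∀ (d : ℕ) (C : ℕ → Fm V), (∀ i, (C i).len ≤ c) →
      (∀ i, ∃ A ∈ As, ∃ ψ ∈ Sch, ∃ σ : ℕ → Fm V, ψ.bind σ = Fm.imp A (C i)) →
      ∀ l : List (Fm V), PL Sch l →
      12 * (clen As + 2 ^ d * (c + 3)) + 30 ≤ s → 2 ^ d * (c + 3) ≤ b →
      ∀ N : ℕ, 2 ^ d * (12 * As.length + 12) ≤ N + (6 * As.length + 7) →
      ExA Sch s b D N l fun l' => chain As (bigAnd d C) ∈ l' := by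
  intro d
  induction d with
  | zero =>
    intro C hc hA l hl hs hb N hN
    obtain ⟨A, hA, h1⟩ := hA 0
    have hAl : A.len + 1 ≤ clen As := by
      unfold clen
      exact List.le_sum_of_mem (List.mem_map.mpr ⟨A, hA, rfl⟩)
    have hc0 := hc 0
    rw [pow_zero, one_mul] at hs hN hb
    refine exa_mono (c := (2 * As.length + 1) + (4 * As.length + 4)) (exa_trans
      (exa_hyp hS he hD As hA hAs hl (by omega)) fun l1 b1 b2 b3 =>
        exa_cax hS he hD As hAs b1 b3 h1 (by omega) ?_)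
      (by omega) fun _ _ h => h
    have k1 := ldep_imp (b := b) A (C 0)
    have k2 := ldep_short (hAs A hA)
    have k3 : ldep b (C 0) = 0 := ldep_short (by omega)
    omega
  | succ d ih =>
    intro C hc hA l hl hs hb N hN
    have h3 : 2 ^ (d + 1) * (c + 3) = 2 ^ d * (c + 3) + 2 ^ d * (c + 3) := by ring
    have h4 : 2 ^ (d + 1) * (12 * As.length + 12)
        = 2 ^ d * (12 * As.length + 12) + 2 ^ d * (12 * As.length + 12) := by ring
    have hp : 1 * (12 * As.length + 12) ≤ 2 ^ d * (12 * As.length + 12) :=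
      Nat.mul_le_mul_right _ Nat.one_le_two_pow
    obtain ⟨R, hR⟩ : ∃ R, R = 2 ^ d * (12 * As.length + 12) := ⟨_, rfl⟩
    obtain ⟨T, hT⟩ : ∃ T, T = 2 ^ d * (c + 3) := ⟨_, rfl⟩
    have hl1 := len_bigAnd c d C hc
    have hl2 := len_bigAnd c d (fun i => C (2 ^ d + i)) fun i => hc _
    have hl3 : (bigAnd (d + 1) C).len = (bigAnd d C).len +
        ((bigAnd d fun i => C (2 ^ d + i)).len + 1) + 1 + 1 := rfl
    rw [← hT] at hl1 hl2 h3
    rw [← hR] at h4 hp
    rw [h3] at hs hb
    rw [h4] at hN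
    have k0 : ldep b (bigAnd d C) = 0 := ldep_short (by omega)
    have k0' : ldep b (bigAnd d fun i => C (2 ^ d + i)) = 0 := ldep_short (by omega)
    have k1 : ldep b (bigAnd (d + 1) C) = 0 := ldep_short (by omega)
    have k2 := ldep_imp (b := b) (bigAnd d fun i => C (2 ^ d + i)) (bigAnd (d + 1) C)
    have k3 := ldep_imp (b := b) (bigAnd d C)
      (Fm.imp (bigAnd d fun i => C (2 ^ d + i)) (bigAnd (d + 1) C))
    refine exa_mono (c := (R - (6 * As.length + 7)) + ((R - (6 * As.length + 7)) +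
      ((4 * As.length + 4) + (2 * As.length + 3)))) ?_ (by omega) fun _ _ h => h
    refine exa_trans (ih C hc hA l hl (by rw [← hT]; omega) (by rw [← hT]; omega) _
      (by rw [← hR]; omega)) fun l1 a1 a2 a3 => ?_
    refine exa_trans (ih (fun i => C (2 ^ d + i)) (fun i => hc _) (fun i => hA _) l1 a1
      (by rw [← hT]; omega) (by rw [← hT]; omega) _ (by rw [← hR]; omega))
      fun l2 b1 b2 b3 => ?_
    obtain ⟨ψ, hψ, h⟩ := hS.t6
    refine exa_trans (exa_cax hS he hD As hAs b1 (b2 a3) ⟨ψ, hψ, h (bigAnd d C)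
      (bigAnd d fun i => C (2 ^ d + i))⟩ (by simp only [Fm.len]; omega) ?_)
      fun l3 c1 c2 c3 => ?_
    · show ldep b (Fm.imp (bigAnd d C)
        (Fm.imp (bigAnd d fun i => C (2 ^ d + i)) (bigAnd (d + 1) C))) ≤ e
      omega
    · refine exa_cmp hS he hD As hAs c1 (c2 b3) c3 (by omega) ?_
      show ldep b (Fm.imp (bigAnd d fun i => C (2 ^ d + i)) (bigAnd (d + 1) C)) ≤ e
      omega

/-- from derivations of the negated conjunction to proofs of the iterated implication -/
theorem simulA (hS : Sim Sch) (he : 1 ≤ e) (As : List (Fm V)) (hAs : ∀ A ∈ As, A.len ≤ b)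
    (v0 : V) {c d s0 : ℕ} (C : ℕ → Fm V) (hc : ∀ i, (C i).len ≤ c)
    (hA : ∀ i, ∃ A ∈ As, ∃ ψ ∈ Sch, ∃ σ : ℕ → Fm V, ψ.bind σ = Fm.imp A (C i))
    {L : ℕ} (pf : Fin L → Fm V) (hpf : IsDer Sch (Set.range C) pf) (hlen : ∀ i, (pf i).len ≤ s0)
    (hdep : ∀ i, ldep b (pf i) ≤ e)
    (hfin : ∃ i, pf i = Fm.neg (bigAnd d C)) (hb : 2 ^ d * (c + 3) ≤ b) (hb4 : 4 ≤ b)
    (hs : 12 * (clen As + s0 + 2 ^ d * (c + 3)) + 60 ≤ s) :
    ∃ (L' : ℕ) (pf' : Fin L' → Fm V), L' ≤ (L + 2 * 2 ^ d + 2) * (6 * As.length + 7) ∧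
      IsProof Sch pf' ∧ (∀ i, (pf' i).len ≤ s ∧ ldep b (pf' i) ≤ e + 2) ∧
      ∃ i, pf' i = As.foldr Fm.imp (bot v0) := by
  have hl1 := len_bigAnd c d C hc
  have h2d : 1 * (c + 3) ≤ 2 ^ d * (c + 3) := Nat.mul_le_mul_right _ Nat.one_le_two_pow
  have k0 : ldep b (bigAnd d C) = 0 := ldep_short (by omega)
  have k1 : ldep b (Fm.neg (bigAnd d C)) = 0 := ldep_short (by simp only [Fm.len]; omega)
  have k2 : ldep b (bot v0) = 0 := ldep_short (by rw [len_bot]; omega)
  have k3 := ldep_imp (b := b) (bigAnd d C) (bot v0)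
  have k4 := ldep_imp (b := b) (Fm.neg (bigAnd d C)) (Fm.imp (bigAnd d C) (bot v0))
  have h1 : ExA Sch s b (e + 2) (L * (6 * As.length + 6) + (2 ^ d * (12 * As.length + 12) +
      ((4 * As.length + 4) + (2 * As.length + 3)))) ([] : List (Fm V)) fun l' =>
      chain As (bot v0) ∈ l' := by
    refine exa_trans (exa_der hS he le_rfl As hAs (Set.range C) (fun B hB => by
      obtain ⟨i, rfl⟩ := hB
      exact hA i) pf hpf hlen hdep (by omega) L le_rfl) fun l1 a1 a2 a3 => ?_
    refine exa_trans (exa_bigAnd hS he le_rfl As hAs d C hc hA l1 a1 (by omega) hb _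
      (by omega)) fun l2 b1 b2 b3 => ?_
    obtain ⟨i, hi⟩ := hfin
    have h2 := b2 (a3 i i.isLt)
    rw [hi] at h2
    obtain ⟨ψ, hψ, h⟩ := hS.t5
    refine exa_trans (exa_cax hS he le_rfl As hAs b1 h2 ⟨ψ, hψ, h (bigAnd d C) (bot v0)⟩
      (by simp only [Fm.len, len_bot]; omega) (by omega)) fun l3 c1 c2 c3 => ?_
    exact exa_cmp hS he le_rfl As hAs c1 (c2 b3) c3 (by simp only [len_bot]; omega) (by omega)
  obtain ⟨l', d1, -, d3, d4, d5⟩ := h1
  obtain ⟨pf', e1, e2, e3⟩ := d1.toProof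
  refine ⟨l'.length, pf', ?_, e1, fun i => ?_, e3 _ d5⟩
  · refine d3.trans ?_
    simp only [List.length_nil, zero_add]
    have : (L + 2 * 2 ^ d + 2) * (6 * As.length + 7) = L * (6 * As.length + 6) + L +
      (2 ^ d * (12 * As.length + 12) + 2 * 2 ^ d) + 2 * (6 * As.length + 7) := by ring
    omega
  · rcases d4 _ (e2 i) with h | h
    · simp at h
    · exact h

end Main

end Pool.Agent.H3.Ac
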