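import Mathlib
import Pool.Agent.H3.Ac.Mat

set_option autoImplicit false
set_option linter.unusedSectionVars false

/-!
# Module CNT: counting matchings

`Mtc V m`: matchings with `m` edges (`Defs`), `|V| = 2 m + ℓ`.

* `card_Mtc_succ`: double counting of the pairs `(M', e)`, `M' ∈ Mtc V (m + 1)`, `e ∈ M'`: the map
  `(M', e) ↦ (M'.erase e, e)` is injective (`M' = insert e (M'.erase e)`), `M'.erase e ∈ Mtc V m`, and `e`
  is `s(u, v)` for two vertices `u, v` uncovered by `M'.erase e` (there are `ℓ` of them by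
  `card_cov`), so for every `M` there are at most `ℓ ^ 2` edges `e`.
* `card_Mtc_add`: induction on `j`; for the step, if `2 (m + j) ≤ |V|` use `card_Mtc_succ` with
  `ℓ - 2 j` in place of `ℓ` and `m + j + 1 ≥ m + 1`, otherwise `Mtc V (m + j + 1)` is empty
  (`2 |M| = |cov M| ≤ |V|`).
* `Mtc_nonempty`: induction on `m`, the step as in `cover` (`cover` of one uncovered vertex).
-/

namespace Pool.Agent.H3.Ac

open Finset Pool.Agent.H3.Frg Pool.Agent.H3.Frg2 Pool.Agent.H3.Frg3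

variable {V : Type} [Fintype V] [DecidableEq V]

theorem mem_Mtc {m : ℕ} {M : Finset (Sym2 V)} : M ∈ Mtc V m ↔ IsM M ∧ M.card = m := by
  simp only [Mtc, mem_filter, mem_univ, true_and]

/-- the edges of two uncovered vertices -/
private def ued (_M : Finset (Sym2 V)) (U : Finset V) : Finset (Sym2 V) :=
  (U ×ˢ U).image fun p => s(p.1, p.2)

theorem card_unc {m ℓ : ℕ} (h : 2 * m + ℓ = Fintype.card V) {M : Finset (Sym2 V)}
    (hM : M ∈ Mtc V m) : (univ \ cov M).card = ℓ := by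
  obtain ⟨h1, h2⟩ := mem_Mtc.1 hM
  rw [card_univ_sdiff, card_cov h1, h2]
  omega

theorem card_Mtc_succ (m ℓ : ℕ) (h : 2 * m + ℓ = Fintype.card V) :
    (Mtc V (m + 1)).card * (m + 1) ≤ (Mtc V m).card * ℓ ^ 2 := by
  let S : Finset ((_ : Finset (Sym2 V)) × Sym2 V) := (Mtc V (m + 1)).sigma fun M => M
  let T : Finset ((_ : Finset (Sym2 V)) × Sym2 V) :=
    (Mtc V m).sigma fun M => ued M (univ \ cov M)
  have hS : S.card = (Mtc V (m + 1)).card * (m + 1) := by
    rw [card_sigma, sum_congr rfl fun M hM => (mem_Mtc.1 hM).2, sum_const, smul_eq_mul]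
  have hT : T.card ≤ (Mtc V m).card * ℓ ^ 2 := by
    rw [card_sigma, ← smul_eq_mul, ← sum_const]
    refine sum_le_sum fun M hM => ?_
    refine card_image_le.trans ?_
    rw [card_product, card_unc h hM, sq]
  rw [← hS]
  refine le_trans ?_ hT
  refine card_le_card_of_injOn (fun p => ⟨p.1.erase p.2, p.2⟩) ?_ ?_
  · rintro ⟨M, e⟩ hp
    rw [mem_coe, mem_sigma] at hp
    obtain ⟨hM, he⟩ := hp
    simp only at hM he
    obtain ⟨h1, h2⟩ := mem_Mtc.1 hM
    rw [mem_coe, mem_sigma]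
    refine ⟨mem_Mtc.2 ⟨isM_sub h1 (erase_subset _ _), ?_⟩, ?_⟩
    · rw [card_erase_of_mem he, h2]
      rfl
    · have hunc : ∀ v ∈ e, v ∈ univ \ cov (M.erase e) := by
        intro v hv
        rw [mem_sdiff]
        refine ⟨mem_univ _, fun hc => ?_⟩
        obtain ⟨f, hf, hvf⟩ := mem_cov.1 hc
        rw [mem_erase] at hf
        exact hf.1 (h1.2 f hf.2 e he v hvf hv)
      show e ∈ ued (M.erase e) (univ \ cov (M.erase e))
      induction e using Sym2.ind with
      | _ u v =>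
        refine mem_image.2 ⟨(u, v), ?_, rfl⟩
        rw [mem_product]
        exact ⟨hunc u (Sym2.mem_mk_left u v), hunc v (Sym2.mem_mk_right u v)⟩
  · rintro ⟨M, e⟩ hp ⟨M', e'⟩ hp' heq
    rw [mem_coe, mem_sigma] at hp hp'
    simp only [Sigma.mk.injEq] at heq
    obtain ⟨h1, h2⟩ := heq
    have h2' : e = e' := eq_of_heq h2
    subst h2'
    have ha : e ∈ M := hp.2
    have hb : e ∈ M' := hp'.2
    have h3 : M = M' := by
      rw [← insert_erase ha, ← insert_erase hb]
      exact congrArg (insert e) h1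
    rw [h3]

theorem card_Mtc_add (m ℓ : ℕ) (h : 2 * m + ℓ = Fintype.card V) (j : ℕ) :
    ((Mtc V (m + j)).card : ℝ) ≤ (Mtc V m).card * ((ℓ : ℝ) ^ 2 / (m + 1)) ^ j := by
  induction j with
  | zero => simp
  | succ j ih =>
    have h0 : (0 : ℝ) ≤ (ℓ : ℝ) ^ 2 / (m + 1) := by positivity
    by_cases hc : 2 * (m + j) ≤ Fintype.card V
    · have h1 := card_Mtc_succ (V := V) (m + j) (ℓ - 2 * j) (by omega)
      have h2 : ((Mtc V (m + j + 1)).card : ℝ) * (m + 1) ≤ (Mtc V (m + j)).card * (ℓ : ℝ) ^ 2 := by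
        have h3 : (Mtc V (m + j + 1)).card * (m + 1) ≤ (Mtc V (m + j)).card * ℓ ^ 2 := by
          calc (Mtc V (m + j + 1)).card * (m + 1) ≤ (Mtc V (m + j + 1)).card * (m + j + 1) :=
                Nat.mul_le_mul_left _ (by omega)
            _ ≤ (Mtc V (m + j)).card * (ℓ - 2 * j) ^ 2 := h1
            _ ≤ (Mtc V (m + j)).card * ℓ ^ 2 :=
                Nat.mul_le_mul_left _ (Nat.pow_le_pow_left (Nat.sub_le _ _) 2)
        exact_mod_cast h3
      have hm : (0 : ℝ) < (m : ℝ) + 1 := by positivity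
      calc ((Mtc V (m + (j + 1))).card : ℝ) ≤ (Mtc V (m + j)).card * (ℓ : ℝ) ^ 2 / (m + 1) := by
            rw [le_div_iff₀ hm]
            exact h2
        _ = (Mtc V (m + j)).card * ((ℓ : ℝ) ^ 2 / (m + 1)) := by rw [mul_div_assoc]
        _ ≤ ((Mtc V m).card * ((ℓ : ℝ) ^ 2 / (m + 1)) ^ j) * ((ℓ : ℝ) ^ 2 / (m + 1)) :=
            mul_le_mul_of_nonneg_right ih h0
        _ = (Mtc V m).card * ((ℓ : ℝ) ^ 2 / (m + 1)) ^ (j + 1) := by ring
    · have h1 : Mtc V (m + (j + 1)) = ∅ := by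
        rw [eq_empty_iff_forall_notMem]
        intro M hM
        obtain ⟨h2, h3⟩ := mem_Mtc.1 hM
        have h4 := card_cov h2
        have h5 : (cov M).card ≤ Fintype.card V := card_le_univ _
        omega
      rw [h1, card_empty, Nat.cast_zero]
      positivity

theorem Mtc_nonempty (m : ℕ) (h : 2 * m ≤ Fintype.card V) : (Mtc V m).Nonempty := by
  induction m with
  | zero => exact ⟨∅, mem_Mtc.2 ⟨isM_empty, card_empty⟩⟩
  | succ m ih =>
    obtain ⟨M, hM⟩ := ih (by omega)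
    have h1 : 2 * m + (Fintype.card V - 2 * m) = Fintype.card V := by omega
    have h2 := card_unc h1 hM
    obtain ⟨h3, h4⟩ := mem_Mtc.1 hM
    have h5 : 1 < (univ \ cov M).card := by omega
    obtain ⟨u, hu, v, hv, huv⟩ := one_lt_card.1 h5
    rw [mem_sdiff] at hu hv
    obtain ⟨h6, -, h8⟩ := isM_insert h3 huv hu.2 hv.2
    exact ⟨_, mem_Mtc.2 ⟨h6, by rw [h8, h4]⟩⟩

end Pool.Agent.H3.Ac
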