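import Mathlib
import Pool.Agent.H3.Ac.Mat

set_option autoImplicit false
set_option linter.unusedSectionVars false

/-!
# Module COV: a bad base can be decoded

If the canonical process from `ρ` reaches `π`, with terms `t_1, …, t_r` and matchings
`ρ = π_0 ⊂ π_1 ⊂ … ⊂ π_r = π`, put `σ_i = t_i \ π_(i-1)`, `δ_i = π_i \ π_(i-1)`. Then
`μ = ρ ∪ σ_1 ∪ … ∪ σ_r` is a matching with `|μ| = |ρ| + j`, `j = ∑ |σ_i|`, `|π| ≤ |ρ| + 2 j`, and
`DecR F j μ ∅ ρ`.

`dec_of_reach`: induction on the path from its head (`Relation.ReflTransGen.head_induction_on`):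
for a path from `π` to `πe`, for every `ρ ⊆ π`, with `θ = π \ ρ`, there are `j` and `ς` with
`IsM (π ∪ ς)`, `Disjoint (cov π) (cov ς)`, `ς.card = j`, `πe.card ≤ π.card + 2 * j` and
`DecR F j (π ∪ ς) (π \ ρ) ρ`.
* no step: `j = 0`, `ς = ∅`, `π \ (π \ ρ) = ρ`.
* step `π → π'` with term `t`, then a path from `π'`: induction hypothesis for `π'` gives `j', ς'`. Let
  `σ = t \ π` (nonempty), `δ = π' \ π`, `ς = σ ∪ ς'`, `j = j' + |σ|`. Since `t ∪ π` is a matching, `cov σ` is
  disjoint from `cov π`; `cov σ ⊆ cov t ⊆ cov π'` is disjoint from `cov ς'`. So `μ = π ∪ σ ∪ ς'` is a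
  matching. `fst F μ = some t`: `t ∪ μ = μ` is a matching; the terms before `t` in the list are not
  compatible with `π ⊆ μ`, so not with `μ` (`isM_sub`). `μ \ σ = π ∪ ς'`, `(μ \ σ) ∪ δ = π' ∪ ς'`,
  `(π \ ρ) ∪ δ = π' \ ρ`, `Disjoint (π ∪ ς') δ` (an edge of `δ ⊆ π'` is not in `π` and not in `ς'`: its
  vertices are covered by `π'`). `cov σ ⊆ cov δ`: these vertices are covered by `π'`, not by `π`. Every
  edge of `δ` touches `cov t`, its vertices are not covered by `π` (`π'` is a matching), and a vertex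
  of `cov t` not covered by `π` is in `cov σ`. `|δ| ≤ |cov σ| = 2 |σ|`: every edge of `δ` has a vertex in
  `cov σ` and the edges are disjoint; so `|π'| ≤ |π| + 2 |σ|`.
-/

namespace Pool.Agent.H3.Ac

open Finset Pool.Agent.H3.Frg Pool.Agent.H3.Frg2 Pool.Agent.H3.Frg3

variable {V : Type} [Fintype V] [DecidableEq V]

theorem cv_disj_of_isM {M A B : Finset (Sym2 V)} (hM : IsM M) (hA : A ⊆ M) (hB : B ⊆ M)
    (h : Disjoint A B) : Disjoint (cov A) (cov B) := by
  rw [Finset.disjoint_left]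
  intro v hv hv'
  obtain ⟨e, he, hve⟩ := mem_cov.1 hv
  obtain ⟨f, hf, hvf⟩ := mem_cov.1 hv'
  have hef := hM.2 e (hA he) f (hB hf) v hve hvf
  rw [hef] at he
  exact Finset.disjoint_left.1 h he hf

theorem cv_disj_of_cov {A B : Finset (Sym2 V)} (h : Disjoint (cov A) (cov B)) :
    Disjoint A B := by
  rw [Finset.disjoint_left]
  intro e he he'
  induction e using Sym2.inductionOn with
  | _ a b =>
    exact Finset.disjoint_left.1 h (mem_cov.2 ⟨_, he, Sym2.mem_mk_left a b⟩)
      (mem_cov.2 ⟨_, he', Sym2.mem_mk_left a b⟩)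

theorem cv_fst_cmp {F : List (Finset (Sym2 V))} {π t : Finset (Sym2 V)} (h : fst F π = some t) :
    Cmp t π := by
  unfold fst at h
  have h1 := List.find?_some h
  simpa using h1

open scoped Classical in
theorem cv_fst_mono {F : List (Finset (Sym2 V))} {π μ t : Finset (Sym2 V)} (h : fst F π = some t)
    (hs : π ⊆ μ) (ht : Cmp t μ) : fst F μ = some t := by
  unfold fst at h ⊢
  induction F with
  | nil => simp at h
  | cons a F ih =>
    rw [List.find?_cons] at h ⊢
    by_cases ha : Cmp a π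
    · rw [decide_eq_true ha] at h
      have h1 : a = t := by simpa using h
      subst h1
      rw [decide_eq_true ht]
    · have ha' : ¬ Cmp a μ := fun hc => ha (isM_sub hc (Finset.union_subset_union_right hs))
      rw [decide_eq_false ha] at h
      rw [decide_eq_false ha']
      exact ih h

theorem dec_of_reach (F : List (Finset (Sym2 V))) {π πe : Finset (Sym2 V)}
    (h : Relation.ReflTransGen (Stp F) π πe) (hπ : IsM π) : ∀ ρ, ρ ⊆ π →
    ∃ (j : ℕ) (ς : Finset (Sym2 V)), IsM (π ∪ ς) ∧ Disjoint (cov π) (cov ς) ∧ ς.card = j ∧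
      πe.card ≤ π.card + 2 * j ∧ DecR F j (π ∪ ς) (π \ ρ) ρ := by
  induction h using Relation.ReflTransGen.head_induction_on with
  | refl =>
    intro ρ hρ
    refine ⟨0, ∅, ?_, ?_, Finset.card_empty, by omega, ?_⟩
    · rw [Finset.union_empty]
      exact hπ
    · rw [Finset.disjoint_left]
      intro v _ hv
      obtain ⟨e, he, -⟩ := mem_cov.1 hv
      exact absurd he (Finset.notMem_empty e)
    · have h1 := DecR.nil (F := F) (πe ∪ ∅) (πe \ ρ)
      have h2 : (πe ∪ ∅) \ (πe \ ρ) = ρ := by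
        rw [Finset.union_empty, Finset.sdiff_sdiff_eq_self hρ]
      rwa [h2] at h1
  | @head π π' hstep _ ih =>
    intro ρ hρ
    obtain ⟨t, hfst, hnt, hM', hππ', hct, htouch⟩ := hstep
    obtain ⟨j', ς', hI1, hI2, hI3, hI4, hI5⟩ := ih hM' ρ (hρ.trans hππ')
    have hcmp : IsM (t ∪ π) := cv_fst_cmp hfst
    have hσt : t \ π ⊆ t := Finset.sdiff_subset
    have ha : Disjoint (cov π) (cov (t \ π)) :=
      cv_disj_of_isM hcmp Finset.subset_union_right
        (hσt.trans Finset.subset_union_left) Finset.disjoint_sdiff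
    have hb : Disjoint (cov (t \ π)) (cov ς') :=
      Finset.disjoint_of_subset_left ((cov_mono hσt).trans hct) hI2
    have hc : Disjoint (cov π) (cov ς') := Finset.disjoint_of_subset_left (cov_mono hππ') hI2
    have hς' : IsM ς' := isM_sub hI1 Finset.subset_union_right
    have hσM : IsM (t \ π) := isM_sub hcmp (hσt.trans Finset.subset_union_left)
    have hσς : IsM ((t \ π) ∪ ς') := isM_union hσM hς' hb
    have hd : Disjoint (cov π) (cov ((t \ π) ∪ ς')) := by
      rw [cov_union, Finset.disjoint_union_right]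
      exact ⟨ha, hc⟩
    have hμ : IsM (π ∪ ((t \ π) ∪ ς')) := isM_union hπ hσς hd
    have dσς : Disjoint (t \ π) ς' := cv_disj_of_cov hb
    have dπς : Disjoint π ς' := cv_disj_of_cov hc
    have dπ'ς : Disjoint π' ς' := cv_disj_of_cov hI2
    have hcard : ((t \ π) ∪ ς').card = j' + (t \ π).card := by
      rw [Finset.card_union_of_disjoint dσς, hI3, add_comm]
    have hcovδ : ∀ e ∈ π' \ π, ∃ v ∈ e, v ∈ cov (t \ π) := by
      intro e he
      rw [Finset.mem_sdiff] at he
      obtain ⟨v, hve, hvt⟩ := htouch e he.1 he.2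
      obtain ⟨f, hf, hvf⟩ := mem_cov.1 hvt
      refine ⟨v, hve, mem_cov.2 ⟨f, ?_, hvf⟩⟩
      rw [Finset.mem_sdiff]
      refine ⟨hf, fun hfπ => he.2 ?_⟩
      rw [hM'.2 e he.1 f (hππ' hfπ) v hve hvf]
      exact hfπ
    have hδ : (π' \ π).card ≤ 2 * (t \ π).card := by
      rw [← card_cov hσM]
      refine Finset.card_le_card_of_forall_subsingleton (fun e v => v ∈ e) ?_ ?_
      · intro e he
        obtain ⟨v, hve, hv⟩ := hcovδ e he
        exact ⟨v, hv, hve⟩
      · intro v _ e he f hf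
        exact hM'.2 e (Finset.mem_sdiff.1 he.1).1 f (Finset.mem_sdiff.1 hf.1).1 v he.2 hf.2
    have hπ'card : π'.card = π.card + (π' \ π).card := by
      rw [Finset.card_sdiff_of_subset hππ']
      have := Finset.card_le_card hππ'
      omega
    have e1 : (π ∪ ((t \ π) ∪ ς')) \ (t \ π) = π ∪ ς' := by
      ext e
      have h1 : e ∈ ς' → e ∉ t \ π := fun h2 h3 => Finset.disjoint_left.1 dσς h3 h2
      simp only [Finset.mem_sdiff, Finset.mem_union] at h1 ⊢
      tauto
    have e2 : (π ∪ ς') ∪ (π' \ π) = π' ∪ ς' := by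
      ext e
      have h1 : e ∈ π → e ∈ π' := fun h2 => hππ' h2
      simp only [Finset.mem_sdiff, Finset.mem_union]
      tauto
    have e3 : (π \ ρ) ∪ (π' \ π) = π' \ ρ := by
      ext e
      have h1 : e ∈ π → e ∈ π' := fun h2 => hππ' h2
      have h2 : e ∈ ρ → e ∈ π := fun h2 => hρ h2
      simp only [Finset.mem_sdiff, Finset.mem_union]
      tauto
    refine ⟨j' + (t \ π).card, (t \ π) ∪ ς', hμ, hd, hcard, by omega, ?_⟩
    refine DecR.cons j' _ (π \ ρ) ρ t (t \ π) (π' \ π) ?_ hσt ?_ ?_ ?_ ?_ ?_ hcovδ ?_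
    · refine cv_fst_mono hfst Finset.subset_union_left ?_
      have h1 : t ∪ (π ∪ ((t \ π) ∪ ς')) = π ∪ ((t \ π) ∪ ς') := by
        ext e
        simp only [Finset.mem_sdiff, Finset.mem_union]
        tauto
      unfold Cmp
      rw [h1]
      exact hμ
    · exact Finset.subset_union_left.trans Finset.subset_union_right
    · rw [Finset.sdiff_nonempty]
      exact hnt
    · rw [e1, e2]
      exact hI1
    · rw [e1, Finset.disjoint_union_left]
      exact ⟨Finset.disjoint_sdiff, (Finset.disjoint_of_subset_left Finset.sdiff_subset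
        dπ'ς).symm⟩
    · intro v hv
      obtain ⟨e, he, hve⟩ := mem_cov.1 (hct (cov_mono hσt hv))
      refine mem_cov.2 ⟨e, Finset.mem_sdiff.2 ⟨he, fun heπ => ?_⟩, hve⟩
      exact Finset.disjoint_left.1 ha (mem_cov.2 ⟨e, heπ, hve⟩) hv
    · rw [e1, e2, e3]
      exact hI5

theorem bad_dec (F : List (Finset (Sym2 V))) (k : ℕ) {ρ : Finset (Sym2 V)} (hρ : IsM ρ)
    (hbad : Bad F k ρ) :
    ∃ (j : ℕ) (μ : Finset (Sym2 V)), k < 2 * j ∧ IsM μ ∧ μ.card = ρ.card + j ∧
      DecR F j μ ∅ ρ := by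
  obtain ⟨π, h1, h2⟩ := hbad
  obtain ⟨j, ς, h3, h4, h5, h6, h7⟩ := dec_of_reach F h1 hρ ρ (Finset.Subset.refl ρ)
  refine ⟨j, ρ ∪ ς, by omega, h3, ?_, ?_⟩
  · rw [Finset.card_union_of_disjoint (cv_disj_of_cov h4), h5]
  · rwa [Finset.sdiff_self] at h7

end Pool.Agent.H3.Ac
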