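import Mathlib
import Pool.Agent.H3.Ac.Cnt
import Pool.Agent.H3.Ac.Dec
import Pool.Agent.H3.Ac.Cov

set_option autoImplicit false
set_option linter.unusedSectionVars false

/-!
# Module SW: the switching lemma

Let `|V| = 2 m + ℓ`, `8 w ℓ^4 ≤ m + 1`. For one list `F` the number of bad `ρ ∈ Mtc V m` is at most
`∑_j ∑_{μ ∈ Mtc V (m + j)} #{ρ | DecR F j μ ∅ ρ}`, sum over `j` with `k < 2 j` and `j ≤ |V|` (`bad_dec`;
`2 |μ| ≤ |V|`), which by `card_DecR` (`|V| + 2 j = 2 (m + j) + ℓ`) and `card_Mtc_add` is at most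
`|Mtc V m| ∑_j (2 w ℓ^2 * ℓ^2 / (m + 1))^j ≤ |Mtc V m| ∑_{k < 2 j} 4^(-j) ≤ |Mtc V m| * 2^(-k)`
(with `j0 = k / 2 + 1` the sum is at most `(4/3) 4^(-j0) ≤ (4/3) 2^(-(k+1)) < 2^(-k)`; if `w = 0` all
terms vanish). So all the bad sets together have fewer than `|Mtc V m|` elements if there are at most
`2 ^ k` lists.
-/

namespace Pool.Agent.H3.Ac

open Finset Pool.Agent.H3.Frg Pool.Agent.H3.Frg2 Pool.Agent.H3.Frg3

variable {V : Type} [Fintype V] [DecidableEq V]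

open scoped Classical in
theorem card_bad_le (w ℓ k m : ℕ) (hn : 2 * m + ℓ = Fintype.card V)
    (hw : 8 * w * ℓ ^ 4 ≤ m + 1) (F : List (Finset (Sym2 V)))
    (hF : ∀ t ∈ F, IsM t ∧ t.card ≤ w) :
    (((Mtc V m).filter fun ρ => Bad F k ρ).card : ℝ) * (3 * 2 ^ k) ≤ 2 * (Mtc V m).card := by
  have hm : (0 : ℝ) < (m : ℝ) + 1 := by positivity
  -- the union
  have hsub : ((Mtc V m).filter fun ρ => Bad F k ρ) ⊆
      (Ico (k / 2 + 1) (Fintype.card V + 1)).biUnion fun j => (Mtc V (m + j)).biUnion fun μ =>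
        univ.filter fun ρ => DecR F j μ ∅ ρ := by
    intro ρ hρ
    rw [mem_filter] at hρ
    obtain ⟨h1, h2⟩ := mem_Mtc.1 hρ.1
    obtain ⟨j, μ, h3, h4, h5, h6⟩ := bad_dec F k h1 hρ.2
    have h7 := card_cov h4
    have h8 : (cov μ).card ≤ Fintype.card V := card_le_univ _
    rw [mem_biUnion]
    refine ⟨j, mem_Ico.2 ⟨by omega, by omega⟩, ?_⟩
    rw [mem_biUnion]
    refine ⟨μ, mem_Mtc.2 ⟨h4, by rw [h5, h2]⟩, ?_⟩
    rw [mem_filter]
    exact ⟨mem_univ _, h6⟩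
  have h1 : ((Mtc V m).filter fun ρ => Bad F k ρ).card ≤
      ∑ j ∈ Ico (k / 2 + 1) (Fintype.card V + 1), (Mtc V (m + j)).card * (2 * w * ℓ ^ 2) ^ j := by
    refine (card_le_card hsub).trans (card_biUnion_le.trans (sum_le_sum fun j _ => ?_))
    refine card_biUnion_le.trans ?_
    rw [← smul_eq_mul, ← sum_const]
    refine sum_le_sum fun μ hμ => ?_
    obtain ⟨h2, h3⟩ := mem_Mtc.1 hμ
    have h4 := card_DecR F w ℓ hF j μ ∅ h2 (by omega)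
    convert h4
  have hx : (2 * w * (ℓ : ℝ) ^ 2) * ((ℓ : ℝ) ^ 2 / (m + 1)) ≤ 1 / 4 := by
    have h2 : (8 : ℝ) * w * (ℓ : ℝ) ^ 4 ≤ m + 1 := by exact_mod_cast hw
    rw [← mul_div_assoc, div_le_iff₀ hm]
    have h3 : 2 * (w : ℝ) * (ℓ : ℝ) ^ 2 * (ℓ : ℝ) ^ 2 = (1 / 4) * (8 * w * (ℓ : ℝ) ^ 4) := by ring
    rw [h3]
    linarith
  have hx0 : (0 : ℝ) ≤ (2 * w * (ℓ : ℝ) ^ 2) * ((ℓ : ℝ) ^ 2 / (m + 1)) := by positivity
  have h2 : (((Mtc V m).filter fun ρ => Bad F k ρ).card : ℝ) ≤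
      (Mtc V m).card * ∑ j ∈ Ico (k / 2 + 1) (Fintype.card V + 1), (1 / 4 : ℝ) ^ j := by
    have h3 : (((Mtc V m).filter fun ρ => Bad F k ρ).card : ℝ) ≤
        ∑ j ∈ Ico (k / 2 + 1) (Fintype.card V + 1),
          ((Mtc V (m + j)).card : ℝ) * (2 * w * (ℓ : ℝ) ^ 2) ^ j := by
      exact_mod_cast h1
    refine h3.trans ?_
    rw [mul_sum]
    refine sum_le_sum fun j _ => ?_
    calc ((Mtc V (m + j)).card : ℝ) * (2 * w * (ℓ : ℝ) ^ 2) ^ j ≤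
          ((Mtc V m).card * ((ℓ : ℝ) ^ 2 / (m + 1)) ^ j) * (2 * w * (ℓ : ℝ) ^ 2) ^ j :=
          mul_le_mul_of_nonneg_right (card_Mtc_add m ℓ hn j) (by positivity)
      _ = (Mtc V m).card * ((2 * w * (ℓ : ℝ) ^ 2) * ((ℓ : ℝ) ^ 2 / (m + 1))) ^ j := by
          rw [mul_pow]
          ring
      _ ≤ (Mtc V m).card * (1 / 4 : ℝ) ^ j :=
          mul_le_mul_of_nonneg_left (pow_le_pow_left₀ hx0 hx j) (by positivity)
  have h3 : ∑ j ∈ Ico (k / 2 + 1) (Fintype.card V + 1), (1 / 4 : ℝ) ^ j ≤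
      (1 / 4 : ℝ) ^ (k / 2 + 1) / (1 - 1 / 4) :=
    geom_sum_Ico_le_of_lt_one (by norm_num) (by norm_num)
  have h4 : (1 / 4 : ℝ) ^ (k / 2 + 1) * 2 ^ (k + 1) ≤ 1 := by
    have h5 : (2 : ℝ) ^ (k + 1) ≤ 4 ^ (k / 2 + 1) := by
      have h6 : (4 : ℝ) ^ (k / 2 + 1) = 2 ^ (2 * (k / 2 + 1)) := by
        rw [pow_mul]
        norm_num
      rw [h6]
      exact pow_le_pow_right₀ (by norm_num) (by omega)
    have h7 : (0 : ℝ) < 4 ^ (k / 2 + 1) := by positivity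
    rw [one_div, inv_pow, inv_mul_le_iff₀ h7, mul_one]
    exact h5
  have hc0 : (0 : ℝ) ≤ (Mtc V m).card := Nat.cast_nonneg _
  have h5 : (((Mtc V m).filter fun ρ => Bad F k ρ).card : ℝ) ≤
      (Mtc V m).card * ((1 / 4 : ℝ) ^ (k / 2 + 1) / (1 - 1 / 4)) :=
    h2.trans (mul_le_mul_of_nonneg_left h3 hc0)
  calc (((Mtc V m).filter fun ρ => Bad F k ρ).card : ℝ) * (3 * 2 ^ k) ≤
        ((Mtc V m).card * ((1 / 4 : ℝ) ^ (k / 2 + 1) / (1 - 1 / 4))) * (3 * 2 ^ k) :=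
        mul_le_mul_of_nonneg_right h5 (by positivity)
    _ = 2 * ((Mtc V m).card * ((1 / 4 : ℝ) ^ (k / 2 + 1) * 2 ^ (k + 1))) := by
        rw [pow_succ 2 k]
        ring
    _ ≤ 2 * ((Mtc V m).card * 1) := by gcongr
    _ = 2 * (Mtc V m).card := by rw [mul_one]

/-- the switching lemma, in the form of the existence of a good base for at most `2 ^ k` lists -/
theorem exists_good {ι : Type} [Fintype ι] (w ℓ k m : ℕ) (hn : 2 * m + ℓ = Fintype.card V)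
    (hw : 8 * w * ℓ ^ 4 ≤ m + 1) (F : ι → List (Finset (Sym2 V)))
    (hF : ∀ i, ∀ t ∈ F i, IsM t ∧ t.card ≤ w) (hι : Fintype.card ι ≤ 2 ^ k) :
    ∃ ρ, IsM ρ ∧ ρ.card = m ∧ ∀ i, ¬ Bad (F i) k ρ := by
  classical
  by_contra hcon
  push Not at hcon
  have h1 : Mtc V m ⊆ univ.biUnion fun i => (Mtc V m).filter fun ρ => Bad (F i) k ρ := by
    intro ρ hρ
    obtain ⟨h2, h3⟩ := mem_Mtc.1 hρ
    obtain ⟨i, hi⟩ := hcon ρ h2 h3
    rw [mem_biUnion]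
    exact ⟨i, mem_univ _, mem_filter.2 ⟨hρ, hi⟩⟩
  have h2 : (Mtc V m).card ≤ ∑ i, ((Mtc V m).filter fun ρ => Bad (F i) k ρ).card :=
    (card_le_card h1).trans card_biUnion_le
  have h3 : ((Mtc V m).card : ℝ) * (3 * 2 ^ k) ≤ Fintype.card ι * (2 * (Mtc V m).card) := by
    have h4 : ((Mtc V m).card : ℝ) ≤
        ∑ i, (((Mtc V m).filter fun ρ => Bad (F i) k ρ).card : ℝ) := by exact_mod_cast h2
    calc ((Mtc V m).card : ℝ) * (3 * 2 ^ k) ≤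
          (∑ i, (((Mtc V m).filter fun ρ => Bad (F i) k ρ).card : ℝ)) * (3 * 2 ^ k) :=
          mul_le_mul_of_nonneg_right h4 (by positivity)
      _ = ∑ i, (((Mtc V m).filter fun ρ => Bad (F i) k ρ).card : ℝ) * (3 * 2 ^ k) := by
          rw [sum_mul]
      _ ≤ ∑ _i : ι, 2 * ((Mtc V m).card : ℝ) := by
          refine sum_le_sum fun i _ => ?_
          have h5 := card_bad_le w ℓ k m hn hw (F i) (hF i)
          convert h5
      _ = Fintype.card ι * (2 * (Mtc V m).card) := by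
          rw [sum_const, card_univ, nsmul_eq_mul]
  have h4 : (0 : ℝ) < (Mtc V m).card := by
    exact_mod_cast card_pos.2 (Mtc_nonempty m (by omega))
  have h5 : (Fintype.card ι : ℝ) ≤ 2 ^ k := by exact_mod_cast hι
  have h6 : (0 : ℝ) < 2 ^ k := by positivity
  have h7 : (Fintype.card ι : ℝ) * (2 * (Mtc V m).card) ≤ 2 ^ k * (2 * (Mtc V m).card) :=
    mul_le_mul_of_nonneg_right h5 (by positivity)
  nlinarith [mul_pos h4 h6]

end Pool.Agent.H3.Ac
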