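import Mathlib
import Pool.Agent.H3.Ac.Mat

set_option autoImplicit false
set_option linter.unusedSectionVars false

/-!
# Module WOR: matchings of the uncovered vertices

`Unc ρ`: vertices not covered by `ρ`. `lft ρ M = ρ ∪ M` (edges of `Unc ρ` mapped to edges of `V` by
`Sym2.map Subtype.val`, injective), `rst ρ N`: the edges `e` of `Unc ρ` with `Sym2.map val e ∈ N`.
All statements are direct: an edge of `ρ` has both vertices in `cov ρ`, an image edge has no vertex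
in `cov ρ`; an edge of a matching `N ⊇ ρ` that is not in `ρ` has no vertex in `cov ρ`.
-/

namespace Pool.Agent.H3.Ac

open Finset Pool.Agent.H3.Frg Pool.Agent.H3.Frg2 Pool.Agent.H3.Frg3

variable {V : Type} [Fintype V] [DecidableEq V] {ρ : Finset (Sym2 V)}

theorem wor_notin (ρ : Finset (Sym2 V)) (e : Sym2 (Unc ρ)) : Sym2.map Subtype.val e ∉ ρ := by
  induction e with
  | _ a b =>
    intro h
    rw [Sym2.map_mk] at h
    exact a.2 (mem_cov.2 ⟨_, h, Sym2.mem_mk_left _ _⟩)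

theorem wor_mem {M : Finset (Sym2 (Unc ρ))} {e : Sym2 V} :
    e ∈ lft ρ M ↔ e ∈ ρ ∨ ∃ f ∈ M, Sym2.map Subtype.val f = e := by
  unfold lft
  rw [Finset.mem_union, Finset.mem_image]

theorem wor_inj (ρ : Finset (Sym2 V)) :
    Function.Injective (Sym2.map (Subtype.val : Unc ρ → V)) :=
  Sym2.map.injective Subtype.val_injective

theorem wor_rst {N : Finset (Sym2 V)} {e : Sym2 (Unc ρ)} :
    e ∈ rst ρ N ↔ Sym2.map Subtype.val e ∈ N := by
  unfold rst
  rw [Finset.mem_filter]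
  exact ⟨fun h => h.2, fun h => ⟨Finset.mem_univ _, h⟩⟩

theorem card_Unc (hρ : IsM ρ) : 2 * ρ.card + Fintype.card (Unc ρ) = Fintype.card V := by
  rw [← card_cov hρ, Fintype.card_subtype]
  have h : (univ.filter fun v => v ∉ cov ρ) = (cov ρ)ᶜ := by
    ext v
    simp
  rw [h, Finset.card_compl]
  have := Finset.card_le_univ (cov ρ)
  omega

theorem sub_lft (M : Finset (Sym2 (Unc ρ))) : ρ ⊆ lft ρ M := by
  intro e he
  exact wor_mem.2 (Or.inl he)

theorem isM_lft (hρ : IsM ρ) {M : Finset (Sym2 (Unc ρ))} (hM : IsM M) : IsM (lft ρ M) := by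
  constructor
  · intro e he
    rcases wor_mem.1 he with h | ⟨f, hf, rfl⟩
    · exact hρ.1 e h
    · intro h
      exact hM.1 f hf ((Sym2.isDiag_map Subtype.val_injective).1 h)
  · intro e he f hf v hve hvf
    rcases wor_mem.1 he with h | ⟨e', he', rfl⟩
    · rcases wor_mem.1 hf with h' | ⟨f', hf', rfl⟩
      · exact hρ.2 e h f h' v hve hvf
      · obtain ⟨a, _, ha⟩ := Sym2.mem_map.1 hvf
        exact absurd (mem_cov.2 ⟨e, h, by rw [ha]; exact hve⟩) a.2
    · obtain ⟨a, ha, hav⟩ := Sym2.mem_map.1 hve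
      rcases wor_mem.1 hf with h' | ⟨f', hf', rfl⟩
      · exact absurd (mem_cov.2 ⟨f, h', by rw [hav]; exact hvf⟩) a.2
      · obtain ⟨b, hb, hbv⟩ := Sym2.mem_map.1 hvf
        have hab : a = b := Subtype.ext (hav.trans hbv.symm)
        rw [hM.2 e' he' f' hf' a ha (by rw [hab]; exact hb)]

theorem lft_mono {M M' : Finset (Sym2 (Unc ρ))} (h : M ⊆ M') : lft ρ M ⊆ lft ρ M' := by
  intro e he
  rcases wor_mem.1 he with h' | ⟨f, hf, hfe⟩
  · exact wor_mem.2 (Or.inl h')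
  · exact wor_mem.2 (Or.inr ⟨f, h hf, hfe⟩)

theorem card_lft (M : Finset (Sym2 (Unc ρ))) :
    (lft ρ M).card = ρ.card + M.card := by
  unfold lft
  rw [Finset.card_union_of_disjoint, Finset.card_image_of_injective _ (wor_inj ρ)]
  rw [Finset.disjoint_left]
  intro e he h
  obtain ⟨f, _, rfl⟩ := Finset.mem_image.1 h
  exact wor_notin ρ f he

theorem rst_lft (M : Finset (Sym2 (Unc ρ))) : rst ρ (lft ρ M) = M := by
  ext e
  rw [wor_rst, wor_mem]
  constructor
  · rintro (h | ⟨f, hf, hfe⟩)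
    · exact absurd h (wor_notin ρ e)
    · rw [← wor_inj ρ hfe]
      exact hf
  · intro h
    exact Or.inr ⟨e, h, rfl⟩

theorem lft_rst {N : Finset (Sym2 V)} (hN : IsM N) (h : ρ ⊆ N) : lft ρ (rst ρ N) = N := by
  ext e
  rw [wor_mem]
  constructor
  · rintro (h1 | ⟨f, hf, rfl⟩)
    · exact h h1
    · exact wor_rst.1 hf
  · intro he
    by_cases h1 : e ∈ ρ
    · exact Or.inl h1
    · right
      have h2 : ∀ v ∈ e, v ∉ cov ρ := by
        intro v hv hc
        obtain ⟨f, hf, hvf⟩ := mem_cov.1 hc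
        rw [hN.2 e he f (h hf) v hv hvf] at h1
        exact h1 hf
      induction e with
      | _ a b =>
        refine ⟨s(⟨a, h2 a (Sym2.mem_mk_left _ _)⟩, ⟨b, h2 b (Sym2.mem_mk_right _ _)⟩), ?_, ?_⟩
        · rw [wor_rst, Sym2.map_mk]
          exact he
        · rw [Sym2.map_mk]

theorem isM_rst {N : Finset (Sym2 V)} (hN : IsM N) : IsM (rst ρ N) := by
  constructor
  · intro e he hd
    exact hN.1 _ (wor_rst.1 he) ((Sym2.isDiag_map Subtype.val_injective).2 hd)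
  · intro e he f hf v hve hvf
    refine wor_inj ρ (hN.2 _ (wor_rst.1 he) _ (wor_rst.1 hf) (v : V) ?_ ?_)
    · exact Sym2.mem_map.2 ⟨v, hve, rfl⟩
    · exact Sym2.mem_map.2 ⟨v, hvf, rfl⟩

theorem rst_mono {N N' : Finset (Sym2 V)} (h : N ⊆ N') : rst ρ N ⊆ rst ρ N' := by
  intro e he
  exact wor_rst.2 (h (wor_rst.1 he))

theorem card_rst_le (N : Finset (Sym2 V)) : (rst ρ N).card ≤ N.card :=
  Finset.card_le_card_of_injOn (Sym2.map Subtype.val) (fun _ he => wor_rst.1 he)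
    (wor_inj ρ).injOn

/-- `t ⊆ ρ ∪ M` implies `t ⊆ ρ ∪ (t ∩ M)` -/
theorem sub_lft_rst {t : Finset (Sym2 V)} {M : Finset (Sym2 (Unc ρ))} (h : t ⊆ lft ρ M) :
    t ⊆ lft ρ (rst ρ t) := by
  intro e he
  rcases wor_mem.1 (h he) with h1 | ⟨f, hf, hfe⟩
  · exact wor_mem.2 (Or.inl h1)
  · refine wor_mem.2 (Or.inr ⟨f, ?_, hfe⟩)
    rw [wor_rst, hfe]
    exact he

theorem rst_sub {t : Finset (Sym2 V)} {M : Finset (Sym2 (Unc ρ))} (h : t ⊆ lft ρ M) :
    rst ρ t ⊆ M := by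
  intro e he
  rcases wor_mem.1 (h (wor_rst.1 he)) with h1 | ⟨f, hf, hfe⟩
  · exact absurd h1 (wor_notin ρ e)
  · rw [← wor_inj ρ hfe]
    exact hf

end Pool.Agent.H3.Ac
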