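import Mathlib
import Pool.Agent.H3.Ac.Sw
import Pool.Agent.H3.Ac.Fol
import Pool.Agent.H3.Ac.Wor

set_option autoImplicit false
set_option linter.unusedSectionVars false

/-!
# Module STP: one level of depth

`S`: list of formulas closed under subformulas, values `val` (`Val w (8 w)`, coherent) for the
formulas of `S` of left depth `≤ i`. `tm s i val C t`: the matching `t` is a term of the DNF of `C`.
For a base `ρ` that is not `Bad (F C) w ρ` for all `C ∈ S`, where `F C` is the list of all matchings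
`t`, `t.card ≤ w`, `tm s i val C t` (existence by `exists_good` with `k = w`), the new values are
`nval`, functions of matchings of `Unc ρ` (`|Unc ρ| = ℓ` by `card_Unc`).

**Val w (8 w)** for `nval ρ C`:
* `ldep s C ≤ i`: `mono` from `mono`; `wit`: a witness `t ⊆ lft ρ M` gives `rst ρ t ⊆ M` (`rst_sub`,
  `card_rst_le`) and `t ⊆ lft ρ (rst ρ t)` (`sub_lft_rst`), then `mono`; `tot`: `2 |lft ρ M| + 8 w ≤ |V|` by
  `card_lft`, `card_Unc`; the extension `N ⊇ lft ρ M` is `lft ρ (rst ρ N)` (`lft_rst`).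
* otherwise: the true case and the false case exclude each other at the same `M`, even for different
  `M, M'` with a common matching above: `t ⊆ π ⊆ lft ρ M`, `π' ⊆ lft ρ M'`, so `t ∪ π'` is contained in a
  matching, `Cmp t π'`. `mono` follows. `wit`: replace `M` by `rst ρ π` (`lft ρ (rst ρ π) = π`, at most `w`
  edges by `card_lft`). `tot`: `follow` for `lft ρ M` with `k = w` (room `2 |lft ρ M| + 6 w ≤ |V|`): `M'`, `π`;
  `fst (F C) π = none` means that no term is compatible with `π` (false case); `t ⊆ π` with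
  `t ∈ F C` is the true case. Take `rst ρ M'`.

**Coh** on `ldep ≤ i + 1`. If the compound formula has `ldep ≤ i`, so do its parts: old coherence at
`lft ρ M`. Otherwise:
* `tm_up`: if `t` is a term of `B` (`tm s i val B t`, `t.card ≤ w`, `IsM t`) and `t ⊆ lft ρ M`, then
  `nval ρ B M ≠ some false` (`ldep s B ≤ i`: `val B t = some true`, mono; else exclusion).
* `tm_dn`: if `nval ρ B M = some true` then there is a term `t ⊆ lft ρ M` of `B` (`ldep s B ≤ i`: witness).
* `¬A`, `nval ρ A M = val A (lft ρ M) = some a`: value of `¬A` true: a term `t ⊆ lft ρ M` with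
  `val A t = some false`, so `a = false`. Value false: all terms of `¬A` are incompatible with some
  `π ⊆ lft ρ M`; if `a = false`, a witness `t ⊆ lft ρ M` of `val A` is a term, compatible. So `a = true`.
* `A → B`: value true: a term `t ⊆ lft ρ M`; either `val A t = some false`, so `a = false`, or `t` is a term
  of `B`, so `b = true` by `tm_up`. Value false: `a = true` as before, and `b = true` would give a term
  of `B`, hence of `A → B`, inside `lft ρ M` (`tm_dn`), compatible, contradiction; so `b = false`.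

**Never false** is inherited for `ldep s A ≤ i` (`isM_lft`).
-/

namespace Pool.Agent.H3.Ac

open Finset Pool.Agent.H3.Frg Pool.Agent.H3.Frg2 Pool.Agent.H3.Frg3

variable {W V : Type} [Fintype V] [DecidableEq V]

theorem ldep_of_len {s : ℕ} {A : Fm W} (h : A.len ≤ s) : ldep s A = 0 := by
  cases A with
  | var v => rfl
  | neg A =>
    have h' : A.len + 1 ≤ s := h
    simp only [ldep, if_pos h']
  | imp A B =>
    have h' : A.len + B.len + 1 ≤ s := h
    simp only [ldep, if_pos h']

theorem ldep_neg_le {s i : ℕ} {A : Fm W} (h : ldep s (Fm.neg A) ≤ i) : ldep s A ≤ i := by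
  simp only [ldep] at h
  split_ifs at h with h1
  · rw [ldep_of_len (by omega)]
    omega
  · omega

theorem ldep_imp_le {s i : ℕ} {A B : Fm W} (h : ldep s (Fm.imp A B) ≤ i) :
    ldep s A ≤ i ∧ ldep s B ≤ i := by
  simp only [ldep] at h
  split_ifs at h with h1
  · rw [ldep_of_len (by omega), ldep_of_len (by omega)]
    omega
  · omega

theorem ldep_neg_succ {s i : ℕ} {A : Fm W} (h : ldep s (Fm.neg A) ≤ i + 1)
    (h' : ¬ ldep s (Fm.neg A) ≤ i) : ldep s A ≤ i := by
  simp only [ldep] at h h'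
  split_ifs at h h' with h1
  · omega
  · omega

theorem ldep_imp_succ {s i : ℕ} {A B : Fm W} (h : ldep s (Fm.imp A B) ≤ i + 1)
    (h' : ¬ ldep s (Fm.imp A B) ≤ i) : ldep s A ≤ i ∧ ldep s B ≤ i + 1 := by
  simp only [ldep] at h h'
  split_ifs at h h' with h1
  · omega
  · omega

/-- terms of the DNF of a formula -/
def tm (s i : ℕ) (val : Fm W → Finset (Sym2 V) → Option Bool) : Fm W → Finset (Sym2 V) → Prop
  | Fm.var v, t => val (Fm.var v) t = some true
  | Fm.neg A, t => (ldep s (Fm.neg A) ≤ i ∧ val (Fm.neg A) t = some true) ∨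
      (¬ ldep s (Fm.neg A) ≤ i ∧ val A t = some false)
  | Fm.imp A B, t => (ldep s (Fm.imp A B) ≤ i ∧ val (Fm.imp A B) t = some true) ∨
      (¬ ldep s (Fm.imp A B) ≤ i ∧ (val A t = some false ∨ tm s i val B t))

open scoped Classical in
/-- the new values -/
noncomputable def nval (s i w : ℕ) (val : Fm W → Finset (Sym2 V) → Option Bool)
    (ρ : Finset (Sym2 V)) (C : Fm W) (M : Finset (Sym2 (Unc ρ))) : Option Bool :=
  if ldep s C ≤ i then val C (lft ρ M)
  else if ∃ π, ρ ⊆ π ∧ π ⊆ lft ρ M ∧ π.card ≤ ρ.card + w ∧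
      ∃ t, IsM t ∧ t.card ≤ w ∧ tm s i val C t ∧ t ⊆ π then some true
  else if ∃ π, ρ ⊆ π ∧ π ⊆ lft ρ M ∧ π.card ≤ ρ.card + w ∧
      ∀ t, IsM t → t.card ≤ w → tm s i val C t → ¬ Cmp t π then some false
  else none

theorem stp_tm_iff {s i : ℕ} {val : Fm W → Finset (Sym2 V) → Option Bool} {C : Fm W}
    (h : ldep s C ≤ i) (t : Finset (Sym2 V)) : tm s i val C t ↔ val C t = some true := by
  cases C with
  | var v => exact Iff.rfl
  | neg A =>
    simp only [tm]
    constructor
    · rintro (h1 | h1)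
      · exact h1.2
      · exact absurd h h1.1
    · exact fun h1 => Or.inl ⟨h, h1⟩
  | imp A B =>
    simp only [tm]
    constructor
    · rintro (h1 | h1)
      · exact h1.2
      · exact absurd h h1.1
    · exact fun h1 => Or.inl ⟨h, h1⟩

/-- the true case -/
def StpT (s i w : ℕ) (val : Fm W → Finset (Sym2 V) → Option Bool)
    (ρ : Finset (Sym2 V)) (C : Fm W) (M : Finset (Sym2 (Unc ρ))) : Prop :=
  ∃ π, ρ ⊆ π ∧ π ⊆ lft ρ M ∧ π.card ≤ ρ.card + w ∧
      ∃ t, IsM t ∧ t.card ≤ w ∧ tm s i val C t ∧ t ⊆ π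

/-- the false case -/
def StpF (s i w : ℕ) (val : Fm W → Finset (Sym2 V) → Option Bool)
    (ρ : Finset (Sym2 V)) (C : Fm W) (M : Finset (Sym2 (Unc ρ))) : Prop :=
  ∃ π, ρ ⊆ π ∧ π ⊆ lft ρ M ∧ π.card ≤ ρ.card + w ∧
      ∀ t, IsM t → t.card ≤ w → tm s i val C t → ¬ Cmp t π

section

variable {s i w : ℕ} {val : Fm W → Finset (Sym2 V) → Option Bool} {ρ : Finset (Sym2 V)}
  {C : Fm W}

theorem stp_nval_old (h : ldep s C ≤ i) (M : Finset (Sym2 (Unc ρ))) :
    nval s i w val ρ C M = val C (lft ρ M) := by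
  unfold nval
  rw [if_pos h]

theorem stp_excl (hρ : IsM ρ) {M M' N : Finset (Sym2 (Unc ρ))} (hN : IsM N) (h1 : M ⊆ N)
    (h2 : M' ⊆ N) (hT : StpT s i w val ρ C M) (hF : StpF s i w val ρ C M') : False := by
  obtain ⟨π, _, hπ, _, t, ht1, ht2, ht3, ht4⟩ := hT
  obtain ⟨π', _, hπ', _, hF⟩ := hF
  apply hF t ht1 ht2 ht3
  unfold Cmp
  apply isM_sub (isM_lft hρ hN)
  apply union_subset
  · exact (ht4.trans hπ).trans (lft_mono h1)
  · exact hπ'.trans (lft_mono h2)

theorem stp_nval_true (h : ¬ ldep s C ≤ i) {M : Finset (Sym2 (Unc ρ))}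
    (hT : StpT s i w val ρ C M) : nval s i w val ρ C M = some true := by
  unfold StpT at hT
  unfold nval
  rw [if_neg h, if_pos hT]

theorem stp_nval_false (hρ : IsM ρ) (h : ¬ ldep s C ≤ i) {M : Finset (Sym2 (Unc ρ))}
    (hM : IsM M) (hF : StpF s i w val ρ C M) : nval s i w val ρ C M = some false := by
  have hne : ¬ StpT s i w val ρ C M := fun hT =>
    stp_excl hρ hM (Subset.refl _) (Subset.refl _) hT hF
  unfold StpT at hne
  unfold StpF at hF
  unfold nval
  rw [if_neg h, if_neg hne, if_pos hF]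

theorem stp_true_of (h : ¬ ldep s C ≤ i) {M : Finset (Sym2 (Unc ρ))}
    (hv : nval s i w val ρ C M = some true) : StpT s i w val ρ C M := by
  by_contra hne
  unfold StpT at hne
  unfold nval at hv
  rw [if_neg h, if_neg hne] at hv
  split_ifs at hv
  · cases hv

theorem stp_false_of (h : ¬ ldep s C ≤ i) {M : Finset (Sym2 (Unc ρ))}
    (hv : nval s i w val ρ C M = some false) : StpF s i w val ρ C M := by
  by_contra hne
  unfold StpF at hne
  unfold nval at hv
  rw [if_neg h, if_neg hne] at hv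
  split_ifs at hv
  · cases hv

theorem stp_T_mono {M M' : Finset (Sym2 (Unc ρ))} (h : M ⊆ M')
    (hT : StpT s i w val ρ C M) : StpT s i w val ρ C M' := by
  obtain ⟨π, h1, h2, h3⟩ := hT
  exact ⟨π, h1, h2.trans (lft_mono h), h3⟩

theorem stp_F_mono {M M' : Finset (Sym2 (Unc ρ))} (h : M ⊆ M')
    (hF : StpF s i w val ρ C M) : StpF s i w val ρ C M' := by
  obtain ⟨π, h1, h2, h3⟩ := hF
  exact ⟨π, h1, h2.trans (lft_mono h), h3⟩

/-- transport of an extension -/
theorem stp_ext (hρ : IsM ρ) {M : Finset (Sym2 (Unc ρ))} {N : Finset (Sym2 V)} (hN : IsM N)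
    (h : lft ρ M ⊆ N) (hc : N.card ≤ (lft ρ M).card + w) :
    IsM (rst ρ N) ∧ M ⊆ rst ρ N ∧ (rst ρ N).card ≤ M.card + w ∧ lft ρ (rst ρ N) = N := by
  have hsub : ρ ⊆ N := (sub_lft M).trans h
  have e1 := lft_rst hN hsub
  refine ⟨isM_rst hN, ?_, ?_, e1⟩
  · have h1 := rst_mono (ρ := ρ) h
    rwa [rst_lft] at h1
  · have h1 := card_lft (ρ := ρ) (rst ρ N)
    rw [e1] at h1
    have h2 := card_lft (ρ := ρ) M
    omega

/-- old formulas keep their properties -/
theorem stp_val_old (hρ : IsM ρ) (h : ldep s C ≤ i) (hval : Val w (8 * w) (val C)) :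
    Val w (8 * w) (nval s i w val ρ C) := by
  have hU := card_Unc hρ
  constructor
  · intro M M' hM' hMM b hb
    rw [stp_nval_old h] at hb ⊢
    exact hval.mono _ _ (isM_lft hρ hM') (lft_mono hMM) b hb
  · intro M hM b hb
    rw [stp_nval_old h] at hb
    obtain ⟨t, ht1, ht2, ht3⟩ := hval.wit _ (isM_lft hρ hM) b hb
    refine ⟨rst ρ t, rst_sub ht1, (card_rst_le t).trans ht2, ?_⟩
    rw [stp_nval_old h]
    exact hval.mono _ _ (isM_lft hρ (isM_sub hM (rst_sub ht1))) (sub_lft_rst ht1) b ht3
  · intro M hM hroom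
    have hc := card_lft (ρ := ρ) M
    obtain ⟨N, hN1, hN2, hN3, hN4⟩ := hval.tot (lft ρ M) (isM_lft hρ hM) (by omega)
    obtain ⟨e1, e2, e3, e4⟩ := stp_ext hρ hN1 hN2 hN3
    refine ⟨rst ρ N, e1, e2, e3, ?_⟩
    rw [stp_nval_old h, e4]
    exact hN4

open scoped Classical in
/-- the list of the terms of `C` -/
noncomputable def stpL (s i w : ℕ) (val : Fm W → Finset (Sym2 V) → Option Bool) (C : Fm W) :
    List (Finset (Sym2 V)) :=
  ((univ : Finset (Finset (Sym2 V))).filter
    (fun t => IsM t ∧ t.card ≤ w ∧ tm s i val C t)).toList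

open scoped Classical in
theorem mem_stpL {t : Finset (Sym2 V)} :
    t ∈ stpL s i w val C ↔ IsM t ∧ t.card ≤ w ∧ tm s i val C t := by
  unfold stpL
  rw [mem_toList, mem_filter]
  simp

/-- new formulas -/
theorem stp_val_new (hρ : IsM ρ) (h : ¬ ldep s C ≤ i) (hgood : ¬ Bad (stpL s i w val C) w ρ) :
    Val w (8 * w) (nval s i w val ρ C) := by
  have hU := card_Unc hρ
  constructor
  · intro M M' hM' hMM b hb
    cases b with
    | true => exact stp_nval_true h (stp_T_mono hMM (stp_true_of h hb))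
    | false => exact stp_nval_false hρ h hM' (stp_F_mono hMM (stp_false_of h hb))
  · intro M hM b hb
    have hwit : ∀ π, ρ ⊆ π → π ⊆ lft ρ M → π.card ≤ ρ.card + w →
        rst ρ π ⊆ M ∧ (rst ρ π).card ≤ w ∧ lft ρ (rst ρ π) = π := by
      intro π h1 h2 h3
      have hπ : IsM π := isM_sub (isM_lft hρ hM) h2
      have e1 := lft_rst hπ h1
      have e2 := card_lft (ρ := ρ) (rst ρ π)
      rw [e1] at e2
      exact ⟨rst_sub h2, by omega, e1⟩
    cases b with
    | true =>
      obtain ⟨π, h1, h2, h3, h4⟩ := stp_true_of h hb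
      obtain ⟨a1, a2, a3⟩ := hwit π h1 h2 h3
      exact ⟨rst ρ π, a1, a2, stp_nval_true h ⟨π, h1, a3.symm.subset, h3, h4⟩⟩
    | false =>
      obtain ⟨π, h1, h2, h3, h4⟩ := stp_false_of h hb
      obtain ⟨a1, a2, a3⟩ := hwit π h1 h2 h3
      exact ⟨rst ρ π, a1, a2, stp_nval_false hρ h (isM_sub hM a1)
        ⟨π, h1, a3.symm.subset, h3, h4⟩⟩
  · intro M hM hroom
    have hc := card_lft (ρ := ρ) M
    obtain ⟨M', π, b1, b2, b3, b4, b5, b6, b7⟩ := follow (stpL s i w val C) w w
      (fun t ht => ⟨(mem_stpL.1 ht).1, (mem_stpL.1 ht).2.1⟩) (isM_lft hρ hM) (sub_lft M) hgood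
      (by omega)
    obtain ⟨e1, e2, e3, e4⟩ := stp_ext hρ b1 b2 b5
    refine ⟨rst ρ M', e1, e2, e3, ?_⟩
    have hπ : π ⊆ lft ρ (rst ρ M') := by rw [e4]; exact b4
    rcases b7 with b7 | ⟨t, b7, b8⟩
    · rw [stp_nval_false hρ h e1 ⟨π, b3, hπ, b6, ?_⟩]
      · simp
      · intro t ht1 ht2 ht3 hcmp
        unfold fst at b7
        rw [List.find?_eq_none] at b7
        exact b7 t (mem_stpL.2 ⟨ht1, ht2, ht3⟩) (by simpa using hcmp)
    · have hmem : t ∈ stpL s i w val C := by
        unfold fst at b7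
        exact List.mem_of_find?_eq_some b7
      rw [mem_stpL] at hmem
      rw [stp_nval_true h ⟨π, b3, hπ, b6, t, hmem.1, hmem.2.1, hmem.2.2, b8⟩]
      simp

/-- a term inside `lft ρ M` excludes the value false -/
theorem stp_tm_up (hρ : IsM ρ) (hval : ldep s C ≤ i → Val w (8 * w) (val C))
    {M : Finset (Sym2 (Unc ρ))} (hM : IsM M) {t : Finset (Sym2 V)} (ht1 : IsM t)
    (ht2 : t.card ≤ w) (ht3 : tm s i val C t) (ht4 : t ⊆ lft ρ M) :
    nval s i w val ρ C M ≠ some false := by
  by_cases h : ldep s C ≤ i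
  · rw [stp_nval_old h, (hval h).mono _ _ (isM_lft hρ hM) ht4 true ((stp_tm_iff h t).1 ht3)]
    simp
  · intro hv
    obtain ⟨π, _, hπ, _, h4⟩ := stp_false_of h hv
    apply h4 t ht1 ht2 ht3
    exact isM_sub (isM_lft hρ hM) (union_subset ht4 hπ)

/-- the value true has a term inside `lft ρ M` -/
theorem stp_tm_dn (hρ : IsM ρ) (hval : ldep s C ≤ i → Val w (8 * w) (val C))
    {M : Finset (Sym2 (Unc ρ))} (hM : IsM M) (hv : nval s i w val ρ C M = some true) :
    ∃ t, IsM t ∧ t.card ≤ w ∧ tm s i val C t ∧ t ⊆ lft ρ M := by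
  by_cases h : ldep s C ≤ i
  · rw [stp_nval_old h] at hv
    obtain ⟨t, h1, h2, h3⟩ := (hval h).wit _ (isM_lft hρ hM) true hv
    exact ⟨t, isM_sub (isM_lft hρ hM) h1, h2, (stp_tm_iff h t).2 h3, h1⟩
  · obtain ⟨π, _, hπ, _, t, h1, h2, h3, h4⟩ := stp_true_of h hv
    exact ⟨t, h1, h2, h3, h4.trans hπ⟩

end

/-- one level of depth -/
theorem ac_step (s i w ℓ m : ℕ) (S : List (Fm W)) (hS : SubCl {A | A ∈ S})
    (val : Fm W → Finset (Sym2 V) → Option Bool)
    (hval : ∀ A ∈ S, ldep s A ≤ i → Val w (8 * w) (val A))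
    (hcoh : Coh val {A | A ∈ S ∧ ldep s A ≤ i})
    (hn : 2 * m + ℓ = Fintype.card V) (hw : 8 * w * ℓ ^ 4 ≤ m + 1)
    (hS2 : S.length ≤ 2 ^ w) :
    ∃ (V' : Type) (_ : Fintype V') (_ : DecidableEq V')
      (val' : Fm W → Finset (Sym2 V') → Option Bool), Fintype.card V' = ℓ ∧
      (∀ A ∈ S, ldep s A ≤ i + 1 → Val w (8 * w) (val' A)) ∧
      Coh val' {A | A ∈ S ∧ ldep s A ≤ i + 1} ∧
      (∀ A ∈ S, ldep s A ≤ i → (∀ M, IsM M → val A M ≠ some false) →
        ∀ M, IsM M → val' A M ≠ some false) := by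
  obtain ⟨ρ, hρ, hρm, hgood⟩ := exists_good (V := V) (ι := Fin S.length) w ℓ w m hn hw
    (fun j => stpL s i w val (S.get j))
    (fun j t ht => ⟨(mem_stpL.1 ht).1, (mem_stpL.1 ht).2.1⟩) (by simpa using hS2)
  have hgood' : ∀ C ∈ S, ¬ Bad (stpL s i w val C) w ρ := by
    intro C hC
    obtain ⟨j, hj⟩ := List.mem_iff_get.1 hC
    rw [← hj]
    exact hgood j
  have hU := card_Unc hρ
  refine ⟨Unc ρ, inferInstance, inferInstance, nval s i w val ρ, by omega, ?_, ?_, ?_⟩
  · intro A hA _
    by_cases h : ldep s A ≤ i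
    · exact stp_val_old hρ h (hval A hA h)
    · exact stp_val_new hρ h (hgood' A hA)
  · constructor
    · rintro A ⟨hAS, hAd⟩ M hM a b ha hb
      have hA : A ∈ S := hS.1 A hAS
      by_cases h : ldep s (Fm.neg A) ≤ i
      · have hA' := ldep_neg_le h
        rw [stp_nval_old hA'] at ha
        rw [stp_nval_old h] at hb
        exact hcoh.neg A ⟨hAS, h⟩ _ (isM_lft hρ hM) a b ha hb
      · have hA' := ldep_neg_succ hAd h
        have hvA := hval A hA hA'
        rw [stp_nval_old hA'] at ha
        cases b with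
        | true =>
          obtain ⟨π, _, hπ, _, t, h1, h2, h3, h4⟩ := stp_true_of h hb
          have h5 : val A t = some false := by
            simp only [tm] at h3
            rcases h3 with h3 | h3
            · exact absurd h3.1 h
            · exact h3.2
          have h6 := hvA.mono _ _ (isM_lft hρ hM) (h4.trans hπ) false h5
          rw [h6] at ha
          cases ha
          rfl
        | false =>
          obtain ⟨π, _, hπ, _, h4⟩ := stp_false_of h hb
          cases a with
          | true => rfl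
          | false =>
            exfalso
            obtain ⟨t, h5, h6, h7⟩ := hvA.wit _ (isM_lft hρ hM) false ha
            apply h4 t (isM_sub (isM_lft hρ hM) h5) h6
            · simp only [tm]
              exact Or.inr ⟨h, h7⟩
            · exact isM_sub (isM_lft hρ hM) (union_subset h5 hπ)
    · rintro A B ⟨hABS, hABd⟩ M hM a b c ha hb hc
      obtain ⟨hA, hB⟩ := hS.2 A B hABS
      by_cases h : ldep s (Fm.imp A B) ≤ i
      · obtain ⟨hA', hB'⟩ := ldep_imp_le h
        rw [stp_nval_old hA'] at ha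
        rw [stp_nval_old hB'] at hb
        rw [stp_nval_old h] at hc
        exact hcoh.imp A B ⟨hABS, h⟩ _ (isM_lft hρ hM) a b c ha hb hc
      · obtain ⟨hA', hB'⟩ := ldep_imp_succ hABd h
        have hvA := hval A hA hA'
        rw [stp_nval_old hA'] at ha
        cases c with
        | true =>
          obtain ⟨π, _, hπ, _, t, h1, h2, h3, h4⟩ := stp_true_of h hc
          simp only [tm] at h3
          rcases h3 with h3 | ⟨_, h3 | h3⟩
          · exact absurd h3.1 h
          · have h6 := hvA.mono _ _ (isM_lft hρ hM) (h4.trans hπ) false h3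
            rw [h6] at ha
            cases ha
            rfl
          · have h7 := stp_tm_up hρ (hval B hB) hM h1 h2 h3 (h4.trans hπ)
            rw [hb] at h7
            cases b with
            | true => simp
            | false => exact absurd rfl h7
        | false =>
          obtain ⟨π, _, hπ, _, h4⟩ := stp_false_of h hc
          have hat : a = true := by
            cases a with
            | true => rfl
            | false =>
              exfalso
              obtain ⟨t, h5, h6, h7⟩ := hvA.wit _ (isM_lft hρ hM) false ha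
              apply h4 t (isM_sub (isM_lft hρ hM) h5) h6
              · simp only [tm]
                exact Or.inr ⟨h, Or.inl h7⟩
              · exact isM_sub (isM_lft hρ hM) (union_subset h5 hπ)
          have hbf : b = false := by
            cases b with
            | false => rfl
            | true =>
              exfalso
              obtain ⟨t, h5, h6, h7, h8⟩ := stp_tm_dn hρ (hval B hB) hM hb
              apply h4 t h5 h6
              · simp only [tm]
                exact Or.inr ⟨h, Or.inr h7⟩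
              · exact isM_sub (isM_lft hρ hM) (union_subset h8 hπ)
          rw [hat, hbf]
          rfl
  · intro A _ hA' hnf M hM
    rw [stp_nval_old hA']
    exact hnf _ (isM_lft hρ hM)

end Pool.Agent.H3.Ac
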