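import Mathlib
import Pool.Agent.H3.Ac.Stp
import Pool.Agent.H3.Ac.Snd

set_option autoImplicit false
set_option linter.unusedSectionVars false

/-!
# Module ACM: all levels

`ac_levels`: induction on `e`, for all `i, V, val` with values and coherence for left depth `≤ i`,
`i + e = d`, `NN w c e ≤ |V|` where `c = 2 * w * (ℓ + 4) + 8 * w`. `e = 0`: `no_proof_ac` with
`S = {A | A ∈ S}`. Step: choose `ℓ' = NN w c e` or `NN w c e + 1` with the parity of `|V|`, `2 m + ℓ' = |V|`;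
`2 m ≥ 17 w (NN + 1)^4 - (NN + 1) ≥ 16 w ℓ'^4`; apply `ac_step`, then the induction hypothesis with
`i + 1`.

`NN_le`: induction. `d = 0`: `c Q ≤ Q^3`. Step: `(NN + 1) Q ≤ 2 Q^(3 * 4^d)`, so
`(17 w (NN + 1)^4 Q) Q^4 ≤ 17 * 16 * w * Q * Q^(3 * 4^(d+1)) ≤ Q^4 * Q^(3 * 4^(d+1))` as
`17 * 16 ≤ Q^2`, `w ≤ Q`; cancel `Q^4`.
-/

namespace Pool.Agent.H3.Ac

open Finset Pool.Agent.H3.Frg Pool.Agent.H3.Frg2 Pool.Agent.H3.Frg3

/-- the number of vertices needed for `d` levels -/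
def NN (w c : ℕ) : ℕ → ℕ
  | 0 => c
  | d + 1 => 17 * w * (NN w c d + 1) ^ 4

theorem ac_levels {W : Type} (d s w ℓ : ℕ) (hw : 1 ≤ w) (S : List (Fm W))
    (hS : SubCl {A | A ∈ S}) (hS2 : S.length ≤ 2 ^ w) (hd : ∀ A ∈ S, ldep s A ≤ d)
    (Sch : Set (Fm ℕ)) (htaut : ∀ ψ ∈ Sch, ∀ x : ℕ → Bool, ψ.eval x = true)
    (hlen : ∀ ψ ∈ Sch, ψ.len ≤ ℓ) {L : ℕ} (pf : Fin L → Fm W) (hpf : IsProof Sch pf)
    (hpfS : ∀ i, pf i ∈ S) (v0 : W) (As : List (Fm W)) (hAsS : ∀ A ∈ As, A ∈ S ∧ ldep s A = 0)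
    (hfin : ∃ i, pf i = As.foldr Fm.imp (bot v0)) (e : ℕ) :
    ∀ (i : ℕ) (V : Type) [Fintype V] [DecidableEq V]
      (val : Fm W → Finset (Sym2 V) → Option Bool), i + e = d →
      (∀ A ∈ S, ldep s A ≤ i → Val w (8 * w) (val A)) →
      Coh val {A | A ∈ S ∧ ldep s A ≤ i} →
      (∀ A ∈ As, ∀ M, IsM M → val A M ≠ some false) →
      NN w (2 * w * (ℓ + 4) + 8 * w) e ≤ Fintype.card V → False := by
  induction e with
  | zero =>
    intro i V _ _ val hi hval hcoh hAs hV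
    have hi' : i = d := by omega
    subst hi'
    have hset : {A : Fm W | A ∈ S ∧ ldep s A ≤ i} = {A | A ∈ S} := by
      ext A
      exact ⟨fun h => h.1, fun h => ⟨h, hd A h⟩⟩
    rw [hset] at hcoh
    exact no_proof_ac val {A | A ∈ S} hS w (8 * w) ℓ (fun A hA => hval A hA (hd A hA)) hcoh
      Sch htaut hlen pf hpf hpfS v0 As hAs hfin hV
  | succ e ih =>
    intro i V _ _ val hi hval hcoh hAs hV
    set N := NN w (2 * w * (ℓ + 4) + 8 * w) e with hN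
    have hV' : 17 * w * (N + 1) ^ 4 ≤ Fintype.card V := hV
    obtain ⟨l', m, hl1, hl2, hl3⟩ : ∃ l' m, N ≤ l' ∧ l' ≤ N + 1 ∧
        2 * m + l' = Fintype.card V := by
      have h1 : N + 1 ≤ Fintype.card V := by
        refine le_trans ?_ hV'
        calc N + 1 = 1 * (N + 1) ^ 1 := by ring
          _ ≤ 17 * w * (N + 1) ^ 4 := Nat.mul_le_mul (by omega)
            (Nat.pow_le_pow_right (by omega) (by omega))
      by_cases hpar : (Fintype.card V - N) % 2 = 0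
      · exact ⟨N, (Fintype.card V - N) / 2, le_rfl, by omega, by omega⟩
      · exact ⟨N + 1, (Fintype.card V - (N + 1)) / 2, by omega, le_rfl, by omega⟩
    have hm : 8 * w * l' ^ 4 ≤ m + 1 := by
      have h1 : l' ^ 4 ≤ (N + 1) ^ 4 := Nat.pow_le_pow_left hl2 4
      have h2 : 8 * w * l' ^ 4 ≤ 8 * w * (N + 1) ^ 4 := Nat.mul_le_mul_left _ h1
      have h3 : N + 1 ≤ w * (N + 1) ^ 4 := by
        calc N + 1 = 1 * (N + 1) ^ 1 := by ring
          _ ≤ w * (N + 1) ^ 4 := Nat.mul_le_mul hw (Nat.pow_le_pow_right (by omega) (by omega))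
      have h4 : 17 * w * (N + 1) ^ 4 = 2 * (8 * w * (N + 1) ^ 4) + w * (N + 1) ^ 4 := by ring
      omega
    obtain ⟨V', hF, hD, val', h1, h2, h3, h4⟩ :=
      ac_step s i w l' m S hS val hval hcoh hl3 hm hS2
    refine ih (i + 1) V' val' (by omega) h2 h3 (fun A hA => ?_) (by rw [h1]; exact hl1)
    exact h4 A (hAsS A hA).1 (by rw [(hAsS A hA).2]; exact Nat.zero_le _) (hAs A hA)

theorem NN_le (w c Q : ℕ) (hQ : 17 ≤ Q) (hw : w ≤ Q) (hc : c ≤ Q ^ 2) (d : ℕ) :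
    NN w c d * Q ≤ Q ^ (3 * 4 ^ d) := by
  induction d with
  | zero =>
    calc NN w c 0 * Q = c * Q := rfl
      _ ≤ Q ^ 2 * Q := Nat.mul_le_mul_right _ hc
      _ = Q ^ (3 * 4 ^ 0) := by ring
  | succ d ih =>
    set N := NN w c d with hN
    set P := Q ^ (3 * 4 ^ d) with hP
    have hQ1 : 1 ≤ Q := by omega
    have hQP : Q ≤ P := by
      calc Q = Q ^ 1 := (pow_one Q).symm
        _ ≤ P := Nat.pow_le_pow_right hQ1 (by
          have : 1 ≤ 4 ^ d := Nat.one_le_pow _ _ (by norm_num)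
          omega)
    have h1 : (N + 1) * Q ≤ 2 * P := by
      rw [add_mul, one_mul]
      omega
    have h2 : P ^ 4 = Q ^ (3 * 4 ^ (d + 1)) := by
      rw [hP, ← pow_mul]
      congr 1
      ring
    have h3 : NN w c (d + 1) * Q * Q ^ 4 ≤ Q ^ (3 * 4 ^ (d + 1)) * Q ^ 4 := by
      calc NN w c (d + 1) * Q * Q ^ 4 = 17 * w * (N + 1) ^ 4 * Q * Q ^ 4 := rfl
        _ = 17 * w * Q * ((N + 1) * Q) ^ 4 := by ring
        _ ≤ 17 * Q * Q * (2 * P) ^ 4 := by gcongr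
        _ = 272 * (Q * Q) * P ^ 4 := by ring
        _ ≤ (Q * Q) * (Q * Q) * P ^ 4 := by
          have h5 : 272 ≤ Q * Q := le_trans (by norm_num) (Nat.mul_le_mul hQ hQ)
          gcongr
        _ = Q ^ (3 * 4 ^ (d + 1)) * Q ^ 4 := by rw [h2]; ring
    exact Nat.le_of_mul_le_mul_right h3 (by positivity)

end Pool.Agent.H3.Ac
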