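import Mathlib
import Pool.Agent.H3.Ac.Defs
import Pool.Agent.H3.Frg2.Pseudo
import Pool.Agent.H3.Frg3.Clo3

set_option autoImplicit false
set_option linter.unusedSectionVars false

/-!
# Module BRI: a pseudo-zero function of few variables vanishes at locally correct points

`ZZ src tgt d M ε p` (`Frg2/Pseudo.lean`): `Et (χ_T p) = 0` for all `|T| ≤ M`.

* `bridge`: let `ind z = ∏_{e ∈ S} (1 + sg (z0 e) * sg (z e)) = ∑_{T ⊆ S} χ_T(z0) χ_T(z)`
  (`Finset.prod_one_add` or `Finset.prod_add`), which is `2^|S|` if `z = z0` on `S` and `0` otherwise. So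
  `ind z * p z = p z0 * ind z` for all `z`. On one hand `Et (ind * p) = ∑_{T ⊆ S} χ_T(z0) Et(χ_T p) = 0`
  (`Et_sum`, `|T| ≤ |S| ≤ M`), on the other hand it is `p z0 * Et ind`, and
  `Et ind = ∑_{T ⊆ S} χ_T(z0) Et χ_T = ∑_{X ∈ smallL, bd X ⊆ S} χ_(bd X)(z0) ε_X 2^|E|` (`Et_chi` in
  `Frg/Tseitin.lean`) where every term is `2^|E| > 0` by `hz0` and `ε_X^2 = 1` (`epsX_mul_self`), and
  `X = ∅` occurs. So `Et ind > 0` and `p z0 = 0`.
* `small_sub_clos`: `exists_clos` (`Frg3/Clo3.lean`) gives `Y` with `|Y| ≤ c0 |S|` and `Clos src tgt S Y`;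
  for `X ∈ smallL` with `bd X ⊆ S` the case `Xᶜ ⊆ Y` is impossible: `|Xᶜ| ≥ 2 |W| / 3 > |W| / 4 ≥ |Y|`.
-/

namespace Pool.Agent.H3.Ac

open Finset Pool.Agent.H3.Frg Pool.Agent.H3.Frg2 Pool.Agent.H3.Frg3

variable {E Wv : Type} [Fintype E] [DecidableEq E] [Fintype Wv] [DecidableEq Wv]
  {src tgt : E → Wv}

theorem bridge {d M : ℕ} {ε : Wv → ℝ} (hε : ∀ w, ε w * ε w = 1) {p : (E → Bool) → ℝ}
    (hZ : ZZ src tgt d M ε p) (S : Finset E) (hSM : S.card ≤ M)
    (hp : ∀ z z', (∀ e ∈ S, z e = z' e) → p z = p z') (z0 : E → Bool)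
    (hz0 : ∀ X ∈ smallL src tgt d, bd src tgt X ⊆ S → epsX ε X = chi (bd src tgt X) z0) :
    p z0 = 0 := by
  have hprod : ∀ z, ∑ T ∈ S.powerset, chi T z0 * chi T z = ∏ e ∈ S, (1 + sg (z0 e) * sg (z e)) := by
    intro z
    rw [Finset.prod_one_add]
    refine Finset.sum_congr rfl fun T _ => ?_
    unfold chi
    rw [Finset.prod_mul_distrib]
  have hkey : ∀ z, (∑ T ∈ S.powerset, chi T z0 * chi T z) * p z
      = p z0 * ∑ T ∈ S.powerset, chi T z0 * chi T z := by
    intro z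
    by_cases h : ∀ e ∈ S, z e = z0 e
    · rw [hp z z0 h, mul_comm]
    · push Not at h
      obtain ⟨e, he, hne⟩ := h
      have h0 : ∑ T ∈ S.powerset, chi T z0 * chi T z = 0 := by
        rw [hprod]
        refine Finset.prod_eq_zero he ?_
        revert hne
        cases z e <;> cases z0 e <;> simp [sg]
      rw [h0, zero_mul, mul_zero]
  have h1 : Et src tgt d ε (fun z => ∑ T ∈ S.powerset, chi T z0 * (chi T z * p z)) = 0 := by
    have h2 := Et_sum src tgt d ε S.powerset (fun T => chi T z0) (fun T z => chi T z * p z)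
    rw [h2]
    refine Finset.sum_eq_zero fun T hT => ?_
    rw [hZ T ((Finset.card_le_card (Finset.mem_powerset.mp hT)).trans hSM), mul_zero]
  have h2 : (fun z => ∑ T ∈ S.powerset, chi T z0 * (chi T z * p z))
      = fun z => p z0 * ∑ T ∈ S.powerset, chi T z0 * chi T z := by
    funext z
    rw [← hkey z, Finset.sum_mul]
    exact Finset.sum_congr rfl fun T _ => by ring
  rw [h2, Et_smul] at h1
  have h3 : Et src tgt d ε (fun z => ∑ T ∈ S.powerset, chi T z0 * chi T z)
      = ∑ T ∈ S.powerset, chi T z0 * Et src tgt d ε (chi T) :=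
    Et_sum src tgt d ε S.powerset (fun T => chi T z0) (fun T => chi T)
  have hterm : ∀ T ∈ S.powerset, chi T z0 * Et src tgt d ε (chi T)
      = ∑ X ∈ (smallL src tgt d).filter (fun X => T = bd src tgt X),
        (2 : ℝ) ^ Fintype.card E := by
    intro T hT
    rw [Et_chi, Finset.mul_sum]
    refine Finset.sum_congr rfl fun X hX => ?_
    rw [Finset.mem_filter] at hX
    have h4 := hz0 X hX.1 (by rw [← hX.2]; exact Finset.mem_powerset.mp hT)
    rw [h4, ← hX.2, ← mul_assoc, chi_mul_self, one_mul]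
  have hpos : 0 < ∑ T ∈ S.powerset, chi T z0 * Et src tgt d ε (chi T) := by
    rw [Finset.sum_congr rfl hterm]
    refine Finset.sum_pos' (fun T _ => Finset.sum_nonneg fun X _ => by positivity)
      ⟨∅, Finset.empty_mem_powerset S, ?_⟩
    refine Finset.sum_pos (fun X _ => by positivity) ⟨∅, ?_⟩
    rw [Finset.mem_filter, mem_smallL, bd_empty]
    simp
  rw [h3] at h1
  exact (mul_eq_zero.mp h1).resolve_right hpos.ne'

theorem small_sub_clos {c0 d : ℕ}
    (hch : ∀ X : Finset Wv, min X.card (Fintype.card Wv - X.card) ≤ c0 * (bd src tgt X).card)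
    (S : Finset E) (hS : 4 * (c0 * S.card) ≤ Fintype.card Wv) (hW : 1 ≤ Fintype.card Wv) :
    ∃ Y : Finset Wv, Y.card ≤ c0 * S.card ∧
      ∀ X ∈ smallL src tgt d, bd src tgt X ⊆ S → X ⊆ Y := by
  obtain ⟨Y, -, hYc, hY⟩ := exists_clos hch S hS
  refine ⟨Y, hYc, ?_⟩
  intro X hX hb
  rw [mem_smallL] at hX
  rcases hY X hb with h | h
  · exact h
  · exfalso
    have h1 := Finset.card_le_card h
    have h2 := Finset.card_le_univ X
    rw [Finset.card_compl] at h1
    omega

end Pool.Agent.H3.Ac
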