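import Mathlib
import Pool.Agent.H3.Ac.Mat
import Pool.Agent.H3.Frg3.Fam

set_option autoImplicit false
set_option linter.unusedSectionVars false

/-!
# Module FLO: the assignment of a matching satisfies the parity conditions

* `chi_fl`: `w = (v, i)`. If `v ∉ cov M`, all edges at `w` have the value `false`. If `v` has the partner
  `u ≠ v`: the path edge to `(v, i + 1)` (exists iff `i < m`) has the value `[u > i]`, the path edge from
  `(v, i - 1)` (exists iff `i > 0`) has the value `[u ≥ i]`, the edge of the pair `{v, i}` (exists iff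
  `i ≠ v`) has the value `[u = i]`. So for `i > 0` the number of true edges is even
  (`[u ≥ i] = [u > i] + [u = i]`; for `i = m`, `[u > m] = 0`; for `i = v`, `[u = v] = 0`), for `i = 0` it is
  `[u > 0] + [u = 0] = 1`.
* `chi_xM`: `bd` of the union is the disjoint union of the two boundaries, `sg (xor a b) = sg a * sg b`.
* `exists_signs`: choose `w0`. Apply `Asn_nonempty` (`Frg3/Fam.lean`) with one centre: `C = Unit`,
  `Wv' = Unit`, `cen _ _ = w0`: there is `a` with `chi (bd {v}) a = δ v` for all `v ≠ w0`. Since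
  `∏_v chi (bd {v}) a = chi (bd univ) a = 1` (`chi_bd` in `Frg2/Proj.lean`) and `∏ δ = 1`, also at `w0`.
* `exists_a`: `δ w = - ε w` if `w.2 = 0`, else `ε w`; `∏ δ = (-1)^(m + 1) ∏ ε = 1` for `m` even.
-/

namespace Pool.Agent.H3.Ac

open Finset Pool.Agent.H3.Frg Pool.Agent.H3.Frg2 Pool.Agent.H3.Frg3

variable {m : ℕ} {R : Type} [Fintype R] [DecidableEq R]

/-- edge from `(v, i)` to `(v, i + 1)` -/
def flA1 (w : GW m) : Finset (GE m) :=
  if h : (w.2 : ℕ) < m then {Sum.inl (w.1, ⟨(w.2 : ℕ), h⟩)} else ∅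

/-- edge from `(v, i - 1)` to `(v, i)` -/
def flA2 (w : GW m) : Finset (GE m) :=
  if h : 0 < (w.2 : ℕ) then {Sum.inl (w.1, ⟨(w.2 : ℕ) - 1, by have := w.2.2; omega⟩)} else ∅

/-- edge of the pair -/
def flA3 (w : GW m) : Finset (GE m) :=
  if h : w.1 < w.2 then {Sum.inr ⟨(w.1, w.2), h⟩}
  else if h : w.2 < w.1 then {Sum.inr ⟨(w.2, w.1), h⟩} else ∅

theorem fl_bd (w : GW m) : bd (gsrc m) (gtgt m) {w} = flA1 w ∪ (flA2 w ∪ flA3 w) := by
  obtain ⟨v, i⟩ := w
  ext e
  rw [mem_bd, Finset.mem_union, Finset.mem_union]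
  simp only [Finset.mem_singleton, flA1, flA2, flA3]
  rcases e with ⟨v', j⟩ | ⟨⟨v', u'⟩, h'⟩
  · simp only [gsrc, gtgt, Prod.mk.injEq, Fin.ext_iff, Fin.val_castSucc, Fin.val_succ]
    by_cases h1 : (i : ℕ) < m
    · by_cases h2 : 0 < (i : ℕ)
      · rw [dif_pos h1, dif_pos h2]
        have h3 : (Sum.inl (v', j) : GE m) ∈ (if h : v < i then ({Sum.inr ⟨(v, i), h⟩} : Finset (GE m))
            else if h : i < v then {Sum.inr ⟨(i, v), h⟩} else ∅) ↔ False := by
          split_ifs <;> simp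
        rw [h3]
        simp only [Finset.mem_singleton, Sum.inl.injEq, Prod.mk.injEq, Fin.ext_iff, or_false]
        omega
      · rw [dif_pos h1, dif_neg h2]
        have h3 : (Sum.inl (v', j) : GE m) ∈ (if h : v < i then ({Sum.inr ⟨(v, i), h⟩} : Finset (GE m))
            else if h : i < v then {Sum.inr ⟨(i, v), h⟩} else ∅) ↔ False := by
          split_ifs <;> simp
        rw [h3]
        simp only [Finset.mem_singleton, Sum.inl.injEq, Prod.mk.injEq, Fin.ext_iff, or_false,
          Finset.notMem_empty]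
        omega
    · by_cases h2 : 0 < (i : ℕ)
      · rw [dif_neg h1, dif_pos h2]
        have h3 : (Sum.inl (v', j) : GE m) ∈ (if h : v < i then ({Sum.inr ⟨(v, i), h⟩} : Finset (GE m))
            else if h : i < v then {Sum.inr ⟨(i, v), h⟩} else ∅) ↔ False := by
          split_ifs <;> simp
        rw [h3]
        simp only [Finset.mem_singleton, Sum.inl.injEq, Prod.mk.injEq, Fin.ext_iff, or_false,
          Finset.notMem_empty, false_or]
        have hj := j.2
        omega
      · exfalso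
        have hj := j.2
        omega
  · have hA1 : (Sum.inr ⟨(v', u'), h'⟩ : GE m) ∈ (if h : (i : ℕ) < m then
        ({Sum.inl (v, ⟨(i : ℕ), h⟩)} : Finset (GE m)) else ∅) ↔ False := by
      split_ifs <;> simp
    have hA2 : (Sum.inr ⟨(v', u'), h'⟩ : GE m) ∈ (if h : 0 < (i : ℕ) then
        ({Sum.inl (v, ⟨(i : ℕ) - 1, by have := i.2; omega⟩)} : Finset (GE m)) else ∅) ↔ False := by
      split_ifs <;> simp
    rw [hA1, hA2, false_or, false_or]
    simp only [gsrc, gtgt, Prod.mk.injEq]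
    have h'' : (v' : ℕ) < (u' : ℕ) := h'
    split_ifs with h1 h2
    · have h1' : (v : ℕ) < (i : ℕ) := h1
      simp only [Finset.mem_singleton, Sum.inr.injEq, Subtype.mk.injEq, Prod.mk.injEq, Fin.ext_iff]
      omega
    · have h2' : (i : ℕ) < (v : ℕ) := h2
      simp only [Finset.mem_singleton, Sum.inr.injEq, Subtype.mk.injEq, Prod.mk.injEq, Fin.ext_iff]
      omega
    · have h1' : ¬ (v : ℕ) < (i : ℕ) := h1
      have h2' : ¬ (i : ℕ) < (v : ℕ) := h2
      simp only [Finset.notMem_empty, Fin.ext_iff]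
      constructor
      · intro h
        exact h ⟨fun h => by omega, fun h => by omega⟩
      · exact False.elim

theorem fl_disj (w : GW m) : Disjoint (flA1 w) (flA2 w ∪ flA3 w) ∧ Disjoint (flA2 w) (flA3 w) := by
  obtain ⟨v, i⟩ := w
  unfold flA1 flA2 flA3
  constructor
  · rw [Finset.disjoint_left]
    intro e he
    rw [Finset.mem_union]
    split_ifs at he with h1
    · rw [Finset.mem_singleton] at he
      subst he
      rintro (h | h)
      · split_ifs at h with h2
        · rw [Finset.mem_singleton] at h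
          simp only [Sum.inl.injEq, Prod.mk.injEq, Fin.ext_iff] at h
          have h3 : 0 < (i : ℕ) := h2
          omega
        · exact absurd h (Finset.notMem_empty _)
      · split_ifs at h <;> simp at h
    · exact absurd he (Finset.notMem_empty _)
  · rw [Finset.disjoint_left]
    intro e he
    split_ifs at he with h1
    · rw [Finset.mem_singleton] at he
      subst he
      intro h
      split_ifs at h <;> simp at h
    · exact absurd he (Finset.notMem_empty _)

open scoped Classical in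
theorem fl_prod {M : Finset (Sym2 (Fin (m + 1)))} (hM : IsM M) (w : GW m) :
    chi (bd (gsrc m) (gtgt m) {w}) (fl m M) =
      sg (decide (∃ u, s(w.1, u) ∈ M ∧ (w.2 : ℕ) < (u : ℕ))) *
      ((if 0 < (w.2 : ℕ) then sg (decide (∃ u, s(w.1, u) ∈ M ∧ (w.2 : ℕ) - 1 < (u : ℕ))) else 1) *
      sg (decide (s(w.1, w.2) ∈ M))) := by
  obtain ⟨h1, h2⟩ := fl_disj w
  rw [fl_bd]
  unfold chi
  rw [Finset.prod_union h1, Finset.prod_union h2]
  obtain ⟨v, i⟩ := w
  congr 1
  · unfold flA1
    split_ifs with h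
    · rw [Finset.prod_singleton]
      rfl
    · rw [Finset.prod_empty]
      have h3 : ¬ ∃ u, s(v, u) ∈ M ∧ (i : ℕ) < (u : ℕ) := by
        rintro ⟨u, -, hu⟩
        have := u.2
        have h4 : ¬ (i : ℕ) < m := h
        omega
      show (1 : ℝ) = sg (decide (∃ u, s(v, u) ∈ M ∧ (i : ℕ) < (u : ℕ)))
      rw [decide_eq_false h3]
      simp [sg]
  · congr 1
    · unfold flA2
      split_ifs with h
      · rw [Finset.prod_singleton]
        rfl
      · rw [Finset.prod_empty]
    · unfold flA3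
      split_ifs with h h'
      · rw [Finset.prod_singleton]
        rfl
      · rw [Finset.prod_singleton]
        show sg (decide (s(i, v) ∈ M)) = sg (decide (s(v, i) ∈ M))
        rw [Sym2.eq_swap]
      · rw [Finset.prod_empty]
        have h3 : v = i := le_antisymm (not_lt.mp h') (not_lt.mp h)
        have h4 : ¬ s(v, i) ∈ M := by
          intro hmem
          apply hM.1 _ hmem
          rw [h3]
          exact Sym2.mk_isDiag_iff.mpr rfl
        show (1 : ℝ) = sg (decide (s(v, i) ∈ M))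
        rw [decide_eq_false h4]
        simp [sg]

open scoped Classical in
theorem chi_fl {M : Finset (Sym2 (Fin (m + 1)))} (hM : IsM M) (w : GW m) :
    chi (bd (gsrc m) (gtgt m) {w}) (fl m M) = if w.2 = 0 ∧ w.1 ∈ cov M then -1 else 1 := by
  rw [fl_prod hM w]
  obtain ⟨v, i⟩ := w
  simp only
  by_cases hv : v ∈ cov M
  · obtain ⟨e, he, hve⟩ := mem_cov.mp hv
    obtain ⟨u, rfl⟩ := hve
    have hu : ∀ u', s(v, u') ∈ M ↔ u' = u := by
      intro u'
      constructor
      · intro h
        have h1 := hM.2 _ h _ he v (Sym2.mem_mk_left _ _) (Sym2.mem_mk_left _ _)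
        exact Sym2.congr_right.mp h1
      · rintro rfl
        exact he
    have e1 : (∃ u', s(v, u') ∈ M ∧ (i : ℕ) < (u' : ℕ)) ↔ (i : ℕ) < (u : ℕ) := by
      constructor
      · rintro ⟨u', h1, h2⟩
        rw [(hu u').mp h1] at h2
        exact h2
      · intro h
        exact ⟨u, he, h⟩
    have e2 : (∃ u', s(v, u') ∈ M ∧ (i : ℕ) - 1 < (u' : ℕ)) ↔ (i : ℕ) - 1 < (u : ℕ) := by
      constructor
      · rintro ⟨u', h1, h2⟩
        rw [(hu u').mp h1] at h2
        exact h2
      · intro h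
        exact ⟨u, he, h⟩
    have e3 : s(v, i) ∈ M ↔ (i : ℕ) = (u : ℕ) := by
      rw [hu i, Fin.ext_iff]
    have e4 : (i = 0) ↔ (i : ℕ) = 0 := by
      rw [Fin.ext_iff]; rfl
    have d1 : decide (∃ u', s(v, u') ∈ M ∧ (i : ℕ) < (u' : ℕ)) = decide ((i : ℕ) < (u : ℕ)) :=
      decide_eq_decide.mpr e1
    have d2 : decide (∃ u', s(v, u') ∈ M ∧ (i : ℕ) - 1 < (u' : ℕ)) =
        decide ((i : ℕ) - 1 < (u : ℕ)) := decide_eq_decide.mpr e2
    have d3 : decide (s(v, i) ∈ M) = decide ((i : ℕ) = (u : ℕ)) := decide_eq_decide.mpr e3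
    rw [d1, d2, d3]
    by_cases hi : (i : ℕ) = 0
    · have hR : (if i = 0 ∧ v ∈ cov M then (-1 : ℝ) else 1) = -1 := if_pos ⟨e4.mpr hi, hv⟩
      have hL : ¬ 0 < (i : ℕ) := by omega
      rw [hR, if_neg hL]
      by_cases hu0 : (u : ℕ) = 0
      · have a1 : ¬ (i : ℕ) < (u : ℕ) := by omega
        have a2 : (i : ℕ) = (u : ℕ) := by omega
        simp [a1, a2, sg]
      · have a1 : (i : ℕ) < (u : ℕ) := by omega
        have a2 : ¬ (i : ℕ) = (u : ℕ) := by omega
        simp [a1, a2, sg]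
    · have hR : (if i = 0 ∧ v ∈ cov M then (-1 : ℝ) else 1) = 1 :=
        if_neg (fun h => hi (e4.mp h.1))
      have hL : 0 < (i : ℕ) := by omega
      rw [hR, if_pos hL]
      rcases lt_trichotomy (i : ℕ) (u : ℕ) with h | h | h
      · have a1 : (i : ℕ) - 1 < (u : ℕ) := by omega
        have a2 : ¬ (i : ℕ) = (u : ℕ) := by omega
        simp [h, a1, a2, sg]
      · have a1 : (i : ℕ) - 1 < (u : ℕ) := by omega
        have a2 : ¬ (i : ℕ) < (u : ℕ) := by omega
        have f1 : decide ((i : ℕ) < (u : ℕ)) = false := decide_eq_false a2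
        have f2 : decide ((i : ℕ) - 1 < (u : ℕ)) = true := decide_eq_true a1
        have f3 : decide ((i : ℕ) = (u : ℕ)) = true := decide_eq_true h
        rw [f1, f2, f3]
        simp [sg]
      · have a1 : ¬ (i : ℕ) - 1 < (u : ℕ) := by omega
        have a2 : ¬ (i : ℕ) = (u : ℕ) := by omega
        have a3 : ¬ (i : ℕ) < (u : ℕ) := by omega
        simp [a1, a2, a3, sg]
  · have hu : ∀ u', ¬ s(v, u') ∈ M := by
      intro u' h
      exact hv (mem_cov.mpr ⟨_, h, Sym2.mem_mk_left _ _⟩)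
    have e1 : ¬ ∃ u', s(v, u') ∈ M ∧ (i : ℕ) < (u' : ℕ) := fun ⟨u', h, _⟩ => hu u' h
    have e2 : ¬ ∃ u', s(v, u') ∈ M ∧ (i : ℕ) - 1 < (u' : ℕ) := fun ⟨u', h, _⟩ => hu u' h
    have hR : (if i = 0 ∧ v ∈ cov M then (-1 : ℝ) else 1) = 1 := if_neg (fun h => hv h.2)
    rw [decide_eq_false e1, decide_eq_false e2, decide_eq_false (hu i), hR]
    simp [sg]

open scoped Classical in
theorem chi_xM (rsrc rtgt : R → GW m) (a : GE m ⊕ R → Bool)
    {M : Finset (Sym2 (Fin (m + 1)))} (hM : IsM M) (w : GW m) :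
    chi (bd (Sum.elim (gsrc m) rsrc) (Sum.elim (gtgt m) rtgt) {w}) (xM m a M)
      = chi (bd (Sum.elim (gsrc m) rsrc) (Sum.elim (gtgt m) rtgt) {w}) a *
        (if w.2 = 0 ∧ w.1 ∈ cov M then -1 else 1) := by
  have hsum : ∀ f : GE m ⊕ R → ℝ, ∏ e, f e = (∏ e : GE m, f (Sum.inl e)) * ∏ r : R, f (Sum.inr r) :=
    fun f => Fintype.prod_sum_type f
  rw [← chi_fl hM w, chi_eq_univ, chi_eq_univ, chi_eq_univ, hsum, hsum]
  have h1 : ∀ e : GE m, (Sum.inl e : GE m ⊕ R) ∈ bd (Sum.elim (gsrc m) rsrc)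
      (Sum.elim (gtgt m) rtgt) {w} ↔ e ∈ bd (gsrc m) (gtgt m) {w} := by
    intro e
    rw [mem_bd, mem_bd]
    rfl
  have h2 : ∏ e : GE m, (if (Sum.inl e : GE m ⊕ R) ∈ bd (Sum.elim (gsrc m) rsrc)
      (Sum.elim (gtgt m) rtgt) {w} then sg (xM m a M (Sum.inl e)) else 1)
      = (∏ e : GE m, (if (Sum.inl e : GE m ⊕ R) ∈ bd (Sum.elim (gsrc m) rsrc)
      (Sum.elim (gtgt m) rtgt) {w} then sg (a (Sum.inl e)) else 1)) *
      ∏ e : GE m, (if e ∈ bd (gsrc m) (gtgt m) {w} then sg (fl m M e) else 1) := by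
    rw [← Finset.prod_mul_distrib]
    refine Finset.prod_congr rfl fun e _ => ?_
    by_cases h : e ∈ bd (gsrc m) (gtgt m) {w}
    · rw [if_pos ((h1 e).mpr h), if_pos ((h1 e).mpr h), if_pos h]
      exact sg_xor _ _
    · rw [if_neg (fun h' => h ((h1 e).mp h')), if_neg (fun h' => h ((h1 e).mp h')), if_neg h,
        mul_one]
  rw [h2]
  have h3 : ∏ r : R, (if (Sum.inr r : GE m ⊕ R) ∈ bd (Sum.elim (gsrc m) rsrc)
      (Sum.elim (gtgt m) rtgt) {w} then sg (xM m a M (Sum.inr r)) else 1)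
      = ∏ r : R, (if (Sum.inr r : GE m ⊕ R) ∈ bd (Sum.elim (gsrc m) rsrc)
      (Sum.elim (gtgt m) rtgt) {w} then sg (a (Sum.inr r)) else 1) := rfl
  rw [h3]
  ring

theorem exists_signs {E Wv : Type} [Fintype E] [DecidableEq E] [Fintype Wv] [DecidableEq Wv]
    {src tgt : E → Wv} (hconn : Con src tgt) (δ : Wv → ℝ) (hδ : ∀ v, δ v * δ v = 1)
    (hprod : ∏ v, δ v = 1) : ∃ a : E → Bool, ∀ v, chi (bd src tgt {v}) a = δ v := by
  classical
  rcases isEmpty_or_nonempty Wv with hE | ⟨⟨w0⟩⟩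
  · exact ⟨fun _ => false, fun v => (hE.false v).elim⟩
  · obtain ⟨a, ha⟩ := Asn_nonempty (src := src) (tgt := tgt) (C := Unit) (Wv' := Unit)
      (cen := fun _ _ => w0) hconn (ε := δ) hδ ()
    have ha' : ∀ v, v ≠ w0 → chi (bd src tgt {v}) a = δ v := by
      unfold Asn at ha
      rw [Finset.mem_filter] at ha
      intro v hv
      apply ha.2
      unfold nce
      rw [Finset.mem_filter]
      exact ⟨mem_univ _, fun _ h => hv h.symm⟩
    refine ⟨a, ?_⟩
    have hbd : bd src tgt (univ : Finset Wv) = ∅ := by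
      ext e
      rw [mem_bd]
      simp
    have h1 := chi_bd src tgt univ a
    rw [hbd, chi_empty, ← Finset.mul_prod_erase univ _ (mem_univ w0)] at h1
    rw [← Finset.mul_prod_erase univ _ (mem_univ w0)] at hprod
    have h2 : ∏ v ∈ univ.erase w0, chi (bd src tgt {v}) a = ∏ v ∈ univ.erase w0, δ v := by
      refine Finset.prod_congr rfl fun v hv => ?_
      exact ha' v (Finset.ne_of_mem_erase hv)
    rw [h2] at h1
    intro v
    by_cases hv : v = w0
    · subst hv
      have h3 : ∏ v ∈ univ.erase v, δ v ≠ 0 := by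
        intro h0
        rw [h0, mul_zero] at hprod
        exact zero_ne_one hprod
      exact mul_right_cancel₀ h3 (h1.symm.trans hprod.symm)
    · exact ha' v hv

theorem exists_a (hm : Even m) (rsrc rtgt : R → GW m)
    (hconn : Con (Sum.elim (gsrc m) rsrc) (Sum.elim (gtgt m) rtgt)) (ε : GW m → ℝ)
    (hε : ∀ w, ε w * ε w = 1) (hprod : ∏ w, ε w = -1) :
    ∃ a : GE m ⊕ R → Bool, ∀ w : GW m,
      chi (bd (Sum.elim (gsrc m) rsrc) (Sum.elim (gtgt m) rtgt) {w}) a
        = if w.2 = 0 then - ε w else ε w := by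
  obtain ⟨a, ha⟩ := exists_signs hconn (fun w : GW m => if w.2 = 0 then - ε w else ε w)
    (by
      intro w
      show (if w.2 = 0 then - ε w else ε w) * (if w.2 = 0 then - ε w else ε w) = 1
      split_ifs
      · rw [neg_mul_neg]; exact hε w
      · exact hε w)
    (by
      have h1 : ∀ w : GW m, (if w.2 = 0 then - ε w else ε w)
          = (if w.2 = 0 then (-1 : ℝ) else 1) * ε w := by
        intro w
        split_ifs <;> ring
      rw [Finset.prod_congr rfl fun w _ => h1 w, Finset.prod_mul_distrib, hprod,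
        Fintype.prod_prod_type]
      have h2 : ∀ v : Fin (m + 1), ∏ i : Fin (m + 1), (if i = 0 then (-1 : ℝ) else 1) = -1 := by
        intro v
        rw [Finset.prod_ite_eq' univ (0 : Fin (m + 1)) (fun _ => (-1 : ℝ))]
        simp
      rw [Finset.prod_congr rfl fun v _ => h2 v, Finset.prod_const, Finset.card_univ,
        Fintype.card_fin, Odd.neg_one_pow hm.add_one]
      norm_num)
  exact ⟨a, ha⟩

end Pool.Agent.H3.Ac
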