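import Mathlib
import Pool.Agent.H3.Ac.Flo
import Pool.Agent.H3.Ac.Bri

set_option autoImplicit false
set_option linter.unusedSectionVars false

/-!
# Module BSV: values of short formulas

`nds m S`: the vertices of the complete graph that determine the variables in `S`; `bval m a S g M` is
`g (xM m a M)` if `M` covers `nds m S`, else `none`.

* `card_nds_le`: every `e` has at most one `ndo m e`.
* `xM_congr`: path edge of `v ∈ cov M`: `M` and `M' ⊇ M` give `v` the same partner (`IsM M'`); pair edge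
  `v < u`, `v ∈ cov M`: `s(v, u) ∈ M ↔ s(v, u) ∈ M'` for the same reason; edges in `R`: trivial.
* `bval_Val`: `mono` by `cov_mono`, `xM_congr`, `hg`; `wit`: the edges of `M` that touch `nds m S`, at most
  `|nds m S| ≤ w` (the edges are disjoint), cover `nds m S`; `tot`: `cover`.
* `bval_zero`: let `M0 ⊆ M` be the edges of `M` that touch `nds m S`, `|M0| ≤ |S|`, `nds m S ⊆ cov M0`.
  `Y` from `small_sub_clos`, `N = Y.image Prod.fst`, `|N| ≤ 1000 |S|`; `cover`: `M' ⊇ M0` with `N ⊆ cov M'`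
  (room: `2 |S| + 2000 |S| ≤ m + 1`). Let `z0 = xM m a M'`. For `w ∈ X ⊆ Y`: `w.1 ∈ cov M'`, so by `chi_xM` and
  `ha`, `chi (bd {w}) z0 = ε w`; by `chi_bd` (`Frg2/Proj.lean`) `chi (bd X) z0 = ∏_{w ∈ X} ε w = epsX ε X`.
  `bridge` gives `p z0 = 0`, and `p (xM m a M) = p (xM m a M0) = p z0` by `xM_congr`.
-/

namespace Pool.Agent.H3.Ac

open Finset Pool.Agent.H3.Frg Pool.Agent.H3.Frg2 Pool.Agent.H3.Frg3

variable {m : ℕ} {R : Type} [Fintype R] [DecidableEq R]

theorem mem_nds {S : Finset (GE m ⊕ R)} {v : Fin (m + 1)} :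
    v ∈ nds m S ↔ ∃ e ∈ S, ndo m e = some v := by
  unfold nds
  rw [Finset.mem_filter]
  exact ⟨fun h => h.2, fun h => ⟨Finset.mem_univ _, h⟩⟩

theorem card_nds_le (S : Finset (GE m ⊕ R)) : (nds m S).card ≤ S.card := by
  have h : nds m S ⊆ S.image (fun e => (ndo m e).getD 0) := by
    intro v hv
    obtain ⟨e, he, hev⟩ := mem_nds.1 hv
    exact Finset.mem_image.2 ⟨e, he, by rw [hev]; rfl⟩
  exact (Finset.card_le_card h).trans Finset.card_image_le

theorem nds_union (S T : Finset (GE m ⊕ R)) : nds m (S ∪ T) = nds m S ∪ nds m T := by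
  ext v
  rw [Finset.mem_union, mem_nds, mem_nds, mem_nds]
  constructor
  · rintro ⟨e, he, hev⟩
    rcases Finset.mem_union.1 he with h | h
    · exact Or.inl ⟨e, h, hev⟩
    · exact Or.inr ⟨e, h, hev⟩
  · rintro (⟨e, he, hev⟩ | ⟨e, he, hev⟩)
    · exact ⟨e, Finset.mem_union_left _ he, hev⟩
    · exact ⟨e, Finset.mem_union_right _ he, hev⟩

private theorem bsv_edge {M M' : Finset (Sym2 (Fin (m + 1)))} (hM' : IsM M')
    (h : M ⊆ M') {v : Fin (m + 1)} (hv : v ∈ cov M) {f : Sym2 (Fin (m + 1))} (hf : v ∈ f) :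
    f ∈ M ↔ f ∈ M' := by
  refine ⟨fun h1 => h h1, fun h1 => ?_⟩
  obtain ⟨e, he, hve⟩ := mem_cov.1 hv
  rw [← hM'.2 e (h he) f h1 v hve hf]
  exact he

theorem xM_congr (a : GE m ⊕ R → Bool) {M M' : Finset (Sym2 (Fin (m + 1)))} (hM' : IsM M')
    (h : M ⊆ M') {S : Finset (GE m ⊕ R)} (hS : nds m S ⊆ cov M) :
    ∀ e ∈ S, xM m a M e = xM m a M' e := by
  intro e he
  rcases e with (p | p) | r
  · have hv : p.1 ∈ cov M := hS (mem_nds.2 ⟨_, he, rfl⟩)
    have h1 : fl m M (Sum.inl p) = fl m M' (Sum.inl p) := by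
      unfold fl
      rw [decide_eq_decide]
      constructor
      · rintro ⟨u, hu, hu2⟩
        exact ⟨u, h hu, hu2⟩
      · rintro ⟨u, hu, hu2⟩
        exact ⟨u, (bsv_edge hM' h hv (Sym2.mem_mk_left _ _)).2 hu, hu2⟩
    show xor (a (Sum.inl (Sum.inl p))) (fl m M (Sum.inl p)) =
      xor (a (Sum.inl (Sum.inl p))) (fl m M' (Sum.inl p))
    rw [h1]
  · have hv : p.1.1 ∈ cov M := hS (mem_nds.2 ⟨_, he, rfl⟩)
    have h1 : fl m M (Sum.inr p) = fl m M' (Sum.inr p) := by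
      unfold fl
      rw [decide_eq_decide]
      exact bsv_edge hM' h hv (Sym2.mem_mk_left _ _)
    show xor (a (Sum.inl (Sum.inr p))) (fl m M (Sum.inr p)) =
      xor (a (Sum.inl (Sum.inr p))) (fl m M' (Sum.inr p))
    rw [h1]
  · rfl

/-- the edges that touch a set of vertices -/
private theorem bsv_touch {V : Type} [Fintype V] [DecidableEq V] {M : Finset (Sym2 V)}
    (hM : IsM M) (N : Finset V) (hN : N ⊆ cov M) :
    ∃ t, t ⊆ M ∧ t.card ≤ N.card ∧ N ⊆ cov t := by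
  classical
  refine ⟨M.filter (fun e => ∃ v ∈ e, v ∈ N), Finset.filter_subset _ _, ?_, ?_⟩
  · have hne : ∀ e ∈ M.filter (fun e => ∃ v ∈ e, v ∈ N), ∃ v, v ∈ e ∧ v ∈ N := by
      intro e he
      obtain ⟨v, hv, hv2⟩ := (Finset.mem_filter.1 he).2
      exact ⟨v, hv, hv2⟩
    rcases isEmpty_or_nonempty V with hV | hV
    · have h0 : M.filter (fun e => ∃ v ∈ e, v ∈ N) = ∅ := by
        rw [Finset.eq_empty_iff_forall_notMem]
        intro e he
        obtain ⟨v, _⟩ := hne e he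
        exact hV.false v
      rw [h0, Finset.card_empty]
      exact Nat.zero_le _
    choose! φ hφ using hne
    refine Finset.card_le_card_of_injOn φ (fun e he => (hφ e he).2) ?_
    intro e he f hf hef
    rw [Finset.mem_coe] at he hf
    refine hM.2 e (Finset.mem_filter.1 he).1 f (Finset.mem_filter.1 hf).1 (φ e) (hφ e he).1 ?_
    rw [hef]
    exact (hφ f hf).1
  · intro v hv
    obtain ⟨e, he, hve⟩ := mem_cov.1 (hN hv)
    exact mem_cov.2 ⟨e, Finset.mem_filter.2 ⟨he, v, hve, hv⟩, hve⟩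

theorem bval_some {a : GE m ⊕ R → Bool} {S : Finset (GE m ⊕ R)}
    {g : (GE m ⊕ R → Bool) → Bool} {M : Finset (Sym2 (Fin (m + 1)))} {b : Bool} :
    bval m a S g M = some b ↔ nds m S ⊆ cov M ∧ g (xM m a M) = b := by
  unfold bval
  by_cases h : nds m S ⊆ cov M
  · rw [if_pos h, Option.some_inj]
    exact ⟨fun h1 => ⟨h, h1⟩, fun h1 => h1.2⟩
  · rw [if_neg h]
    exact ⟨fun h1 => absurd h1 (by simp), fun h1 => absurd h1.1 h⟩

theorem bval_Val (a : GE m ⊕ R → Bool) (w r : ℕ) (hr : 2 * w ≤ r) (S : Finset (GE m ⊕ R))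
    (hS : S.card ≤ w) (g : (GE m ⊕ R → Bool) → Bool)
    (hg : ∀ z z', (∀ e ∈ S, z e = z' e) → g z = g z') : Val w r (bval m a S g) := by
  have hn : (nds m S).card ≤ w := (card_nds_le S).trans hS
  constructor
  · intro M M' hM' h b hb
    obtain ⟨h1, h2⟩ := bval_some.1 hb
    refine bval_some.2 ⟨h1.trans (cov_mono h), ?_⟩
    rw [← h2]
    exact (hg _ _ (xM_congr a hM' h h1)).symm
  · intro M hM b hb
    obtain ⟨h1, h2⟩ := bval_some.1 hb
    obtain ⟨t, ht1, ht2, ht3⟩ := bsv_touch hM _ h1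
    refine ⟨t, ht1, ht2.trans hn, bval_some.2 ⟨ht3, ?_⟩⟩
    rw [← h2]
    exact hg _ _ (xM_congr a hM ht1 ht3)
  · intro M hM hroom
    obtain ⟨M', h1, h2, h3, h4, _⟩ := cover (nds m S) hM (by omega)
    refine ⟨M', h1, h2, by omega, ?_⟩
    rw [bval_some.2 ⟨h3, rfl⟩]
    exact Option.some_ne_none _

theorem bval_zero {rsrc rtgt : R → GW m} {d Mz : ℕ}
    (hch : ∀ X : Finset (GW m), min X.card (Fintype.card (GW m) - X.card) ≤
      1000 * (bd (Sum.elim (gsrc m) rsrc) (Sum.elim (gtgt m) rtgt) X).card)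
    {ε : GW m → ℝ} (hε : ∀ w, ε w * ε w = 1) {a : GE m ⊕ R → Bool}
    (ha : ∀ w : GW m, chi (bd (Sum.elim (gsrc m) rsrc) (Sum.elim (gtgt m) rtgt) {w}) a
        = if w.2 = 0 then - ε w else ε w)
    {p : (GE m ⊕ R → Bool) → ℝ}
    (hZ : ZZ (Sum.elim (gsrc m) rsrc) (Sum.elim (gtgt m) rtgt) d Mz ε p)
    (S : Finset (GE m ⊕ R)) (hSM : S.card ≤ Mz)
    (hp : ∀ z z', (∀ e ∈ S, z e = z' e) → p z = p z')
    (hroom : 2002 * S.card ≤ m + 1) (hS4 : 4 * (1000 * S.card) ≤ (m + 1) ^ 2)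
    {M : Finset (Sym2 (Fin (m + 1)))} (hM : IsM M) (hcov : nds m S ⊆ cov M) :
    p (xM m a M) = 0 := by
  classical
  obtain ⟨M0, h1, h2, h3⟩ := bsv_touch hM _ hcov
  have hM0 : IsM M0 := isM_sub hM h1
  have hcW : Fintype.card (GW m) = (m + 1) ^ 2 := by
    rw [Fintype.card_prod, Fintype.card_fin, sq]
  obtain ⟨Y, hY1, hY2⟩ := small_sub_clos (d := d) hch S (by rw [hcW]; exact hS4)
    (by rw [hcW]; exact Nat.one_le_pow _ _ (Nat.succ_pos m))
  have hn := card_nds_le S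
  have hYc : (Y.image Prod.fst).card ≤ 1000 * S.card := Finset.card_image_le.trans hY1
  obtain ⟨M', h4, h5, h6, _, _⟩ := cover (Y.image Prod.fst) hM0 (by
    rw [Fintype.card_fin]
    omega)
  have hz0 : p (xM m a M') = 0 := by
    refine bridge hε hZ S hSM hp (xM m a M') fun X hX hXS => ?_
    rw [chi_bd]
    have hXY := hY2 X hX hXS
    unfold epsX
    refine Finset.prod_congr rfl fun w hw => ?_
    have hw1 : w.1 ∈ cov M' := h6 (Finset.mem_image.2 ⟨w, hXY hw, rfl⟩)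
    rw [chi_xM rsrc rtgt a h4 w, ha w]
    by_cases hw2 : w.2 = 0
    · rw [if_pos hw2, if_pos ⟨hw2, hw1⟩]
      ring
    · rw [if_neg hw2, if_neg (fun h => hw2 h.1)]
      ring
  rw [← hz0]
  have e1 : p (xM m a M0) = p (xM m a M) := hp _ _ (xM_congr a hM h1 h3)
  have e2 : p (xM m a M0) = p (xM m a M') := hp _ _ (xM_congr a h4 h5 h3)
  rw [← e1, e2]

end Pool.Agent.H3.Ac
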