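import Mathlib
import Pool.Agent.H3.Frg3.QStage
import Pool.Agent.H3.Ac.Defs

set_option autoImplicit false
set_option linter.unusedSectionVars false

/-!
# The recursion over the levels of the tower, with passive data
-/

namespace Pool.Agent.H3.Ac

open Finset Pool.Agent.H3.Frg Pool.Agent.H3.Frg2 Pool.Agent.H3.Frg3

/-- The lower bound on one level of the tower: the passive property `Pr` is contradictory if all
short formulas have coherent values of degree `t` with at most `σ` variables. -/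
def LevA {E Wv : Type} [Fintype E] [DecidableEq E] [Fintype Wv] [DecidableEq Wv]
    {src tgt : E → Wv} (fam : PFam src tgt)
    (Pr : (V : Type) → V → List (Fm V) → List (Fm V) → Prop) (j h k Kx t σ s cnt : ℕ) : Prop :=
  ∀ (V : Type) (v0 : V) (F : V → (E → Bool) → Bool) (ε : Wv → ℝ) (hε : ∀ v, ε v * ε v = 1),
    ∏ v, ε v = -1 → ∀ Bs : List (Fm V), (∀ B ∈ Bs, B.len ≤ s) → Bs.length ≤ cnt →
    (∀ B ∈ deep v0 (j + 1) Bs, B.len ≤ 4 * h →
      ∃ g : (E → Bool) → Bool, Dg (rl g) t ∧ Sup σ g ∧ CE (fam.P ε hε) F k B g) →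
    ∀ As : List (Fm V), (∀ A ∈ As, (∀ B ∈ A.subs, Dg (rl (hv F B)) Kx) ∧
      (fam.P ε hε).Z (fun z => rl (hv F A) z - 1)) →
    Pr V v0 Bs As → False

section Base

variable {E Wv : Type} [Fintype E] [DecidableEq E] [Fintype Wv] [DecidableEq Wv]
  {src tgt : E → Wv}

/-- the bound at the top level -/
theorem levA_top (fam : PFam src tgt) {Pr : (V : Type) → V → List (Fm V) → List (Fm V) → Prop}
    {J k Kx t σ s cnt : ℕ}
    (hlev : LevA fam Pr J 4 k Kx t σ s cnt) (hk : 16 ≤ k) (ht : 16 ≤ t) (hσ : 16 ≤ σ)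
    (hK : 1 ≤ fam.K) (v0 : E) {ε : Wv → ℝ} (hε : ∀ v, ε v * ε v = 1) (hprod : ∏ v, ε v = -1)
    (Bs : List (Fm E)) (hs : ∀ B ∈ Bs, B.len ≤ s) (hL : Bs.length ≤ cnt) (As : List (Fm E))
    (hAs : ∀ A ∈ As, A.vars.card ≤ Kx ∧ ∃ v : Wv,
      ∀ x, A.eval x = true ↔ chi (bd src tgt {v}) x = ε v)
    (hPr : Pr E v0 Bs As) : False := by
  refine hlev E v0 (fun i z => z i) ε hε hprod Bs hs hL
    (fun B _ hB => top_rep fam ε hε hk ht hσ B (by omega)) As (fun A hA => ?_) hPr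
  obtain ⟨hv, v, hev⟩ := hAs A hA
  refine ⟨fun B hB => ?_, PFam.ax fam hε hK v A hev⟩
  intro T hT
  by_contra h1
  have h2 := W_ind_supp B T h1
  have h3 := Finset.card_le_card (h2.trans (vars_subs A B hB))
  omega

end Base

variable {E Wv E' Wv' C : Type} [Fintype E] [DecidableEq E] [Fintype Wv] [DecidableEq Wv]
  [Fintype E'] [DecidableEq E'] [Fintype Wv'] [DecidableEq Wv'] [Fintype C] [DecidableEq C]
  {src tgt : E → Wv} {src' tgt' : E' → Wv'} {cen : C → Wv' → Wv}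
  {lvi : C → E → Finset E'} {D : ℕ}

/-- the product of all signs is invariant -/
theorem prod_eN (hst : Stg src tgt src' tgt' cen lvi D) {ε : Wv → ℝ}
    (hε : ∀ v, ε v * ε v = 1) {c : C} {a : E → Bool} (ha : a ∈ Asn src tgt ε cen c) :
    ∏ w, eN src tgt ε cen c a w = ∏ v, ε v := by
  have h1 := chi_bd_Asn hε (hst.inj c) ha (univ : Finset Wv)
  have h2 : bd src tgt univ = ∅ := by ext e; rw [mem_bd]; simp
  have h3 : cn cen c (univ : Finset Wv) = (univ : Finset Wv') := by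
    ext w; rw [mem_cn]; simp
  rw [h2, chi_empty, h3] at h1
  have h4 := epsX_mul_self (eN_sq (src := src) (tgt := tgt) (cen := cen) (c := c) hε a)
    (univ : Finset Wv')
  have h5 := epsX_mul_self hε (univ : Finset Wv)
  show epsX (eN src tgt ε cen c a) univ = epsX ε univ
  linear_combination (-(epsX (eN src tgt ε cen c a) univ)) * h5 - epsX ε univ * h1

theorem levA_step {D' c0 c0' t H σ : ℕ} (fam' : PFam src' tgt')
    {Pr : (V : Type) → V → List (Fm V) → List (Fm V) → Prop}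
    (hst : Stg src tgt src' tgt' cen lvi D)
    (hch : ∀ X : Finset Wv, min X.card (Fintype.card Wv - X.card) ≤ c0 * (bd src tgt X).card)
    (hG : LG src' tgt' D' c0' 1024) [Nonempty C] [Nonempty Wv']
    (hconn : Con src tgt)
    (u0 u η : ℝ) (hu0 : 4 ≤ u0) (hu : u = u0 ^ (D' + 1)) (hη : 0 < η)
    (hlip : ∀ (Y : Finset Wv) (T : Finset E) (i : E),
      Ph src tgt lvi u Y (symmDiff T {i}) ≤ (1 + η) * Ph src tgt lvi u Y T)
    (ht : ((t:ℝ) + 1) * η ≤ 1 / 100) (hH : (1 + 40 * (((t:ℝ) + 1) * η) ^ 2) ^ H ≤ 2)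
    (hW' : 1 ≤ Fintype.card Wv') (hC : 1024 * (c0 * (H * σ)) ≤ Fintype.card Wv')
    (hσ : 4 * t * 2 ^ t ≤ σ) (hK : D * (t * H) ≤ fam'.K)
    (hM : D' * (D * (t * H)) + D * (t * H) ≤ fam'.M)
    {j h h' k k' Kx Kx' s cnt : ℕ} (IH : LevA fam' Pr j h' k' Kx' t σ s cnt) (M : ℕ)
    (hDM : D * M ≤ fam'.M) (hDk : D * k ≤ k') (hDK : D * Kx ≤ Kx') (hh : 4 ≤ h) (htk : t ≤ k')
    (htk' : t ≤ k)
    (hkM : 20 * k ≤ M) (hsize : t * (h + 18 * (4 * h')) ≤ h * k)
    (hHh : h + 18 * (4 * h') ≤ h * H)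
    (hcnt : ((cnt * (3 * (s + 3 * (j + 1)) ^ 2) ^ (j + 1) : ℕ) : ℝ) * 2 < (u0 / 4) ^ (t + 1)) :
    LevA (fam'.up hst hconn M hDM) Pr (j + 1) h k Kx t σ s cnt := by
  classical
  intro V v0 F ε hε hprod Bs hs hL hrep As hAs hfin
  set l : List (Fm V) := deep v0 (j + 1) Bs with hl
  -- the mid-sized formulas
  have hmid : ∀ x : {x : Fin l.length // (l[x]).len ≤ 4 * h'},
      ∃ Ah : Fm ((E → Bool) → Bool), Ah.all (fun g => Dg (rl g) t ∧ Sup σ g) ∧
        CE ((fam'.up hst hconn M hDM).P ε hε) F k (l[x.1]) (vl Ah) ∧ Ah.len ≤ H := by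
    intro x
    obtain ⟨Ah, h1, h2, h3⟩ := mid ((fam'.up hst hconn M hDM).P ε hε) F k t h hh htk'
      (by rw [(fam'.up hst hconn M hDM).hM]; exact hkM) v0
      (Sup σ) (l[x.1]) (by
        refine le_trans ?_ hsize
        have := x.2
        exact Nat.mul_le_mul_left _ (by omega)) (fun B hB hBl => by
        obtain ⟨g, h1, h2, h3⟩ := hrep B (by
          show B ∈ (deep v0 (j + 1) Bs).flatMap (allInst v0)
          exact List.mem_flatMap.mpr ⟨l[x.1], List.getElem_mem _, hB⟩) hBl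
        exact ⟨g, ((fam'.up hst hconn M hDM).dg _ _ _ _).mpr h1, h2, h3⟩)
    refine ⟨Ah, all_mono (fun g hg => ⟨((fam'.up hst hconn M hDM).dg _ _ _ _).mp hg.1, hg.2⟩)
      Ah h1, h2, ?_⟩
    have h4 : h * Ah.len ≤ h * H := by
      refine le_trans h3 (le_trans ?_ hHh)
      have := x.2
      omega
    exact Nat.le_of_mul_le_mul_left h4 (by omega)
  choose Ah hAh1 hAh2 hAh3 using hmid
  have hcard : (Fintype.card {x : Fin l.length // (l[x]).len ≤ 4 * h'} : ℝ) * 2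
      < (u0 / 4) ^ (t + 1) := by
    refine lt_of_le_of_lt ?_ hcnt
    have h1 : Fintype.card {x : Fin l.length // (l[x]).len ≤ 4 * h'} ≤ l.length := by
      refine (Fintype.card_subtype_le _).trans ?_
      simp
    have h2 := length_deep v0 Bs s hs (j + 1)
    rw [← hl] at h2
    have h3 : Fintype.card {x : Fin l.length // (l[x]).len ≤ 4 * h'}
        ≤ cnt * (3 * (s + 3 * (j + 1)) ^ 2) ^ (j + 1) :=
      (h1.trans h2).trans (Nat.mul_le_mul_right _ hL)
    have h4 : (Fintype.card {x : Fin l.length // (l[x]).len ≤ 4 * h'} : ℝ)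
        ≤ ((cnt * (3 * (s + 3 * (j + 1)) ^ 2) ^ (j + 1) : ℕ) : ℝ) := by exact_mod_cast h3
    linarith
  obtain ⟨ω, hω, hgood⟩ := stage_exists fam' hst hch hG hε u0 u η hu0 hu hη hlip ht hH hW' hC hσ
    hK hM Ah hAh1 hAh3 hcard
  have hac := mem_Omg.mp hω
  refine IH V v0 (fun v z => F v (rs lvi ω.1 ω.2 z)) (eN src tgt ε cen ω.1 ω.2)
    (eN_sq hε ω.2) ((prod_eN hst hε hac).trans hprod) Bs hs hL (fun B hB hBl => ?_) As
    (fun A hA => ?_) hfin
  · obtain ⟨x, hx, rfl⟩ := List.mem_iff_getElem.mp hB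
    obtain ⟨g, hg1, hg2, hg3⟩ := hgood ⟨⟨x, hx⟩, hBl⟩
    refine ⟨g, hg1, hg2, ?_⟩
    have h1 := ce_down fam' hst hconn M hDM hε F k hac _ (hAh2 ⟨⟨x, hx⟩, hBl⟩)
    have h2 := ce_mono3 hDk h1
    exact ce_congr h2 ((fam'.dg _ _ _ _).mpr (Dg_mono hg1 htk)) hg3
  · obtain ⟨h1, h2⟩ := hAs A hA
    refine ⟨fun B hB => ?_, ?_⟩
    · have h3 := dg_rs hst.card (c := ω.1) (h1 B hB) ω.2
      exact Dg_mono h3 hDK
    · exact PFam.up_Z fam' hst hconn M hDM hε h2 hac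

end Pool.Agent.H3.Ac
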