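import Mathlib
import Pool.Agent.H3.Ac.LevA
import Pool.Agent.H3.Ac.Acm
import Pool.Agent.H3.Ac.Bsv
import Pool.Agent.H3.Frg2.Eval

set_option autoImplicit false
set_option linter.unusedSectionVars false

/-!
# The bottom level: the gadget graph
-/

namespace Pool.Agent.H3.Ac

open Finset Pool.Agent.H3.Frg Pool.Agent.H3.Frg2 Pool.Agent.H3.Frg3

/-- the passive data: a proof whose formulas are in the list `S`, closed under subformulas, of left
depth at most `d` over the formulas of length at most `s`, which are in `Bs` -/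
def PrA (s d ℓ cnt2 : ℕ) (V : Type) (v0 : V) (Bs As : List (Fm V)) : Prop :=
  ∃ (Sch : Set (Fm ℕ)) (L : ℕ) (pf : Fin L → Fm V) (S : List (Fm V)),
    (∀ ψ ∈ Sch, ∀ x : ℕ → Bool, ψ.eval x = true) ∧ (∀ ψ ∈ Sch, ψ.len ≤ ℓ) ∧
    IsProof Sch pf ∧ (∀ i, pf i ∈ S) ∧ SubCl {A | A ∈ S} ∧ S.length ≤ cnt2 ∧
    (∀ A ∈ S, ldep s A ≤ d) ∧ (∀ A ∈ S, ldep s A = 0 → A ∈ Bs) ∧
    (∀ A ∈ As, A ∈ S ∧ ldep s A = 0) ∧ ∃ i, pf i = As.foldr Fm.imp (bot v0)

theorem mem_allInst_self {V : Type} (v : V) (A : Fm V) : A ∈ allInst v A := by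
  unfold allInst
  rw [List.mem_flatMap]
  refine ⟨A, ?_, List.mem_cons_self⟩
  cases A <;> simp [Fm.subs]

variable {m : ℕ} {R : Type} [Fintype R] [DecidableEq R]

theorem levA_base (hm : Even m) {rsrc rtgt : R → GW m} {D0 q : ℕ}
    (hG : LG (Sum.elim (gsrc m) rsrc) (Sum.elim (gtgt m) rtgt) D0 1000 q)
    {d M K : ℕ} (hx : Expd (Sum.elim (gsrc m) rsrc) (Sum.elim (gtgt m) rtgt) d)
    (hMd : 2 * M ≤ d) (hK : 3 * K ≤ Fintype.card (GW m))
    (hKd : ∀ O : Finset (GW m), O.card ≤ K →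
      M + (bd (Sum.elim (gsrc m) rsrc) (Sum.elim (gtgt m) rtgt) O).card ≤ d)
    {h k Kx t σ s cnt dd ℓ cnt2 : ℕ} (hsh : s ≤ 4 * h) (hkM : 2 * (k + Kx) ≤ M)
    (hσ1 : 1 ≤ σ) (hσM : 3 * σ ≤ M)
    (hroom : 2002 * (3 * σ) ≤ m + 1) (hS4 : 4 * (1000 * (3 * σ)) ≤ (m + 1) ^ 2)
    (hcnt : cnt2 ≤ 2 ^ σ) (hNN : NN σ (2 * σ * (ℓ + 4) + 8 * σ) dd ≤ m + 1) :
    LevA (PFam.bottom d M K hx hMd hK hKd) (PrA s dd ℓ cnt2) 0 h k Kx t σ s cnt := by
  classical
  intro V v0 F ε hε hprod Bs hs hL hrep As hAs hPr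
  obtain ⟨Sch, L, pf, S, htaut, hlen, hpf, hpfS, hSub, hSl, hSd, hSB, hAsS, hfin⟩ := hPr
  set fam := PFam.bottom d M K hx hMd hK hKd with hfam
  set P := fam.P ε hε with hP
  have hPM : P.M = M := rfl
  obtain ⟨a, ha⟩ := exists_a hm rsrc rtgt (con_of_cheeger hG.cheeger) ε hε hprod
  -- the chosen values of the short formulas
  have hch : ∀ A : Fm V, A ∈ S → ldep s A = 0 →
      ∃ (g : (GE m ⊕ R → Bool) → Bool) (T : Finset (GE m ⊕ R)), T.card ≤ σ ∧
        (∀ z z', (∀ e ∈ T, z e = z' e) → g z = g z') ∧ CE P F k A g := by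
    intro A hA h0
    have hAB := hSB A hA h0
    obtain ⟨g, h1, ⟨T, hT1, hT2⟩, h3⟩ := hrep A (by
      show A ∈ (deep v0 0 Bs).flatMap (allInst v0)
      exact List.mem_flatMap.mpr ⟨A, hAB, mem_allInst_self v0 A⟩) ((hs A hAB).trans hsh)
    exact ⟨g, T, hT1, fun z z' hz => QLeaf.congr_of_supp hT2 hz, h3⟩
  choose! G T hT1 hT2 hT3 using hch
  set val : Fm V → Finset (Sym2 (Fin (m + 1))) → Option Bool := fun A => bval m a (T A) (G A)
    with hval
  have hvs : ∀ A M b, val A M = some b → nds m (T A) ⊆ cov M ∧ b = G A (xM m a M) := by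
    intro A M b h
    simp only [hval, bval] at h
    split_ifs at h with h1
    · exact ⟨h1, (Option.some.inj h).symm⟩
  have hzero : ∀ (p : (GE m ⊕ R → Bool) → ℝ), P.Z p → ∀ U : Finset (GE m ⊕ R),
      U.card ≤ 3 * σ → (∀ z z', (∀ e ∈ U, z e = z' e) → p z = p z') →
      ∀ M, IsM M → nds m U ⊆ cov M → p (xM m a M) = 0 := by
    intro p hp U hU hpU M hM hcov
    exact bval_zero hG.cheeger hε ha hp U (hU.trans hσM) hpU
      (le_trans (Nat.mul_le_mul_left _ hU) hroom)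
      (le_trans (Nat.mul_le_mul_left _ (Nat.mul_le_mul_left _ hU)) hS4) hM hcov
  have h2k : 2 * k ≤ P.M := by rw [hPM]; omega
  have hdis : ∀ A : Fm V, ldep s A ≤ 0 → ldep s A = 0 := fun A h => by omega
  refine ac_levels dd s σ ℓ hσ1 S hSub (hSl.trans hcnt) hSd Sch htaut hlen pf hpf hpfS v0 As hAsS
    hfin dd 0 (Fin (m + 1)) val (by omega) (fun A hA h0 => ?_) ⟨?_, ?_⟩ ?_ ?_
  · exact bval_Val a σ (8 * σ) (by omega) (T A) (hT1 A hA (hdis A h0)) (G A)
      (hT2 A hA (hdis A h0))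
  · -- negation
    rintro A ⟨hnA, hn0⟩ M hM x y hx' hy
    have hn0' := hdis _ hn0
    have hA := hSub.1 A hnA
    have hA0 : ldep s A = 0 := hdis _ (ldep_neg_le hn0)
    obtain ⟨c1, rfl⟩ := hvs _ _ _ hx'
    obtain ⟨c2, rfl⟩ := hvs _ _ _ hy
    obtain ⟨-, a', ha', h1⟩ := ce_neg_iff.1 (hT3 _ hnA hn0')
    have h2 := ce_uniq h2k ha' (hT3 A hA hA0)
    have h3 : P.Z (fun z => rl (G (Fm.neg A)) z - (1 - rl (G A) z)) :=
      P.z_congr (P.z_add h1 (P.z_smul (-1) h2)) fun z => by ring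
    have h4 := hzero _ h3 (T (Fm.neg A) ∪ T A) (by
      refine (Finset.card_union_le _ _).trans ?_
      have e1 := hT1 _ hnA hn0'
      have e2 := hT1 A hA hA0
      omega) (fun z z' hz => by
        have e1 := hT2 _ hnA hn0' z z' fun e he => hz e (Finset.mem_union_left _ he)
        have e2 := hT2 A hA hA0 z z' fun e he => hz e (Finset.mem_union_right _ he)
        simp only [rl, e1, e2]) M hM (by
        rw [nds_union]; exact Finset.union_subset c2 c1)
    simp only [rl] at h4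
    cases hg1 : G (Fm.neg A) (xM m a M) <;> cases hg2 : G A (xM m a M) <;>
      simp [hg1, hg2] at h4 ⊢
  · -- implication
    rintro A B ⟨hnA, hn0⟩ M hM x y w hx' hy hw
    have hn0' := hdis _ hn0
    obtain ⟨hA, hB⟩ := hSub.2 A B hnA
    obtain ⟨hA0', hB0'⟩ := ldep_imp_le hn0
    have hA0 := hdis _ hA0'
    have hB0 := hdis _ hB0'
    obtain ⟨c1, rfl⟩ := hvs _ _ _ hx'
    obtain ⟨c2, rfl⟩ := hvs _ _ _ hy
    obtain ⟨c3, rfl⟩ := hvs _ _ _ hw
    obtain ⟨-, a', b', ha', hb', h1⟩ := ce_imp_iff.1 (hT3 _ hnA hn0')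
    have h2 := ce_uniq h2k ha' (hT3 A hA hA0)
    have h3 := ce_uniq h2k hb' (hT3 B hB hB0)
    have h4 := P.peq_imp (ce_dg ha') (ce_dg (hT3 A hA hA0)) (ce_dg hb') (ce_dg (hT3 B hB hB0))
      (by omega) h2 h3
    have h5 : P.Z (fun z => rl (G (Fm.imp A B)) z - (1 - rl (G A) z * (1 - rl (G B) z))) :=
      P.z_congr (P.z_add h1 h4) fun z => by ring
    have h6 := hzero _ h5 (T (Fm.imp A B) ∪ (T A ∪ T B)) (by
      refine (Finset.card_union_le _ _).trans ?_
      have e0 := Finset.card_union_le (T A) (T B)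
      have e1 := hT1 _ hnA hn0'
      have e2 := hT1 A hA hA0
      have e3 := hT1 B hB hB0
      omega) (fun z z' hz => by
        have e1 := hT2 _ hnA hn0' z z' fun e he => hz e (Finset.mem_union_left _ he)
        have e2 := hT2 A hA hA0 z z' fun e he => hz e (Finset.mem_union_right _
          (Finset.mem_union_left _ he))
        have e3 := hT2 B hB hB0 z z' fun e he => hz e (Finset.mem_union_right _
          (Finset.mem_union_right _ he))
        simp only [rl, e1, e2, e3]) M hM (by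
        rw [nds_union, nds_union]
        exact Finset.union_subset c3 (Finset.union_subset c1 c2))
    simp only [rl] at h6
    cases hg1 : G (Fm.imp A B) (xM m a M) <;> cases hg2 : G A (xM m a M) <;>
      cases hg3 : G B (xM m a M) <;> simp [hg1, hg2, hg3] at h6 ⊢
  · -- axioms
    intro A hA M hM hf
    obtain ⟨hAS, hA0⟩ := hAsS A hA
    obtain ⟨h1, h2⟩ := hAs A hA
    obtain ⟨c1, hb⟩ := hvs _ _ _ hf
    have h3 := ce_hv (K := Kx) (by rw [hPM]; omega) (fun B hB => (fam.dg _ _ _ _).mpr (h1 B hB))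
      (hT3 A hAS hA0)
    have h4 : P.Z (fun z => rl (G A) z - 1) := P.z_congr (P.z_add h3 h2) fun z => by ring
    have h5 := hzero _ h4 (T A) (by have := hT1 A hAS hA0; omega) (fun z z' hz => by
      have e1 := hT2 A hAS hA0 z z' hz
      simp only [rl, e1]) M hM c1
    simp only [rl] at h5
    rw [← hb] at h5
    simp at h5
  · rw [Fintype.card_fin]; exact hNN

end Pool.Agent.H3.Ac
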