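import Mathlib
import Pool.Agent.H3.Ac.Defs
import Pool.Agent.H3.Frg3.RGraph
import Pool.Agent.H3.Frg3.NetLG

set_option autoImplicit false
set_option linter.unusedSectionVars false

/-!
# Module GAD: the gadget graph

* `gad_ne`: `i.castSucc ≠ i.succ`; `(v, u) ≠ (u, v)` for `v < u`.
* `gad_deg`: at `w = (v, i)` there are at most: the path edge to `(v, i + 1)`, the path edge from
  `(v, i - 1)`, and the pair edge of `{v, i}` (one of `v < i`, `i < v`).
* `exists_gad`: take `R` from `exists_rgraph 3 (GW m)` (`Frg3/RGraph.lean`): degree at most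
  `3 + (2 * 3 + 280) = 289 ≤ dgf 1 = 532`, `cheeger` from `R` alone (the boundary in the union contains
  that of `R`), `peel` exactly as in `net_LG` (`Frg3/NetLG.lean`): otherwise
  `∑_{w ∈ X} toOut ≤ ∑_{w ∈ X} toIn`, but the gadget contributes at most `3 |X|` to the right side.
  See also `bd_union_card`, `toIn_union_card`, `toOut_union_card` in `RGraph.lean`.
  Number of edges: `|GE m| ≤ (m + 1)^2 + (m + 1)^2`, `|R| ≤ (3 + 140) (m + 1)^2`.
-/

namespace Pool.Agent.H3.Ac

open Finset Pool.Agent.H3.Frg Pool.Agent.H3.Frg2 Pool.Agent.H3.Frg3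

variable {m : ℕ}

theorem gad_ne (e : GE m) : gsrc m e ≠ gtgt m e := by
  rcases e with p | p
  · intro h
    have h2 : p.2.castSucc = p.2.succ := congrArg (fun z : GW m => z.2) h
    exact absurd h2 (Fin.castSucc_lt_succ).ne
  · intro h
    have h2 : p.1.1 = p.1.2 := congrArg (fun z : GW m => z.1) h
    exact absurd h2 p.2.ne

theorem gad_deg (w : GW m) : (bd (gsrc m) (gtgt m) {w}).card ≤ 3 := by
  classical
  set A1 : Finset (GE m) := univ.filter (fun e => ∃ p : Fin (m + 1) × Fin m,
    e = Sum.inl p ∧ (p.1, p.2.castSucc) = w) with hA1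
  set A2 : Finset (GE m) := univ.filter (fun e => ∃ p : Fin (m + 1) × Fin m,
    e = Sum.inl p ∧ (p.1, p.2.succ) = w) with hA2
  set A3 : Finset (GE m) := univ.filter (fun e => ∃ p : {p : Fin (m + 1) × Fin (m + 1) // p.1 < p.2},
    e = Sum.inr p ∧ ((p.1.1, p.1.2) = w ∨ (p.1.2, p.1.1) = w)) with hA3
  have hc1 : A1.card ≤ 1 := by
    rw [Finset.card_le_one]
    intro a ha b hb
    rw [hA1, Finset.mem_filter] at ha hb
    obtain ⟨-, p, rfl, hp⟩ := ha
    obtain ⟨-, q, rfl, hq⟩ := hb
    rw [← hq, Prod.mk.injEq] at hp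
    have h1 : p.2 = q.2 := Fin.castSucc_injective _ hp.2
    rw [Prod.ext hp.1 h1]
  have hc2 : A2.card ≤ 1 := by
    rw [Finset.card_le_one]
    intro a ha b hb
    rw [hA2, Finset.mem_filter] at ha hb
    obtain ⟨-, p, rfl, hp⟩ := ha
    obtain ⟨-, q, rfl, hq⟩ := hb
    rw [← hq, Prod.mk.injEq] at hp
    have h1 : p.2 = q.2 := Fin.succ_injective _ hp.2
    rw [Prod.ext hp.1 h1]
  have hc3 : A3.card ≤ 1 := by
    rw [Finset.card_le_one]
    intro a ha b hb
    rw [hA3, Finset.mem_filter] at ha hb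
    obtain ⟨-, p, rfl, hp⟩ := ha
    obtain ⟨-, q, rfl, hq⟩ := hb
    have hp2 := p.2
    have hq2 := q.2
    have h1 : p.1 = q.1 := by
      rcases hp with hp | hp <;> rcases hq with hq | hq
      · rw [← hq, Prod.mk.injEq] at hp
        exact Prod.ext hp.1 hp.2
      · exfalso
        rw [← hq, Prod.mk.injEq] at hp
        rw [hp.1, hp.2] at hp2
        exact lt_asymm hp2 hq2
      · exfalso
        rw [← hq, Prod.mk.injEq] at hp
        rw [hp.1, hp.2] at hp2
        exact lt_asymm hp2 hq2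
      · rw [← hq, Prod.mk.injEq] at hp
        exact Prod.ext hp.2 hp.1
    rw [Subtype.ext h1]
  have hsub : bd (gsrc m) (gtgt m) {w} ⊆ A1 ∪ (A2 ∪ A3) := by
    intro e he
    rw [mem_bd] at he
    simp only [Finset.mem_singleton] at he
    rw [Finset.mem_union, Finset.mem_union]
    have h1 : gsrc m e = w ∨ gtgt m e = w := by tauto
    rcases e with p | p
    · rcases h1 with h1 | h1
      · left
        rw [hA1, Finset.mem_filter]
        exact ⟨mem_univ _, p, rfl, h1⟩
      · right; left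
        rw [hA2, Finset.mem_filter]
        exact ⟨mem_univ _, p, rfl, h1⟩
    · right; right
      rw [hA3, Finset.mem_filter]
      exact ⟨mem_univ _, p, rfl, h1⟩
  have h1 := Finset.card_le_card hsub
  have h2 := Finset.card_union_le A1 (A2 ∪ A3)
  have h3 := Finset.card_union_le A2 A3
  omega

theorem gad_toIn (w : GW m) (X : Finset (GW m)) : (toIn (gsrc m) (gtgt m) w X).card ≤ 3 := by
  refine (Finset.card_le_card ?_).trans (gad_deg w)
  intro e he
  rw [toIn, Finset.mem_filter] at he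
  have hne := gad_ne e
  rw [mem_bd]
  simp only [Finset.mem_singleton]
  rcases he.2 with ⟨h, -⟩ | ⟨h, -⟩
  · intro hc
    exact hne (h.trans (hc.mp h).symm)
  · intro hc
    exact hne ((hc.mpr h).trans h.symm)

theorem exists_gad (hm : 1000 ≤ (m + 1) ^ 2) :
    ∃ (R : Type) (_ : Fintype R) (_ : DecidableEq R) (rsrc rtgt : R → GW m),
      LG (Sum.elim (gsrc m) rsrc) (Sum.elim (gtgt m) rtgt) (dgf 1) 1000 1024 ∧
      Fintype.card (GE m ⊕ R) ≤ dgf 1 * (m + 1) ^ 2 := by
  have hcard : Fintype.card (GW m) = (m + 1) ^ 2 := by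
    rw [Fintype.card_prod, Fintype.card_fin, sq]
  obtain ⟨R, iF, iD, rsrc, rtgt, h1, h2, h3, h4, h5⟩ := exists_rgraph 3 (GW m) (by rw [hcard]; exact hm)
  have hd : dgf 1 = 532 := rfl
  refine ⟨R, iF, iD, rsrc, rtgt, ⟨?_, ?_, ?_, ?_⟩, ?_⟩
  · rintro (e | e)
    · exact gad_ne e
    · exact h1 e
  · intro w
    rw [bd_union_card, hd]
    have h6 := gad_deg w
    have h7 := h2 w
    omega
  · intro X
    refine (h3 X).trans (Nat.mul_le_mul_left _ ?_)
    rw [bd_union_card]
    exact Nat.le_add_left _ _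
  · intro X hX hXn
    by_contra hcon
    push Not at hcon
    have hsum := Finset.sum_le_sum hcon
    rw [Finset.sum_congr rfl fun w _ => toIn_union_card (gsrc m) (gtgt m) rsrc rtgt w X,
      Finset.sum_congr rfl fun w _ => toOut_union_card (gsrc m) (gtgt m) rsrc rtgt w X,
      Finset.sum_add_distrib, Finset.sum_add_distrib] at hsum
    have h6 : ∑ w ∈ X, (toIn (gsrc m) (gtgt m) w X).card ≤ ∑ _w ∈ X, 3 :=
      Finset.sum_le_sum fun w _ => gad_toIn w X
    rw [Finset.sum_const, smul_eq_mul] at h6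
    have h7 := h4 X hX hXn
    omega
  · rw [Fintype.card_sum, Fintype.card_sum, Fintype.card_prod, Fintype.card_fin, Fintype.card_fin, hd]
    have h6 : Fintype.card {p : Fin (m + 1) × Fin (m + 1) // p.1 < p.2} ≤ (m + 1) ^ 2 := by
      refine (Fintype.card_subtype_le _).trans ?_
      rw [Fintype.card_prod, Fintype.card_fin, sq]
    have h7 : (m + 1) * m ≤ (m + 1) ^ 2 := by nlinarith
    rw [hcard] at h5
    omega

end Pool.Agent.H3.Ac
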