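import Mathlib
import Pool.Agent.H3.Ac.Bas
import Pool.Agent.H3.Ac.Gad
import Pool.Agent.H3.Frg3.QTower

set_option autoImplicit false
set_option linter.unusedSectionVars false

/-!
# The tower of graphs over the gadget graph
-/

namespace Pool.Agent.H3.Ac

open Finset Pool.Agent.H3.Frg Pool.Agent.H3.Frg2 Pool.Agent.H3.Frg3

theorem expd_of_ch {E Wv : Type} [Fintype E] [DecidableEq E] [Fintype Wv] [DecidableEq Wv]
    {src tgt : E → Wv} {c0 d : ℕ}
    (hch : ∀ X : Finset Wv, min X.card (Fintype.card Wv - X.card) ≤ c0 * (bd src tgt X).card)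
    (hd : 3 * c0 * d < Fintype.card Wv) (h3 : 3 ≤ Fintype.card Wv) : Expd src tgt d := by
  refine ⟨fun X h1 h2 => ?_, fun X h1 h2 => ?_, h3⟩
  · have h4 := hch X
    by_contra h5
    push Not at h5
    have h6 : c0 * (bd src tgt X).card ≤ c0 * d := Nat.mul_le_mul_left _ h5
    have h7 : 3 * c0 * d = 3 * (c0 * d) := by ring
    have hle : X.card ≤ Fintype.card Wv := Finset.card_le_univ X
    rcases le_total X.card (Fintype.card Wv - X.card) with h8 | h8
    · rw [min_eq_left h8] at h4; omega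
    · rw [min_eq_right h8] at h4; omega
  · have h4 := hch X
    rw [h2, Finset.card_empty, mul_zero] at h4
    have hle : X.card ≤ Fintype.card Wv := Finset.card_le_univ X
    rcases le_total X.card (Fintype.card Wv - X.card) with h8 | h8
    · rw [min_eq_left h8] at h4
      exact Finset.card_eq_zero.mp (by omega)
    · rw [min_eq_right h8] at h4; omega

/-- the additional numerical conditions -/
structure Na (J m n t X Dm Mt K s0 s dd ℓ cnt2 : ℕ) : Prop where
  /-- size of the complete graph -/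
  nm : n ≤ (m + 1) ^ 2
  /-- size of short formulas -/
  ss : s ≤ s0
  /-- size of short formulas -/
  sx : s ≤ 16 * X ^ J
  /-- room for sets of axioms -/
  k4 : dgf 1 * K ≤ Mt * Dm ^ J
  /-- number of variables -/
  sm : 3 * (4 * t * 2 ^ t) ≤ Mt * Dm ^ J
  /-- room -/
  rm : 2002 * (3 * (4 * t * 2 ^ t)) ≤ m + 1
  /-- room -/
  r4 : 4 * (1000 * (3 * (4 * t * 2 ^ t))) ≤ (m + 1) ^ 2
  /-- number of formulas -/
  cn : cnt2 ≤ 2 ^ (4 * t * 2 ^ t)
  /-- room for the levels -/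
  nn : NN (4 * t * 2 ^ t) (2 * (4 * t * 2 ^ t) * (ℓ + 4) + 8 * (4 * t * 2 ^ t)) dd ≤ m + 1

theorem towerA {J m n k Dm : ℕ} (hm : Even m) (hJD : dgf (J + 1) ≤ Dm) (hn1 : 1000 ≤ n)
    (hnm : n ≤ (m + 1) ^ 2) (j : ℕ) : j ≤ J →
    ∃ (E Wv : Type) (_ : Fintype E) (_ : DecidableEq E) (_ : Fintype Wv) (_ : DecidableEq Wv)
      (src tgt : E → Wv), LG src tgt (dgf (j + 1)) 1000 1024 ∧
      Fintype.card Wv = (m + 1) ^ 2 * ((k + 1) * 2 ^ k) ^ j ∧
      Fintype.card E ≤ dgf (j + 1) * Fintype.card Wv ∧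
      ∀ (t X kt Kt Mt K s0 ℓ cnt : ℕ) (u0 η : ℝ),
      Nq J n k t X Dm kt Kt Mt K s0 ℓ cnt u0 η →
      ∀ (s dd cnt2 : ℕ), Na J m n t X Dm Mt K s0 s dd ℓ cnt2 →
      ∃ fam : PFam src tgt, fam.M = Mt * Dm ^ (J - j) ∧ fam.K = K ∧
      LevA fam (PrA s dd ℓ cnt2) j (4 * X ^ (J - j)) (kt * Dm ^ (J - j)) (Kt * Dm ^ (J - j)) t
        (4 * t * 2 ^ t) s cnt := by
  have hDm : 80 ≤ Dm := (one_le_dgf (J + 1)).trans hJD
  have hDp : ∀ i : ℕ, 1 ≤ Dm ^ i := fun i => Nat.one_le_pow _ _ (by omega)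
  have hle : ∀ a i : ℕ, a ≤ a * Dm ^ i := fun a i => Nat.le_mul_of_pos_right _ (hDp i)
  induction j with
  | zero =>
    intro _
    obtain ⟨R, iR, iDR, rsrc, rtgt, hG, hE⟩ := exists_gad (hn1.trans hnm)
    have hcardW : Fintype.card (GW m) = (m + 1) ^ 2 := by
      rw [Fintype.card_prod, Fintype.card_fin, sq]
    refine ⟨GE m ⊕ R, GW m, inferInstance, inferInstance, inferInstance, inferInstance,
      Sum.elim (gsrc m) rsrc, Sum.elim (gtgt m) rtgt, hG, ?_, ?_, ?_⟩
    · rw [hcardW]; simp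
    · rw [hcardW]; exact hE
    · intro t X kt Kt Mt K s0 ℓ cnt u0 η hN s dd cnt2 hA
      have ht1 := hN.t1
      have hx : Expd (Sum.elim (gsrc m) rsrc) (Sum.elim (gtgt m) rtgt) (2 * (Mt * Dm ^ J)) :=
        expd_of_ch hG.cheeger (by rw [hcardW]; exact lt_of_lt_of_le hN.n2 hnm)
          (by rw [hcardW]; omega)
      have hKbot : ∀ O : Finset (GW m), O.card ≤ K →
          Mt * Dm ^ J + (bd (Sum.elim (gsrc m) rsrc) (Sum.elim (gtgt m) rtgt) O).card
            ≤ 2 * (Mt * Dm ^ J) := by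
        intro O hO
        have h1 : _ ≤ dgf 1 * O.card := card_bd_le3 hG.deg O
        have h2 := hA.k4
        have h3 : dgf 1 * O.card ≤ dgf 1 * K := Nat.mul_le_mul_left _ hO
        omega
      have htkt : t ≤ kt := by
        refine le_trans ?_ hN.k1
        exact Nat.le_mul_of_pos_right _ (by omega)
      refine ⟨PFam.bottom (2 * (Mt * Dm ^ J)) (Mt * Dm ^ J) K hx le_rfl
        (by rw [hcardW]; exact hN.n3.trans hnm) hKbot, rfl, rfl, ?_⟩
      refine levA_base hm hG hx le_rfl _ hKbot ?_ ?_ ?_ hA.sm hA.rm hA.r4 hA.cn hA.nn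
      · refine hA.sx.trans (le_of_eq ?_)
        rw [Nat.sub_zero]; ring
      · rw [Nat.sub_zero, ← add_mul, ← mul_assoc]
        refine Nat.mul_le_mul_right _ (le_trans ?_ hN.k3)
        exact Nat.mul_le_mul_right _ (by omega)
      · exact Nat.mul_pos (by omega) (by positivity)
  | succ j ih =>
    intro hj
    obtain ⟨E', Wv', iE', iDE', iW', iDW', src', tgt', hG, hcW, hcE, hlev⟩ :=
      ih (by omega)
    have hD1 : 1 ≤ dgf (j + 1) := le_trans (by norm_num) (one_le_dgf (j + 1))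
    have hDjDm : dgf (j + 1) ≤ Dm := (dgf_mono (by omega)).trans hJD
    have hkk : 1 ≤ (k + 1) * 2 ^ k := Nat.mul_pos (by omega) (by positivity)
    have hnW : n ≤ Fintype.card Wv' := by
      rw [hcW]; exact hnm.trans (Nat.le_mul_of_pos_right _ (Nat.pow_pos hkk))
    have hcNV : Fintype.card (NV Wv' k) = Fintype.card Wv' * ((k + 1) * 2 ^ k) := card_NV
    have hnNV : n ≤ Fintype.card (NV Wv' k) := by
      rw [hcNV]; exact hnW.trans (Nat.le_mul_of_pos_right _ hkk)
    obtain ⟨R, iR, iDR, rsrc, rtgt, r1, r2, r3, r4, r5⟩ :=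
      exists_rgraph (dgf (j + 1) + 4) (NV Wv' k) (by omega)
    have hLG := net_LG hG.loopless hG.deg r1 r2 r3 r4
    have hdeq : dgf (j + 1) + 4 + (2 * (dgf (j + 1) + 4) + 280) = dgf (j + 1 + 1) := by
      show _ = 3 * dgf (j + 1) + 292
      ring
    rw [hdeq] at hLG
    have hst := net_stg (k := k) hD1 hG.loopless hG.deg rsrc rtgt
    have hneW : Nonempty Wv' := Fintype.card_pos_iff.mp (by omega)
    have hneC : Nonempty (Ch E' Wv' k) := ⟨(fun _ _ => false, fun _ _ => false)⟩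
    have hconn : Con (nsrc src' rsrc) (ntgt tgt' rtgt) := con_of_cheeger hLG.cheeger
    refine ⟨NE E' Wv' k R, NV Wv' k, inferInstance, inferInstance, inferInstance, inferInstance,
      nsrc src' rsrc, ntgt tgt' rtgt, hLG, ?_, ?_, ?_⟩
    · rw [hcNV, hcW, pow_succ]; ring
    · rw [card_NE]
      have h1 : Fintype.card E' * 2 ^ k ≤ dgf (j + 1) * (Fintype.card Wv' * ((k + 1) * 2 ^ k)) := by
        calc Fintype.card E' * 2 ^ k ≤ dgf (j + 1) * Fintype.card Wv' * 2 ^ k :=
              Nat.mul_le_mul_right _ hcE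
          _ = dgf (j + 1) * (Fintype.card Wv' * (1 * 2 ^ k)) := by ring
          _ ≤ _ := Nat.mul_le_mul_left _ (Nat.mul_le_mul_left _ (Nat.mul_le_mul_right _
              (by omega)))
      have h2 : Fintype.card Wv' * (k * (2 ^ k * 2))
          ≤ 2 * (Fintype.card Wv' * ((k + 1) * 2 ^ k)) := by
        calc Fintype.card Wv' * (k * (2 ^ k * 2)) = 2 * (Fintype.card Wv' * (k * 2 ^ k)) := by
              ring
          _ ≤ _ := Nat.mul_le_mul_left _ (Nat.mul_le_mul_left _ (Nat.mul_le_mul_right _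
              (by omega)))
      rw [hcNV] at r5 ⊢
      have h3 : dgf (j + 1 + 1) * (Fintype.card Wv' * ((k + 1) * 2 ^ k))
          = dgf (j + 1) * (Fintype.card Wv' * ((k + 1) * 2 ^ k))
            + 2 * (Fintype.card Wv' * ((k + 1) * 2 ^ k))
            + (dgf (j + 1) + 4 + 140) * (Fintype.card Wv' * ((k + 1) * 2 ^ k))
            + (dgf (j + 1) + 146) * (Fintype.card Wv' * ((k + 1) * 2 ^ k)) := by
        show (3 * dgf (j + 1) + 292) * _ = _
        ring
      rw [h3]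
      omega
    · intro t X kt Kt Mt K s0 ℓ cnt u0 η hN s dd cnt2 hA
      have htkt : t ≤ kt := by
        refine le_trans ?_ hN.k1
        exact Nat.le_mul_of_pos_right _ (by omega)
      have hX : ∀ i : ℕ, 4 ≤ 4 * X ^ i := fun i =>
        Nat.le_mul_of_pos_right _ (Nat.pow_pos hN.x1)
      have ht1 := hN.t1
      obtain ⟨fam', hfM, hfK, hlev⟩ := hlev t X kt Kt Mt K s0 ℓ cnt u0 η hN s dd cnt2 hA
      have hsub : J - j = (J - (j + 1)) + 1 := by omega
      set i := J - (j + 1) with hi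
      rw [hsub] at hfM hlev
      have hDM : dgf (j + 1) * (Mt * Dm ^ i) ≤ fam'.M := by
        rw [hfM]
        calc dgf (j + 1) * (Mt * Dm ^ i) ≤ Dm * (Mt * Dm ^ i) := Nat.mul_le_mul_right _ hDjDm
          _ = Mt * Dm ^ (i + 1) := by rw [pow_succ]; ring
      have hu4 := hN.u1
      have hu1 : 1 ≤ u0 := by linarith
      have hη : (dgf (j + 1) : ℝ) * (u0 ^ (dgf (j + 1) + 1)) ^ (2 * dgf (j + 1)) / 2 ^ k ≤ η := by
        refine le_trans ?_ hN.e1
        have hc : (dgf (j + 1) : ℝ) ≤ Dm := by exact_mod_cast hDjDm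
        refine div_le_div_of_nonneg_right ?_ (by positivity)
        refine mul_le_mul hc ?_ (by positivity) (by positivity)
        calc (u0 ^ (dgf (j + 1) + 1)) ^ (2 * dgf (j + 1))
              ≤ (u0 ^ (Dm + 1)) ^ (2 * dgf (j + 1)) :=
              pow_le_pow_left₀ (by positivity) (pow_le_pow_right₀ hu1 (by omega)) _
          _ ≤ (u0 ^ (Dm + 1)) ^ (2 * Dm) :=
              pow_le_pow_right₀ (one_le_pow₀ hu1) (by omega)
      have hη0 : 0 < η := by
        refine lt_of_lt_of_le ?_ hη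
        have : (0:ℝ) < dgf (j + 1) := by exact_mod_cast hD1
        positivity
      have hlip : ∀ (Y : Finset (NV Wv' k)) (T : Finset (NE E' Wv' k R)) (e : NE E' Wv' k R),
          Ph (nsrc src' rsrc) (ntgt tgt' rtgt) (nlvi R src' tgt') (u0 ^ (dgf (j + 1) + 1)) Y
            (symmDiff T {e}) ≤ (1 + η) *
          Ph (nsrc src' rsrc) (ntgt tgt' rtgt) (nlvi R src' tgt') (u0 ^ (dgf (j + 1) + 1)) Y T := by
        intro Y T e
        refine (res_phi (D := dgf (j + 1)) hD1 hG.loopless hG.deg rsrc rtgt (one_le_pow₀ hu1) Y T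
          e).trans ?_
        refine mul_le_mul_of_nonneg_right (by linarith) ?_
        unfold Ph
        exact Finset.sum_nonneg fun c _ => by positivity
      refine ⟨fam'.up hst hconn (Mt * Dm ^ i) hDM, rfl, hfK, ?_⟩
      have hfM' : Mt ≤ fam'.M := by rw [hfM]; exact hle _ _
      refine levA_step (H := 1 + 72 * X) (D' := dgf (j + 1)) (c0 := 1000) (c0' := 1000) fam' hst
        hLG.cheeger hG hconn u0 (u0 ^ (dgf (j + 1) + 1)) η hu4 rfl hη0 hlip hN.e2 hN.e3
        (by omega) (hN.n5.trans hnW) le_rfl ?_ ?_ hlev (Mt * Dm ^ i) hDM ?_ ?_ (hX i) ?_ ?_ ?_ ?_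
        ?_ ?_
      · rw [hfK]
        exact (Nat.mul_le_mul_right _ hDjDm).trans hN.p1
      · refine le_trans ?_ (hN.p2.trans hfM')
        refine Nat.add_le_add ?_ (Nat.mul_le_mul_right _ hDjDm)
        exact Nat.mul_le_mul hDjDm (Nat.mul_le_mul_right _ hDjDm)
      · calc dgf (j + 1) * (kt * Dm ^ i) ≤ Dm * (kt * Dm ^ i) := Nat.mul_le_mul_right _ hDjDm
          _ = kt * Dm ^ (i + 1) := by rw [pow_succ]; ring
      · calc dgf (j + 1) * (Kt * Dm ^ i) ≤ Dm * (Kt * Dm ^ i) := Nat.mul_le_mul_right _ hDjDm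
          _ = Kt * Dm ^ (i + 1) := by rw [pow_succ]; ring
      · exact htkt.trans (hle _ _)
      · exact htkt.trans (hle _ _)
      · show 20 * (kt * Dm ^ i) ≤ Mt * Dm ^ i
        rw [← mul_assoc]
        exact Nat.mul_le_mul_right _ hN.k2
      · calc t * (4 * X ^ i + 18 * (4 * (4 * X ^ (i + 1))))
            = 4 * X ^ i * (t * (1 + 72 * X)) := by rw [pow_succ]; ring
          _ ≤ 4 * X ^ i * (kt * Dm ^ i) := Nat.mul_le_mul_left _ (hN.k1.trans (hle _ _))
      · rw [pow_succ]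
        exact le_of_eq (by ring)
      · refine lt_of_le_of_lt ?_ hN.c1
        have hss := hA.ss
        have h1 : cnt * (3 * (s + 3 * (j + 1)) ^ 2) ^ (j + 1)
            ≤ cnt * (3 * (s0 + 3 * J) ^ 2) ^ J := by
          refine Nat.mul_le_mul_left _ ?_
          calc (3 * (s + 3 * (j + 1)) ^ 2) ^ (j + 1) ≤ (3 * (s0 + 3 * J) ^ 2) ^ (j + 1) :=
                Nat.pow_le_pow_left (Nat.mul_le_mul_left _ (Nat.pow_le_pow_left
                  (by omega) 2)) _
            _ ≤ _ := Nat.pow_le_pow_right (Nat.mul_pos (by norm_num)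
                (Nat.pow_pos (by omega))) hj
        have h2 : ((cnt * (3 * (s + 3 * (j + 1)) ^ 2) ^ (j + 1) : ℕ) : ℝ)
            ≤ ((cnt * (3 * (s0 + 3 * J) ^ 2) ^ J : ℕ) : ℝ) := by exact_mod_cast h1
        linarith

end Pool.Agent.H3.Ac
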