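import Mathlib
import Pool.Agent.H3.Ac.TowA
import Pool.Agent.H3.Ac.SimA
import Pool.Agent.H3.Frg4.FixedC

set_option autoImplicit false
set_option linter.unusedSectionVars false

/-!
# The bound for one CNF, proofs of bounded left depth
-/

namespace Pool.Agent.H3.Ac

open Finset Filter Topology Pool.Agent.H3.Frg Pool.Agent.H3.Frg2 Pool.Agent.H3.Frg3
  Pool.Agent.H3.Frg4

section Subs

variable {V : Type}

theorem self_subs (A : Fm V) : A ∈ A.subs := by
  cases A <;> simp [Fm.subs]

theorem length_subs (A : Fm V) : A.subs.length = A.len := by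
  induction A with
  | var i => rfl
  | neg A ih => simp only [Fm.subs, Fm.len, List.length_cons, ih]
  | imp A B ihA ihB =>
    simp only [Fm.subs, Fm.len, List.length_cons, List.length_append, ihA, ihB]

theorem subs_cl (A : Fm V) : SubCl {B | B ∈ A.subs} := by
  induction A with
  | var i => exact ⟨fun B h => by simp [Fm.subs] at h, fun B C h => by simp [Fm.subs] at h⟩
  | neg A ih =>
    refine ⟨fun B h => ?_, fun B C h => ?_⟩
    · simp only [Set.mem_setOf_eq, Fm.subs, List.mem_cons] at h ⊢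
      rcases h with h | h
      · cases h; exact Or.inr (self_subs _)
      · exact Or.inr (ih.1 B h)
    · simp only [Set.mem_setOf_eq, Fm.subs, List.mem_cons] at h ⊢
      rcases h with h | h
      · cases h
      · have := ih.2 B C h
        exact ⟨Or.inr this.1, Or.inr this.2⟩
  | imp A1 A2 ih1 ih2 =>
    refine ⟨fun B h => ?_, fun B C h => ?_⟩
    · simp only [Set.mem_setOf_eq, Fm.subs, List.mem_cons, List.mem_append] at h ⊢
      rcases h with h | h | h
      · cases h
      · exact Or.inr (Or.inl (ih1.1 B h))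
      · exact Or.inr (Or.inr (ih2.1 B h))
    · simp only [Set.mem_setOf_eq, Fm.subs, List.mem_cons, List.mem_append] at h ⊢
      rcases h with h | h | h
      · cases h
        exact ⟨Or.inr (Or.inl (self_subs _)), Or.inr (Or.inr (self_subs _))⟩
      · have := ih1.2 B C h
        exact ⟨Or.inr (Or.inl this.1), Or.inr (Or.inl this.2)⟩
      · have := ih2.2 B C h
        exact ⟨Or.inr (Or.inr this.1), Or.inr (Or.inr this.2)⟩

theorem ldep_subs {b : ℕ} (A : Fm V) : ∀ B ∈ A.subs, ldep b B ≤ ldep b A := by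
  induction A with
  | var i =>
    intro B hB
    simp only [Fm.subs, List.mem_singleton] at hB
    rw [hB]
  | neg A ih =>
    intro B hB
    simp only [Fm.subs, List.mem_cons] at hB
    rcases hB with rfl | hB
    · exact le_rfl
    · exact (ih B hB).trans (ldep_neg_sub A)
  | imp A1 A2 ih1 ih2 =>
    intro B hB
    simp only [Fm.subs, List.mem_cons, List.mem_append] at hB
    rcases hB with rfl | hB | hB
    · exact le_rfl
    · exact (ih1 B hB).trans (ldep_imp_sub A1 A2).1
    · exact (ih2 B hB).trans (ldep_imp_sub A1 A2).2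

theorem subs_foldr (As : List (Fm V)) (B : Fm V) : ∀ A ∈ As, A ∈ (As.foldr Fm.imp B).subs := by
  induction As with
  | nil => intro A hA; simp at hA
  | cons A' As ih =>
    intro A hA
    simp only [List.foldr_cons, Fm.subs, List.mem_cons, List.mem_append]
    rcases List.mem_cons.mp hA with rfl | hA
    · exact Or.inr (Or.inl (self_subs _))
    · exact Or.inr (Or.inr (ih A hA))

theorem len_of_ldep {b : ℕ} (hb : 1 ≤ b) {A : Fm V} (h : ldep b A = 0) : A.len ≤ b := by
  cases A with
  | var i => simpa [Fm.len] using hb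
  | neg A =>
    simp only [ldep] at h
    split_ifs at h with h1
    exact h1
  | imp A B =>
    simp only [ldep] at h
    split_ifs at h with h1
    · exact h1
    · omega

theorem length_flatMap_le {α β : Type} (l : List α) (f : α → List β) (c : ℕ)
    (h : ∀ a ∈ l, (f a).length ≤ c) : (l.flatMap f).length ≤ l.length * c := by
  induction l with
  | nil => simp
  | cons a l ih =>
    have h1 := h a List.mem_cons_self
    have h2 := ih fun x hx => h x (List.mem_cons_of_mem _ hx)
    rw [List.flatMap_cons, List.length_append, List.length_cons, Nat.add_mul, Nat.one_mul]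
    omega

end Subs

theorem prod_sgn3 {Wv : Type} [Fintype Wv] [DecidableEq Wv] (v1 : Wv) :
    ∏ v : Wv, sg (sgn3 v1 v) = -1 := by
  rw [Finset.prod_eq_single v1]
  · simp [sgn3, sg]
  · intro v _ hv
    simp [sgn3, sg, hv]
  · intro h; exact absurd (mem_univ _) h

theorem fixedA {J m n k Dm : ℕ} (hm : Even m) (hJD : dgf (J + 1) ≤ Dm) (hn1 : 1000 ≤ n)
    (hnm : n ≤ (m + 1) ^ 2) :
    ∃ (d : ℕ) (C : ℕ → Fm ℕ), (∀ i, IsClause Dm (C i)) ∧
      (∀ x, (Fm.neg (bigAnd d C)).eval x = true) ∧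
      n ≤ (Fm.neg (bigAnd d C)).enc.length ∧
      (Fm.neg (bigAnd d C)).enc.length ≤
        ((m + 1) ^ 2 * ((k + 1) * 2 ^ k) ^ J * (2 ^ Dm * (8 * Dm + 8)) + 4) *
        (2 * Nat.size (Dm * ((m + 1) ^ 2 * ((k + 1) * 2 ^ k) ^ J)) + 2) ∧
      ∀ (t X kt Mt K s0 ℓ cnt : ℕ) (u0 η : ℝ), Nq J n k t X Dm kt (Dm + 1) Mt K s0 ℓ cnt u0 η →
        ∀ b e : ℕ, Na J m n t X Dm Mt K s0 b (e + 2) ℓ cnt → 1 ≤ e →
        (m + 1) ^ 2 * ((k + 1) * 2 ^ k) ^ J * (2 ^ Dm * (8 * Dm + 8)) ≤ b → 24 * Dm ^ 2 ≤ b →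
        ∀ Sch : Set (Fm ℕ), (∀ ψ ∈ Sch, ∀ x : ℕ → Bool, ψ.eval x = true) →
        (∀ ψ ∈ Sch, ψ.len ≤ ℓ) → Tau (2 * Dm + 20) (24 * Dm ^ 2 + 4 * Dm + 20) ⊆ Sch →
        ∀ (L : ℕ) (pf : Fin L → Fm ℕ), IsDer Sch (Set.range C) pf →
        (∃ i, pf i = Fm.neg (bigAnd d C)) → ∀ sl : ℕ, (∀ i, (pf i).len ≤ sl) →
        (∀ i, ldep b (pf i) ≤ e) →
        cnt < (L + 2 * (2 * ((m + 1) ^ 2 * ((k + 1) * 2 ^ k) ^ J * 2 ^ Dm)) + 2) *
          (6 * ((m + 1) ^ 2 * ((k + 1) * 2 ^ k) ^ J) + 7) *
          (12 * ((m + 1) ^ 2 * ((k + 1) * 2 ^ k) ^ J * (24 * Dm ^ 2 + 1) + sl +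
            (m + 1) ^ 2 * ((k + 1) * 2 ^ k) ^ J * (2 ^ Dm * (8 * Dm + 8))) + 60) := by
  classical
  obtain ⟨E, Wv, iE, iD, iW, iDW, src, tgt, hG, hcW, hcE, hlev⟩ :=
    towerA (J := J) (n := n) (k := k) (Dm := Dm) hm hJD hn1 hnm J le_rfl
  have hDm : 80 ≤ Dm := (one_le_dgf (J + 1)).trans hJD
  have hkk : 1 ≤ (k + 1) * 2 ^ k := Nat.mul_pos (by omega) (by positivity)
  have hnW : n ≤ Fintype.card Wv := by
    rw [hcW]; exact hnm.trans (Nat.le_mul_of_pos_right _ (Nat.pow_pos hkk))
  have hneW : Nonempty Wv := Fintype.card_pos_iff.mp (by omega)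
  obtain ⟨v1⟩ := hneW
  have hne : ∀ v, (bd src tgt {v}).Nonempty := by
    intro v
    rw [Finset.nonempty_iff_ne_empty]
    intro h0
    have h1 := hG.cheeger {v}
    rw [h0, Finset.card_empty, mul_zero, Finset.card_singleton] at h1
    have : min 1 (Fintype.card Wv - 1) = 1 := min_eq_left (by omega)
    omega
  obtain ⟨v0, -⟩ := hne v1
  have hdeg : ∀ v, (bd src tgt {v}).card ≤ Dm := fun v => (hG.deg v).trans hJD
  -- the clauses
  obtain ⟨P, hP⟩ : ∃ P, P = Idx src tgt v1 := ⟨_, rfl⟩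
  have hPle : P.card ≤ Fintype.card Wv * 2 ^ Dm := by rw [hP]; exact card_Idx_le hdeg v1
  have hleP : Fintype.card Wv ≤ P.card := by rw [hP]; exact le_card_Idx hne v1
  have hP0 : 1 ≤ P.card := by omega
  set φ := P.equivFin with hφ
  set idx : ℕ → (Σ _ : Wv, Finset E) := fun i =>
    ((φ.symm (if h : i < P.card then ⟨i, h⟩ else ⟨0, hP0⟩) : P) : Σ _ : Wv, Finset E) with hidx
  have hidxP : ∀ i, idx i ∈ P := fun i => (φ.symm _).2
  have hidxS : ∀ p ∈ P, ∃ i < P.card, idx i = p := by
    intro p hp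
    refine ⟨(φ ⟨p, hp⟩ : ℕ), (φ ⟨p, hp⟩).isLt, ?_⟩
    rw [hidx]
    simp
  set C0 : ℕ → Fm E := fun i => clp src tgt v0 (idx i) with hC0
  have hsp := fun i => clp_spec hdeg hne v0 (idx i)
  obtain ⟨d, hd⟩ : ∃ d, d = Nat.clog 2 P.card := ⟨_, rfl⟩
  have hd1 : P.card ≤ 2 ^ d := by rw [hd]; exact Nat.le_pow_clog (by norm_num) _
  have hd2 : 2 ^ d ≤ 2 * P.card := by
    rcases Nat.lt_or_ge 1 P.card with h | h
    · have h3 : 2 ^ (Nat.clog 2 P.card - 1) < P.card := by
        have := Nat.pow_pred_clog_lt_self (b := 2) (by norm_num) h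
        simpa using this
      have h4 : 0 < Nat.clog 2 P.card := Nat.clog_pos (by norm_num) h
      calc 2 ^ d = 2 * 2 ^ (Nat.clog 2 P.card - 1) := by
            rw [hd, ← pow_succ']; congr 1; omega
        _ ≤ 2 * P.card := by omega
    · have h3 : P.card = 1 := by omega
      rw [hd, h3]
      simp
  -- variables in ℕ
  set ψ := Fintype.equivFin E with hψ
  set f : E → ℕ := fun v => (ψ v : ℕ) with hf
  have hfB : ∀ v, f v < Fintype.card E := fun v => (ψ v).isLt
  set g : ℕ → E := fun i => if h : i < Fintype.card E then ψ.symm ⟨i, h⟩ else v0 with hg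
  have hgf : ∀ v, g (f v) = v := by
    intro v
    have h1 : f v < Fintype.card E := (ψ v).isLt
    rw [hg]
    simp only [h1, dif_pos]
    exact ψ.symm_apply_apply v
  have hK : ∀ x, (bigAnd d C0).eval x = false := by
    intro x
    by_contra h1
    rw [Bool.not_eq_false, eval_bigAnd] at h1
    obtain ⟨p, hp, h2⟩ := exists_Idx (src := src) (tgt := tgt) v1 x
    rw [← hP] at hp
    obtain ⟨i, hi, h3⟩ := hidxS p hp
    have h4 := h1 i (lt_of_lt_of_le hi hd1)
    rw [hC0] at h4
    simp only at h4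
    rw [(hsp i).2.2.2 x] at h4
    obtain ⟨w, hw, h5⟩ := h4
    rw [h3] at hw h5
    exact h5 (h2 w hw)
  have hren : ∀ d', (Fm.neg (bigAnd d' C0)).ren f
      = Fm.neg (bigAnd d' fun i => (C0 i).ren f) := fun d' => by
    show Fm.neg ((bigAnd d' C0).ren f) = _
    rw [ren_bigAnd]
  have hlenC : ∀ i, (C0 i).len ≤ 4 * Dm := fun i => (hsp i).2.1
  have hlenK := len_bigAnd (4 * Dm) d C0 hlenC
  have h2d : 2 ^ d ≤ 2 * (Fintype.card Wv * 2 ^ Dm) := hd2.trans (Nat.mul_le_mul_left _ hPle)
  have hKd : 2 ^ d * (4 * Dm + 3) ≤ Fintype.card Wv * (2 ^ Dm * (8 * Dm + 8)) := by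
    calc 2 ^ d * (4 * Dm + 3) ≤ 2 * (Fintype.card Wv * 2 ^ Dm) * (4 * Dm + 3) :=
          Nat.mul_le_mul_right _ h2d
      _ = Fintype.card Wv * (2 ^ Dm * (8 * Dm + 6)) := by ring
      _ ≤ _ := Nat.mul_le_mul_left _ (Nat.mul_le_mul_left _ (by omega))
  refine ⟨d, fun i => (C0 i).ren f, fun i => isClause_ren f (hsp i).1, fun x => ?_, ?_, ?_, ?_⟩
  · rw [← hren, eval_ren]
    show (!(bigAnd d C0).eval _) = true
    rw [hK]; rfl
  · rw [← hren]
    refine le_trans ?_ (len_le_enc _)
    rw [len_ren]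
    show n ≤ (bigAnd d C0).len + 1
    have := two_pow_le_len_bigAnd d C0
    omega
  · rw [← hren]
    refine (enc_le f _ hfB _).trans ?_
    rw [← hcW]
    refine Nat.mul_le_mul ?_ ?_
    · show (bigAnd d C0).len + 1 ≤ _
      omega
    · have h1 : Nat.size (Fintype.card E) ≤ Nat.size (Dm * Fintype.card Wv) := by
        refine Nat.size_le_size (hcE.trans ?_)
        exact Nat.mul_le_mul_right _ hJD
      omega
  · intro t X kt Mt K s0 ℓ cnt u0 η hN b e hNa he hb1 hb2 Sch htaut hlen hTau L pf hpf hfin sl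
      hsl hdep
    rw [← hcW] at hb1 ⊢
    by_contra hL
    push Not at hL
    obtain ⟨fam, hfM, hfK, hlv⟩ := hlev t X kt (Dm + 1) Mt K s0 ℓ cnt u0 η hN b (e + 2) cnt hNa
    rw [Nat.sub_self, pow_zero, pow_zero, mul_one, mul_one, mul_one] at hlv
    have ht1 := hN.t1
    have htkt : t ≤ kt := by
      refine le_trans ?_ hN.k1
      exact Nat.le_mul_of_pos_right _ (by omega)
    have hσ : 16 ≤ 4 * t * 2 ^ t := by
      calc 16 ≤ 4 * t * 1 := by omega
        _ ≤ 4 * t * 2 ^ t := Nat.mul_le_mul_left _ Nat.one_le_two_pow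
    have hK1 : 1 ≤ fam.K := by
      rw [hfK]
      refine le_trans ?_ hN.p1
      exact Nat.mul_pos (by omega) (Nat.mul_pos (by omega) (by omega))
    have hb4 : 4 ≤ b := by
      have : 80 ^ 2 ≤ Dm ^ 2 := Nat.pow_le_pow_left hDm 2
      omega
    -- the simulation
    have hSim : Sim Sch := sim_of (by omega) (by omega) hTau
    have hpf1 : IsDer Sch (Set.range C0) (fun i => (pf i).ren g) := by
      have h1 := isDer_ren hpf g
      have h2 : (fun A : Fm ℕ => A.ren g) '' Set.range (fun i => (C0 i).ren f)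
          = Set.range C0 := by
        rw [← Set.range_comp]
        congr 1
        funext i
        show ((C0 i).ren f).ren g = C0 i
        rw [ren_ren]
        simp only [hgf]
        exact ren_id _
      rwa [h2] at h1
    have hldr : ∀ A : Fm ℕ, ldep b (A.ren g) = ldep b A := by
      intro A
      induction A with
      | var i => rfl
      | neg A ih => simp only [Fm.ren, ldep, len_ren, ih]
      | imp A B ihA ihB => simp only [Fm.ren, ldep, len_ren, ihA, ihB]
    have hfin1 : ∃ i, (pf i).ren g = Fm.neg (bigAnd d C0) := by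
      obtain ⟨i, hi⟩ := hfin
      refine ⟨i, ?_⟩
      rw [hi, ← hren, ren_ren]
      simp only [hgf]
      exact ren_id _
    have hAsl : (axl3 src tgt Dm v0 v1).length = Fintype.card Wv := by
      rw [axl3, List.length_map, Finset.length_toList, Finset.card_univ]
    have hAs1 : ∀ A ∈ axl3 src tgt Dm v0 v1, A.len ≤ 24 * Dm ^ 2 := fun A hA => by
      rw [axl3, List.mem_map] at hA
      obtain ⟨v, _, rfl⟩ := hA
      exact len_parAx v0 Dm (by omega) _ _
    have hAsb : ∀ A ∈ axl3 src tgt Dm v0 v1, A.len ≤ b := fun A hA => (hAs1 A hA).trans hb2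
    have hcl : clen (axl3 src tgt Dm v0 v1) ≤ Fintype.card Wv * (24 * Dm ^ 2 + 1) := by
      have h1 := clen_le (24 * Dm ^ 2) (axl3 src tgt Dm v0 v1) hAs1
      rwa [hAsl] at h1
    obtain ⟨s2, hs2⟩ : ∃ s2, s2 = 12 * (Fintype.card Wv * (24 * Dm ^ 2 + 1) + sl +
            Fintype.card Wv * (2 ^ Dm * (8 * Dm + 8))) + 60 := ⟨_, rfl⟩
    rw [← hs2] at hL
    obtain ⟨L', pf', h1, h2, h3, h4⟩ := simulA (s := s2) (b := b) (e := e) hSim he
      (axl3 src tgt Dm v0 v1) hAsb v0
      (c := 4 * Dm) (d := d) (s0 := sl) C0 hlenC (fun i => by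
        have h1 := hidxP i
        rw [hP] at h1
        unfold Idx at h1
        rw [Finset.mem_sigma, Finset.mem_filter] at h1
        obtain ⟨-, h2, h3⟩ := h1
        refine ⟨axm3 src tgt Dm v0 v1 (idx i).1, ?_, ?_⟩
        · rw [axl3, List.mem_map]
          exact ⟨(idx i).1, by simp, rfl⟩
        · obtain ⟨ψ', h5, h6⟩ := inst_Tau (m := 2 * Dm + 20)
            (ℓ := 24 * Dm ^ 2 + 4 * Dm + 20) v0
            (Fm.imp (axm3 src tgt Dm v0 v1 (idx i).1) (C0 i)) (fun x => by
              simp only [Fm.eval, Bool.or_eq_true, Bool.not_eq_true']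
              by_cases h7 : (axm3 src tgt Dm v0 v1 (idx i).1).eval x = true
              · right
                rw [eval_axm3 hdeg] at h7
                rw [hC0]
                simp only
                rw [(hsp i).2.2.2 x]
                by_contra h8
                push Not at h8
                rw [chi_congr' h8] at h7
                exact h3 h7
              · left; simpa using h7) (by
              have e1 : (axm3 src tgt Dm v0 v1 (idx i).1).vars ⊆
                insert v0 (bd src tgt {(idx i).1}) := vars_parAx _ _ _ _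
              have e2 := Finset.card_le_card e1
              have e3 := Finset.card_insert_le v0 (bd src tgt {(idx i).1})
              have e4 := hdeg (idx i).1
              have e5 := Finset.card_le_card (hsp i).2.2.1
              have e6 := Finset.card_union_le (axm3 src tgt Dm v0 v1 (idx i).1).vars (C0 i).vars
              show ((axm3 src tgt Dm v0 v1 (idx i).1).vars ∪ (C0 i).vars).card ≤ _
              have e7 : (C0 i).vars.card ≤ (bd src tgt {(idx i).1}).card := e5
              omega) (by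
              have e1 := len_parAx v0 Dm (by omega) (bd src tgt {(idx i).1})
                (sgn3 v1 (idx i).1)
              have e2 := hlenC i
              show (axm3 src tgt Dm v0 v1 (idx i).1).len + (C0 i).len + 1 ≤ _
              have e3 : (axm3 src tgt Dm v0 v1 (idx i).1).len ≤ 24 * Dm ^ 2 := e1
              omega)
          exact ⟨ψ', hTau h5, h6⟩)
      (fun i => (pf i).ren g) hpf1 (fun i => by rw [len_ren]; exact hsl i)
      (fun i => by rw [hldr]; exact hdep i) hfin1 (hKd.trans hb1) hb4 (by omega)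
    -- the subformulas
    obtain ⟨S, hS⟩ : ∃ S : List (Fm E), S = (List.ofFn pf').flatMap Fm.subs := ⟨_, rfl⟩
    have hSm : ∀ A, A ∈ S ↔ ∃ i, A ∈ (pf' i).subs := by
      intro A
      rw [hS, List.mem_flatMap]
      constructor
      · rintro ⟨B, hB, hA⟩
        obtain ⟨i, rfl⟩ := (List.mem_ofFn' _ _).mp hB
        exact ⟨i, hA⟩
      · rintro ⟨i, hA⟩
        exact ⟨pf' i, (List.mem_ofFn' _ _).mpr ⟨i, rfl⟩, hA⟩
    have hSl : S.length ≤ cnt := by
      have h5 : S.length ≤ (List.ofFn pf').length * s2 := by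
        rw [hS]
        refine length_flatMap_le _ _ _ fun A hA => ?_
        obtain ⟨i, rfl⟩ := (List.mem_ofFn' _ _).mp hA
        rw [length_subs]
        exact (h3 i).1
      rw [List.length_ofFn] at h5
      refine h5.trans (le_trans (Nat.mul_le_mul_right _ (h1.trans ?_)) hL)
      rw [hAsl]
      exact Nat.mul_le_mul_right _ (by omega)
    obtain ⟨i0, hi0⟩ := h4
    refine levA_top (s := b) fam hlv (by omega) ht1 hσ hK1 v0 (ε := fun v => sg (sgn3 v1 v))
      (fun v => sg_mul_self _) (prod_sgn3 v1) (S.filter fun A => decide (A.len ≤ b)) ?_ ?_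
      (axl3 src tgt Dm v0 v1) (axl3_spec hdeg v0 v1) ?_
    · intro B hB
      exact of_decide_eq_true (List.mem_filter.mp hB).2
    · exact (List.length_filter_le _ _).trans hSl
    · refine ⟨Sch, L', pf', S, htaut, hlen, h2, fun i => (hSm _).mpr ⟨i, self_subs _⟩, ?_, hSl,
        ?_, ?_, ?_, i0, hi0⟩
      · refine ⟨fun A hA => ?_, fun A B hAB => ?_⟩
        · obtain ⟨i, hi⟩ := (hSm _).mp hA
          exact (hSm _).mpr ⟨i, (subs_cl (pf' i)).1 A hi⟩
        · obtain ⟨i, hi⟩ := (hSm _).mp hAB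
          have h5 := (subs_cl (pf' i)).2 A B hi
          exact ⟨(hSm _).mpr ⟨i, h5.1⟩, (hSm _).mpr ⟨i, h5.2⟩⟩
      · intro A hA
        obtain ⟨i, hi⟩ := (hSm _).mp hA
        exact (ldep_subs _ A hi).trans (h3 i).2
      · intro A hA h0
        exact List.mem_filter.mpr ⟨hA, decide_eq_true (len_of_ldep (by omega) h0)⟩
      · intro A hA
        refine ⟨(hSm _).mpr ⟨i0, ?_⟩, ldep_short (hAsb A hA)⟩
        rw [hi0]
        exact subs_foldr _ _ A hA

end Pool.Agent.H3.Ac
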