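import Mathlib
import Pool.Agent.H3.Frg4.Defs4

set_option autoImplicit false

/-!
# Bounded depth over a class of formulas: the definition used in the statement
-/

namespace Pool.Agent.H3.Ac

open Pool.Agent.H3.Frg

variable {V : Type}

/-- `LDep P d A`: the formula `A` has (left) depth at most `d` over the formulas with the property
`P`. Variables and formulas with the property `P` have depth `0`; if `A` has depth at most `d`, then
`¬A` has depth at most `d + 1`, and so has `A → B` for every `B` of depth at most `d + 1`. -/
inductive LDep (P : Fm V → Prop) : ℕ → Fm V → Prop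
  | var (d : ℕ) (v : V) : LDep P d (Fm.var v)
  | base (d : ℕ) (A : Fm V) : P A → LDep P d A
  | neg (d : ℕ) (A : Fm V) : LDep P d A → LDep P (d + 1) (Fm.neg A)
  | imp (d : ℕ) (A B : Fm V) : LDep P d A → LDep P (d + 1) B → LDep P (d + 1) (Fm.imp A B)

end Pool.Agent.H3.Ac
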