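import Mathlib
import Pool.Agent.H3.Ac.FixA
import Pool.Agent.H3.Ac.LDep
import Pool.Agent.H3.Frg4.FinalC

set_option autoImplicit false
set_option linter.unusedSectionVars false

/-!
# Final assembly: proofs of bounded depth over short formulas
-/

namespace Pool.Agent.H3.Ac

open Finset Filter Topology Pool.Agent.H3.Frg Pool.Agent.H3.Frg2 Pool.Agent.H3.Frg3
  Pool.Agent.H3.Frg4

theorem ldep_of_LDep {V : Type} {P : Fm V → Prop} {b : ℕ} (hP : ∀ A, P A → A.len ≤ b)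
    {D : ℕ} {A : Fm V} (h : LDep P D A) : ldep b A ≤ D := by
  induction h with
  | var d v => exact Nat.zero_le _
  | base d A hA => rw [ldep_short (hP A hA)]; exact Nat.zero_le _
  | neg d A _ ih => have := ldep_neg (b := b) A; omega
  | imp d A B _ _ ihA ihB => have := ldep_imp (b := b) A B; omega

theorem nq_K {J n k t X Dm kt Kt Mt K s ℓ cnt : ℕ} {u0 η : ℝ}
    (h : Nq J n k t X Dm kt Kt Mt K s ℓ cnt u0 η) :
    Nq J n k t X Dm kt Kt Mt (Dm * (t * (1 + 72 * X))) s ℓ cnt u0 η := by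
  have h1 := h.p1
  refine ⟨h.dm, h.n1, h.n2, ?_, ?_, h.n5, h.t1, h.x1, h.k1, h.k2, h.k3, le_rfl, h.p2, h.s1, h.c1,
    h.u1, h.e1, h.e2, h.e3⟩
  · have := h.n3; omega
  · have := h.n4; omega

theorem four_mul_le {t : ℕ} (h : 10 ≤ t) : 4 * t ≤ 2 ^ t := by
  induction t, h using Nat.le_induction with
  | base => norm_num
  | succ k hk ih =>
    have h1 : 1 ≤ k := by omega
    have h2 : 2 ^ 10 ≤ 2 ^ k := Nat.pow_le_pow_right (by norm_num) hk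
    have h3 : (2 : ℕ) ^ 10 = 1024 := by norm_num
    rw [pow_succ]
    omega

/-- the additional conditions hold for large `t` -/
theorem na_exists (J Dm q p ℓ e : ℕ) (hDm : dgf (J + 1) ≤ Dm) (hp : p < 2 * q)
    (hq : 3 * 4 ^ (e + 2) ≤ q) : ∀ᶠ t : ℕ in atTop, ∀ Mt s0 : ℕ,
      Dm * (Dm * (t * (1 + 72 * (4 ^ t) ^ (2 * q - p)))) ≤ Mt →
      (4 ^ t) ^ (J * (2 * q - p)) ≤ s0 →
      Na J ((4 ^ t) ^ q) ((4 ^ t) ^ (2 * q)) t ((4 ^ t) ^ (2 * q - p)) Dm Mt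
        (Dm * (t * (1 + 72 * (4 ^ t) ^ (2 * q - p)))) s0 ((4 ^ t) ^ (J * (2 * q - p))) (e + 2) ℓ
        (2 ^ (t ^ 2)) := by
  have hD80 : 80 ≤ Dm := (one_le_dgf (J + 1)).trans hDm
  have hq48 : 48 ≤ q := by
    refine le_trans ?_ hq
    calc 48 = 3 * 4 ^ 2 := by norm_num
      _ ≤ 3 * 4 ^ (e + 2) := Nat.mul_le_mul_left _ (Nat.pow_le_pow_right (by norm_num) (by omega))
  filter_upwards [eventually_poly (2 * (ℓ + 4) + 8) 0, eventually_ge_atTop 10] with t h1 h2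
  intro Mt s0 hMt hs0
  obtain ⟨Q, hQ⟩ : ∃ Q, Q = 4 ^ t := ⟨_, rfl⟩
  rw [← hQ] at hMt hs0 h1 ⊢
  have hQ10 : 4 ^ 10 ≤ Q := by rw [hQ]; exact Nat.pow_le_pow_right (by norm_num) h2
  have hQb : 1048576 ≤ Q := by
    refine le_trans ?_ hQ10
    norm_num
  have hQ1 : 1 ≤ Q := by omega
  obtain ⟨σ, hσ⟩ : ∃ σ, σ = 4 * t * 2 ^ t := ⟨_, rfl⟩
  have hσQ : σ ≤ Q := by
    rw [hσ, hQ]
    have h3 : 4 * t ≤ 2 ^ t := four_mul_le h2
    calc 4 * t * 2 ^ t ≤ 2 ^ t * 2 ^ t := Nat.mul_le_mul_right _ h3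
      _ = 4 ^ t := by rw [← mul_pow]; norm_num
  have hDJ : 1 ≤ Dm ^ J := Nat.one_le_pow _ _ (by omega)
  have hMle : Mt ≤ Mt * Dm ^ J := Nat.le_mul_of_pos_right _ hDJ
  have hQq : Q ^ 2 ≤ Q ^ q := Nat.pow_le_pow_right hQ1 (by omega)
  have hQ2 : 1048576 * Q ≤ Q ^ 2 := by rw [sq]; exact Nat.mul_le_mul_right _ hQb
  have hpow : Q ^ (2 * q) = (Q ^ q) ^ 2 := by rw [← pow_mul, mul_comm]
  have hX1 : Q ≤ Q ^ (2 * q - p) := Nat.le_self_pow (by omega) _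
  refine ⟨?_, hs0, ?_, ?_, ?_, ?_, ?_, ?_, ?_⟩
  · rw [hpow]; exact Nat.pow_le_pow_left (by omega) 2
  · rw [← pow_mul, mul_comm J]
    exact Nat.le_mul_of_pos_left _ (by norm_num)
  · refine le_trans (Nat.mul_le_mul_right _ ((dgf_mono (by omega)).trans hDm)) (hMt.trans hMle)
  · refine le_trans ?_ (hMt.trans hMle)
    rw [← hσ]
    calc 3 * σ ≤ 3 * Q := Nat.mul_le_mul_left _ hσQ
      _ ≤ 72 * Q ^ (2 * q - p) := Nat.mul_le_mul (by norm_num) hX1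
      _ ≤ 1 + 72 * Q ^ (2 * q - p) := by omega
      _ ≤ t * (1 + 72 * Q ^ (2 * q - p)) := Nat.le_mul_of_pos_left _ (by omega)
      _ ≤ Dm * (t * (1 + 72 * Q ^ (2 * q - p))) := Nat.le_mul_of_pos_left _ (by omega)
      _ ≤ _ := Nat.le_mul_of_pos_left _ (by omega)
  · rw [← hσ]
    omega
  · rw [← hσ]
    have h5 : Q ^ q + 1 ≤ (Q ^ q + 1) ^ 2 := Nat.le_self_pow (by norm_num) _
    omega
  · refine Nat.pow_le_pow_right (by norm_num) ?_
    rw [sq]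
    have h5 : t ≤ 2 ^ t := Nat.lt_two_pow_self.le
    calc t * t ≤ t * 2 ^ t := Nat.mul_le_mul_left _ h5
      _ ≤ 4 * t * 2 ^ t := Nat.mul_le_mul_right _ (by omega)
  · rw [← hσ]
    have h5 : 2 * σ * (ℓ + 4) + 8 * σ ≤ Q ^ 2 := by
      calc 2 * σ * (ℓ + 4) + 8 * σ = (2 * (ℓ + 4) + 8) * σ := by ring
        _ ≤ Q * Q := Nat.mul_le_mul (by simpa using h1) hσQ
        _ = Q ^ 2 := (sq Q).symm
    have h6 := NN_le σ (2 * σ * (ℓ + 4) + 8 * σ) Q (by omega) hσQ h5 (e + 2)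
    have h7 : NN σ (2 * σ * (ℓ + 4) + 8 * σ) (e + 2) * 1
        ≤ NN σ (2 * σ * (ℓ + 4) + 8 * σ) (e + 2) * Q := Nat.mul_le_mul_left _ hQ1
    have h8 : Q ^ (3 * 4 ^ (e + 2)) ≤ Q ^ q := Nat.pow_le_pow_right hQ1 hq
    omega

/-- the bound on the size of proofs of bounded depth over short formulas -/
theorem finalA0 (θ : ℝ) (hθ : θ < 2) (D : ℕ) :
    ∃ (k : ℕ) (c : ℝ), 0 < c ∧ ∃ (d : ℕ → ℕ) (C : ℕ → ℕ → Fm ℕ) (τ : ℕ → Fm ℕ),
      (∀ n, τ n = Fm.neg (bigAnd (d n) (C n))) ∧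
      (∀ n i, IsClause k (C n i)) ∧
      (∀ n x, (τ n).eval x = true) ∧
      Tendsto (fun n => (τ n).enc.length) atTop atTop ∧
      ∀ Sch : Set (Fm ℕ), Sch.Finite → (∀ ψ ∈ Sch, ∀ x, ψ.eval x = true) →
        ∀ᶠ n in atTop, ∀ (L : ℕ) (pf : Fin L → Fm ℕ), IsDer Sch (Set.range (C n)) pf →
          (∃ i, pf i = τ n) →
          (∀ i, LDep (fun A => (A.enc.length : ℝ) ≤ ((τ n).enc.length : ℝ) ^ θ) D (pf i)) →
          ((τ n).enc.length : ℝ) ^ (c * Real.log ((τ n).enc.length : ℝ))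
            ≤ ∑ i, ((pf i).enc.length : ℝ) := by
  obtain ⟨θ', hθ'⟩ : ∃ θ' : ℝ, θ' = max θ 1 := ⟨_, rfl⟩
  have hθ1 : 1 ≤ θ' := by rw [hθ']; exact le_max_right _ _
  have hθθ : θ ≤ θ' := by rw [hθ']; exact le_max_left _ _
  have hθ2 : θ' < 2 := by rw [hθ']; exact max_lt hθ (by norm_num)
  obtain ⟨J, hJ⟩ : ∃ J : ℕ, J = ⌈4 / (2 - θ')⌉₊ + 1 := ⟨_, rfl⟩
  obtain ⟨γ, hγ⟩ : ∃ γ : ℝ, γ = 2 * (J:ℝ) - ((J:ℝ) + 2) * θ' := ⟨_, rfl⟩
  have hγ0 : 0 < γ := by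
    have h1 : 4 / (2 - θ') + 1 ≤ J := by
      rw [hJ]; push_cast
      have := Nat.le_ceil (4 / (2 - θ'))
      linarith
    have h2 : 0 < 2 - θ' := by linarith
    have h3 : 4 / (2 - θ') * (2 - θ') = 4 := div_mul_cancel₀ _ h2.ne'
    have h4 : (4 / (2 - θ') + 1) * (2 - θ') ≤ J * (2 - θ') :=
      mul_le_mul_of_nonneg_right h1 h2.le
    rw [hγ]
    nlinarith
  obtain ⟨Dm, hDm⟩ : ∃ Dm, Dm = dgf (J + 1) := ⟨_, rfl⟩
  have hD80 : 80 ≤ Dm := by rw [hDm]; exact one_le_dgf (J + 1)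
  obtain ⟨p, hp⟩ : ∃ p, p = 4 * Dm * (Dm + 1) + 1 := ⟨_, rfl⟩
  obtain ⟨q, hq⟩ : ∃ q : ℕ, q = ⌈((J:ℝ) * p + 6) / γ⌉₊ + p + 3 * 4 ^ (D + 3) := ⟨_, rfl⟩
  have hp1 : 1 ≤ p := by omega
  have hpq : p < 2 * q := by omega
  have hq1 : 1 ≤ q := by omega
  have hq3 : 3 * 4 ^ (D + 1 + 2) ≤ q := by
    show 3 * 4 ^ (D + 3) ≤ q
    omega
  have hqγ : (J:ℝ) * p + 6 ≤ γ * q := by
    have h1 : ((J:ℝ) * p + 6) / γ ≤ q := by
      refine (Nat.le_ceil _).trans ?_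
      rw [hq]; push_cast
      have : (0:ℝ) ≤ p := by positivity
      have : (0:ℝ) ≤ 3 * 4 ^ (D + 3) := by positivity
      linarith
    rw [div_le_iff₀ hγ0] at h1
    linarith
  obtain ⟨A, hA⟩ : ∃ A : ℕ, A = 2 * q + q * J + 1 := ⟨_, rfl⟩
  obtain ⟨B, hB⟩ : ∃ B : ℕ, B = J * (2 * q - p) := ⟨_, rfl⟩
  have hBR : (B:ℝ) = J * (2 * q - p) := by
    rw [hB, Nat.cast_mul, Nat.cast_sub hpq.le]
    push_cast
    ring
  have hAθ : (A:ℝ) * θ' ≤ (B : ℝ) := by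
    rw [hBR, hA]
    push_cast
    have h1 : (2 * (q:ℝ) + q * J + 1) * θ' = q * (2 * J) - γ * q + θ' := by
      rw [hγ]; ring
    have h2 : (J:ℝ) * (2 * q - p) = q * (2 * J) - J * p := by ring
    rw [h1, h2]
    linarith
  have hAB : A ≤ B := by
    have h1 : (A:ℝ) ≤ (A:ℝ) * θ' := le_mul_of_one_le_right (by positivity) hθ1
    exact_mod_cast h1.trans hAθ
  have hA0 : (0:ℝ) < A := by rw [hA]; positivity
  have hm0 : ∀ n : ℕ, Even ((4 ^ (n + 5)) ^ q) := fun n => by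
    refine (Nat.even_pow.mpr ⟨Nat.even_pow.mpr ⟨by decide, by omega⟩, by omega⟩)
  have hmn : ∀ n : ℕ, (4 ^ (n + 5)) ^ (2 * q) ≤ ((4 ^ (n + 5)) ^ q + 1) ^ 2 := fun n => by
    rw [pow_mul' (4 ^ (n + 5)) 2 q]
    exact Nat.pow_le_pow_left (by omega) 2
  have hm4 : ∀ n : ℕ, ((4 ^ (n + 5)) ^ q + 1) ^ 2 ≤ 4 * (4 ^ (n + 5)) ^ (2 * q) := fun n => by
    rw [pow_mul' (4 ^ (n + 5)) 2 q]
    obtain ⟨z, hz⟩ : ∃ z, z = (4 ^ (n + 5)) ^ q := ⟨_, rfl⟩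
    have h2 : 1 ≤ z := by rw [hz]; exact Nat.one_le_pow _ _ (by positivity)
    rw [← hz]
    calc (z + 1) ^ 2 ≤ (2 * z) ^ 2 := Nat.pow_le_pow_left (by omega) 2
      _ = 4 * z ^ 2 := by ring
  have hch := fun n : ℕ => fixedA (J := J) (m := (4 ^ (n + 5)) ^ q)
    (n := (4 ^ (n + 5)) ^ (2 * q)) (k := 2 * q * (n + 5)) (Dm := Dm) (hm0 n) (by rw [hDm]) (by
      calc 1000 ≤ 4 ^ 5 := by norm_num
        _ ≤ 4 ^ (n + 5) := Nat.pow_le_pow_right (by norm_num) (by omega)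
        _ ≤ (4 ^ (n + 5)) ^ (2 * q) := Nat.le_self_pow (by omega) _) (hmn n)
  choose d C hC1 hC2 hC3 hC5 hC6 using hch
  obtain ⟨τ, hτ⟩ : ∃ τ : ℕ → Fm ℕ, τ = fun n => Fm.neg (bigAnd (d n) (C n)) := ⟨_, rfl⟩
  have hτn : ∀ n, Fm.neg (bigAnd (d n) (C n)) = τ n := fun n => by rw [hτ]
  simp only [hτn] at hC2 hC3 hC5 hC6
  refine ⟨Dm, 1 / (16 * (A:ℝ) ^ 2), by positivity, d, C, τ, fun n => (hτn n).symm, hC1, hC2,
    ?_, ?_⟩
  · refine tendsto_atTop_mono (fun n => ?_) tendsto_id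
    refine le_trans ?_ (hC3 n)
    calc n ≤ n + 5 := by omega
      _ ≤ 4 ^ (n + 5) := (Nat.lt_pow_self (by norm_num)).le
      _ ≤ (4 ^ (n + 5)) ^ (2 * q) := Nat.le_self_pow (by omega) _
  · intro Sch0 hfin0 htaut0
    obtain ⟨Sch, hSch⟩ : ∃ Sch, Sch = Sch0 ∪ Tau (2 * Dm + 20) (24 * Dm ^ 2 + 4 * Dm + 20) :=
      ⟨_, rfl⟩
    have hfin : Sch.Finite := by rw [hSch]; exact hfin0.union (finite_Tau _ _)
    have hTauS : Tau (2 * Dm + 20) (24 * Dm ^ 2 + 4 * Dm + 20) ⊆ Sch := by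
      rw [hSch]; exact Set.subset_union_right
    have hS0 : Sch0 ⊆ Sch := by rw [hSch]; exact Set.subset_union_left
    have htaut : ∀ ψ ∈ Sch, ∀ x, ψ.eval x = true := by
      intro ψ hψ x
      rw [hSch] at hψ
      rcases hψ with h | h
      · exact htaut0 ψ h x
      · exact h.1 x
    obtain ⟨ℓ, hℓ⟩ : ∃ ℓ : ℕ, ∀ ψ ∈ Sch, ψ.len ≤ ℓ := by
      obtain ⟨ℓ, hℓ⟩ := (hfin.image Fm.len).bddAbove
      exact ⟨ℓ, fun ψ hψ => hℓ (Set.mem_image_of_mem _ hψ)⟩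
    obtain ⟨K1, hK1⟩ : ∃ K1, K1 = 2 ^ Dm * (8 * Dm + 8) + 24 * Dm ^ 2 + 100 := ⟨_, rfl⟩
    have hshift : Tendsto (fun n : ℕ => n + 5) atTop atTop := tendsto_add_atTop_nat 5
    filter_upwards [hshift.eventually (eventually_sizeG J q (4 * Dm) (4 * K1)),
      hshift.eventually (nq_exists J Dm q p ℓ (by rw [hDm]; exact dgf_mono (by omega)) hD80
        (by omega) hpq),
      hshift.eventually (na_exists J Dm q p ℓ (D + 1) (by rw [hDm]) hpq hq3),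
      eventually_ge_atTop (12 * A + 16)]
      with n h1 h2 h3 hnA
    intro L pf hpf hex hlines
    obtain ⟨K', kt, Mt, hNq'⟩ := h2
    obtain ⟨t, ht⟩ : ∃ t, t = n + 5 := ⟨_, rfl⟩
    have htA : 12 * A + 16 ≤ t := by omega
    have hNq := nq_K hNq'
    obtain ⟨i1, hi1⟩ := hex
    have hL1 : 1 ≤ L := by have := i1.isLt; omega
    have hp2 := hNq.p2
    have hNa := h3 Mt ((4 ^ (n + 5)) ^ (J * (2 * q - p) + 2 * q - 1)) (by omega)
      (Nat.pow_le_pow_right (by positivity) (by omega))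
    have hm4' := hC6 n _ _ _ _ _ _ _ _ _ _ hNq _ _ hNa (by omega)
    have hm5 := hC5 n
    have hmn4 := hm4 n
    rw [← ht] at h1 hm4' hm5 hmn4
    obtain ⟨Y, hY⟩ : ∃ Y, Y = ((2 * q * t + 1) * 2 ^ (2 * q * t)) ^ J := ⟨_, rfl⟩
    obtain ⟨N, hN⟩ : ∃ N, N = (4 ^ t) ^ (2 * q) * Y := ⟨_, rfl⟩
    obtain ⟨W, hW⟩ : ∃ W, W = ((4 ^ t) ^ q + 1) ^ 2 * Y := ⟨_, rfl⟩
    have hWN : W ≤ 4 * N := by
      rw [hW, hN, ← mul_assoc]
      exact Nat.mul_le_mul_right _ hmn4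
    rw [← hY] at h1 hm4' hm5
    rw [← hN] at h1
    rw [← hW] at hm4' hm5
    rw [← hA] at h1
    rw [← hB] at hm4'
    obtain ⟨Q, hQ⟩ : ∃ Q, Q = 4 ^ t := ⟨_, rfl⟩
    rw [← hQ] at h1 hm4'
    have hQ1 : 1 ≤ Q := by rw [hQ]; exact Nat.one_le_pow _ _ (by norm_num)
    have hQR : (1:ℝ) ≤ Q := by exact_mod_cast hQ1
    have hQ0 : (0:ℝ) < Q := by linarith
    have hQA1 : 1 ≤ Q ^ A := Nat.one_le_pow _ _ hQ1
    have hNK : N * (4 * K1) + 4 * K1 ≤ Q ^ A := by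
      refine le_trans ?_ h1
      exact Nat.le_mul_of_pos_right _ (by omega)
    have hWK : W * K1 ≤ N * (4 * K1) := by
      calc W * K1 ≤ 4 * N * K1 := Nat.mul_le_mul_right _ hWN
        _ = N * (4 * K1) := by ring
    have hWK2 : W * K1 + 4 * K1 ≤ Q ^ A := le_trans (by omega) hNK
    have hWa : W * (24 * Dm ^ 2 + 1) + W * (2 ^ Dm * (8 * Dm + 8)) ≤ W * K1 := by
      rw [← Nat.mul_add, hK1]
      exact Nat.mul_le_mul_left _ (by omega)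
    have hm3 : (τ n).enc.length ≤ Q ^ A := by
      refine hm5.trans (le_trans (Nat.mul_le_mul ?_ ?_) h1)
      · have e1 : W * (2 ^ Dm * (8 * Dm + 8)) ≤ W * K1 := le_trans (by omega) hWa
        omega
      · have e1 : Nat.size (Dm * W) ≤ Nat.size (4 * Dm * N) := by
          refine Nat.size_le_size ?_
          calc Dm * W ≤ Dm * (4 * N) := Nat.mul_le_mul_left _ hWN
            _ = 4 * Dm * N := by ring
        omega
    have hxle : ((τ n).enc.length : ℝ) ≤ (Q:ℝ) ^ A := by exact_mod_cast hm3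
    have hx1 : (1:ℝ) ≤ ((τ n).enc.length : ℝ) := by
      have h3 : 1 ≤ (4 ^ (n + 5)) ^ (2 * q) := Nat.one_le_pow _ _ (by positivity)
      exact_mod_cast h3.trans (hC3 n)
    have hQAB : Q ^ A ≤ Q ^ B := Nat.pow_le_pow_right hQ1 hAB
    have hshort : ∀ F : Fm ℕ, (F.enc.length : ℝ) ≤ ((τ n).enc.length : ℝ) ^ θ →
        F.len ≤ Q ^ B := by
      intro F hF
      have e2 : (F.len : ℝ) ≤ (Q:ℝ) ^ B := by
        calc (F.len : ℝ) ≤ (F.enc.length : ℝ) := by exact_mod_cast len_le_enc _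
          _ ≤ ((τ n).enc.length : ℝ) ^ θ := hF
          _ ≤ ((τ n).enc.length : ℝ) ^ θ' := Real.rpow_le_rpow_of_exponent_le hx1 hθθ
          _ ≤ ((Q:ℝ) ^ A) ^ θ' := Real.rpow_le_rpow (by linarith) hxle (by linarith)
          _ = (Q:ℝ) ^ ((A:ℝ) * θ') := by
              rw [← Real.rpow_natCast, ← Real.rpow_mul hQ0.le]
          _ ≤ (Q:ℝ) ^ (B : ℝ) := Real.rpow_le_rpow_of_exponent_le hQR hAθ
          _ = (Q:ℝ) ^ B := Real.rpow_natCast _ _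
      exact_mod_cast e2
    -- the total size
    obtain ⟨T, hT⟩ : ∃ T : ℕ, T = ∑ i, (pf i).enc.length := ⟨_, rfl⟩
    have hTi : ∀ i, (pf i).len ≤ T := fun i => by
      rw [hT]
      exact (len_le_enc _).trans (Finset.single_le_sum (f := fun i => (pf i).enc.length)
        (fun i _ => Nat.zero_le _) (Finset.mem_univ i))
    have hLT : L ≤ T := by
      rw [hT]
      calc L = ∑ _i : Fin L, 1 := by simp
        _ ≤ _ := by
          refine Finset.sum_le_sum fun i _ => ?_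
          have e1 : 1 ≤ (pf i).len := by cases pf i <;> simp [Fm.len]
          exact e1.trans (len_le_enc _)
    have hT1 : 1 ≤ T := hL1.trans hLT
    have hm6 := hm4' (le_trans (by omega) (hWa.trans ((le_trans (by omega) hWK2).trans hQAB)))
      (le_trans (by omega) (hWK2.trans hQAB)) Sch htaut hℓ hTauS L pf (isDer_mono hpf hS0)
      ⟨i1, hi1⟩ T hTi (fun i => ?_)
    swap
    · have := ldep_of_LDep (b := Q ^ B) hshort (hlines i)
      omega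
    have hb1 : L + 2 * (2 * (W * 2 ^ Dm)) + 2 ≤ 2 * (T * Q ^ A) := by
      have e1 : 2 * (2 * (W * 2 ^ Dm)) + 2 ≤ W * K1 + 4 * K1 := by
        have e2 : 2 * (2 * (W * 2 ^ Dm)) = W * (2 ^ Dm * 4) := by ring
        have e3 : 2 ^ Dm * 4 ≤ K1 := by
          rw [hK1]
          have : 2 ^ Dm * 4 ≤ 2 ^ Dm * (8 * Dm + 8) := Nat.mul_le_mul_left _ (by omega)
          omega
        have e4 : W * (2 ^ Dm * 4) ≤ W * K1 := Nat.mul_le_mul_left _ e3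
        omega
      have e5 : T * 1 ≤ T * Q ^ A := Nat.mul_le_mul_left _ hQA1
      have e6 : 1 * Q ^ A ≤ T * Q ^ A := Nat.mul_le_mul_right _ hT1
      omega
    have hb2 : 6 * W + 7 ≤ Q ^ A := by
      refine le_trans ?_ hWK2
      have : W * 7 ≤ W * K1 := Nat.mul_le_mul_left _ (by omega)
      omega
    have hb3 : 12 * (W * (24 * Dm ^ 2 + 1) + T + W * (2 ^ Dm * (8 * Dm + 8))) + 60
        ≤ 84 * (T * Q ^ A) := by
      have e5 : T * 1 ≤ T * Q ^ A := Nat.mul_le_mul_left _ hQA1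
      have e6 : 1 * Q ^ A ≤ T * Q ^ A := Nat.mul_le_mul_right _ hT1
      omega
    have hb4 : 2 ^ (t ^ 2) < 2 * (T * Q ^ A) * Q ^ A * (84 * (T * Q ^ A)) :=
      lt_of_lt_of_le hm6 (Nat.mul_le_mul (Nat.mul_le_mul hb1 hb2) hb3)
    have hb5 : 2 ^ (t ^ 2) ≤ T ^ 2 * 2 ^ (6 * A * t + 8) := by
      have e1 : Q ^ A = 2 ^ (2 * A * t) := by
        rw [hQ, ← pow_mul, show (4:ℕ) = 2 ^ 2 by norm_num, ← pow_mul]
        congr 1; ring
      calc 2 ^ (t ^ 2) ≤ 2 * (T * Q ^ A) * Q ^ A * (84 * (T * Q ^ A)) := hb4.le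
        _ = 168 * (T ^ 2 * (Q ^ A * Q ^ A * Q ^ A)) := by ring
        _ ≤ 256 * (T ^ 2 * (Q ^ A * Q ^ A * Q ^ A)) := Nat.mul_le_mul_right _ (by norm_num)
        _ = T ^ 2 * (2 ^ (2 * A * t) * 2 ^ (2 * A * t) * 2 ^ (2 * A * t) * 2 ^ 8) := by
            rw [e1]; ring
        _ = T ^ 2 * 2 ^ (6 * A * t + 8) := by
            rw [← pow_add, ← pow_add, ← pow_add]
            congr 2; ring
    have hexp : 2 * (6 * A * t + 8) ≤ t ^ 2 := by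
      have e1 : t * (12 * A + 16) ≤ t * t := Nat.mul_le_mul_left _ htA
      have e2 : t * (12 * A + 16) = 12 * A * t + 16 * t := by ring
      have e3 : 2 * (6 * A * t + 8) = 12 * A * t + 16 := by ring
      rw [sq, e3]
      omega
    have hT4 : 2 ^ (t ^ 2) ≤ T ^ 4 := by
      have e1 : 2 ^ (t ^ 2) * 2 ^ (t ^ 2) ≤ T ^ 4 * 2 ^ (t ^ 2) := by
        calc 2 ^ (t ^ 2) * 2 ^ (t ^ 2)
            ≤ (T ^ 2 * 2 ^ (6 * A * t + 8)) * (T ^ 2 * 2 ^ (6 * A * t + 8)) :=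
              Nat.mul_le_mul hb5 hb5
          _ = T ^ 4 * 2 ^ (2 * (6 * A * t + 8)) := by ring
          _ ≤ T ^ 4 * 2 ^ (t ^ 2) :=
              Nat.mul_le_mul_left _ (Nat.pow_le_pow_right (by norm_num) hexp)
      exact Nat.le_of_mul_le_mul_right e1 (by positivity)
    have hTR : ∑ i, ((pf i).enc.length : ℝ) = (T : ℝ) := by rw [hT]; push_cast; rfl
    rw [hTR]
    obtain ⟨x, hx⟩ : ∃ x : ℝ, x = ((τ n).enc.length : ℝ) := ⟨_, rfl⟩
    rw [← hx] at hx1 hxle ⊢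
    have hx0 : 0 < x := by linarith
    have hlog0 : 0 ≤ Real.log x := Real.log_nonneg hx1
    have hlog1 : Real.log x ≤ 2 * A * t * Real.log 2 := by
      have h3 := Real.log_le_log hx0 hxle
      rw [Real.log_pow, hQ] at h3
      push_cast at h3
      rw [Real.log_pow, show (4:ℝ) = 2 ^ 2 by norm_num, Real.log_pow] at h3
      push_cast at h3
      linarith
    have hl2 : 0 < Real.log 2 := Real.log_pos (by norm_num)
    have hl21 : Real.log 2 ≤ 1 := by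
      have := Real.log_two_lt_d9
      linarith
    have hsq : (x ^ (1 / (16 * (A:ℝ) ^ 2) * Real.log x)) ^ 4 ≤ (T:ℝ) ^ 4 := by
      have hTR4 : (2:ℝ) ^ (t ^ 2) ≤ (T:ℝ) ^ 4 := by exact_mod_cast hT4
      refine le_trans ?_ hTR4
      rw [← Real.rpow_natCast (x ^ _) 4, ← Real.rpow_mul hx0.le, Real.rpow_def_of_pos hx0]
      have h2t : (2:ℝ) ^ (t ^ 2) = Real.exp ((t:ℝ) ^ 2 * Real.log 2) := by
        rw [← Real.rpow_natCast, Real.rpow_def_of_pos (by norm_num)]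
        congr 1
        push_cast
        ring
      rw [h2t]
      refine Real.exp_le_exp.mpr ?_
      have h5 : Real.log x * (1 / (16 * (A:ℝ) ^ 2) * Real.log x * ((4:ℕ):ℝ))
          = Real.log x ^ 2 * (1 / (4 * (A:ℝ) ^ 2)) := by push_cast; ring
      rw [h5]
      calc Real.log x ^ 2 * (1 / (4 * (A:ℝ) ^ 2))
          ≤ (2 * A * t * Real.log 2) ^ 2 * (1 / (4 * (A:ℝ) ^ 2)) := by
            refine mul_le_mul_of_nonneg_right ?_ (by positivity)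
            exact pow_le_pow_left₀ hlog0 hlog1 2
        _ = (t:ℝ) ^ 2 * Real.log 2 * Real.log 2 := by
            field_simp
            ring
        _ ≤ (t:ℝ) ^ 2 * Real.log 2 * 1 := by
            refine mul_le_mul_of_nonneg_left hl21 (by positivity)
        _ = (t:ℝ) ^ 2 * Real.log 2 := by ring
    exact (pow_le_pow_iff_left₀ (Real.rpow_nonneg hx0.le _) (Nat.cast_nonneg _)
      (by norm_num)).mp hsq

/-- the final theorem -/
theorem finalA (θ : ℝ) (hθ : θ < 2) (D : ℕ) :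
    ∃ (k : ℕ) (c : ℝ), 0 < c ∧ ∃ (d : ℕ → ℕ) (C : ℕ → ℕ → Fm ℕ) (τ : ℕ → Fm ℕ),
      (∀ n, τ n = Fm.neg (bigAnd (d n) (C n))) ∧
      (∀ n i, IsClause k (C n i)) ∧
      (∀ n x, (τ n).eval x = true) ∧
      Tendsto (fun n => (τ n).enc.length) atTop atTop ∧
      ∀ Sch : Set (Fm ℕ), Sch.Finite → (∀ ψ ∈ Sch, ∀ x, ψ.eval x = true) →
        ∀ᶠ n in atTop, ∀ (L : ℕ) (pf : Fin L → Fm ℕ), IsDer Sch (Set.range (C n)) pf →
          (∃ i, pf i = τ n) →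
          ((τ n).enc.length : ℝ) ^ θ ≤ ∑ i, ((pf i).enc.length : ℝ) ∧
          ((∀ i, LDep (fun A => (A.enc.length : ℝ) ≤ ((τ n).enc.length : ℝ) ^ θ) D (pf i)) →
            ((τ n).enc.length : ℝ) ^ (c * Real.log ((τ n).enc.length : ℝ))
              ≤ ∑ i, ((pf i).enc.length : ℝ)) := by
  obtain ⟨k, c, hc, d, C, τ, h1, h2, h3, h4, h5⟩ := finalA0 θ hθ D
  refine ⟨k, c, hc, d, C, τ, h1, h2, h3, h4, fun Sch hfin htaut => ?_⟩
  have h4' : Tendsto (fun n => c * Real.log ((τ n).enc.length : ℝ)) atTop atTop :=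
    (Real.tendsto_log_atTop.comp (tendsto_natCast_atTop_atTop.comp h4)).const_mul_atTop hc
  filter_upwards [h5 Sch hfin htaut, h4'.eventually_ge_atTop θ, h4.eventually_ge_atTop 1]
    with n h6 h7 h8
  intro L pf hpf hex
  have h9 := h6 L pf hpf hex
  refine ⟨?_, h9⟩
  have hx1 : (1:ℝ) ≤ ((τ n).enc.length : ℝ) := by exact_mod_cast h8
  by_contra hcon
  push Not at hcon
  have h10 : ∀ i, ((pf i).enc.length : ℝ) ≤ ((τ n).enc.length : ℝ) ^ θ := fun i => by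
    refine le_trans ?_ hcon.le
    exact Finset.single_le_sum (f := fun i => ((pf i).enc.length : ℝ))
      (fun i _ => Nat.cast_nonneg _) (Finset.mem_univ i)
  have h11 := h9 fun i => LDep.base _ _ (h10 i)
  have h12 := Real.rpow_le_rpow_of_exponent_le hx1 h7
  linarith

end Pool.Agent.H3.Ac
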